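import Mathlib

set_option autoImplicit false

namespace Pool.Agent.Lib.Pd4325e

/-- `b k = C(2k,k) C(3k,k)` -/
def b (k : ℕ) : ℤ := (((2 * k).choose k * (3 * k).choose k : ℕ) : ℤ)

lemma ch_up (n k : ℕ) : (((n + 1).choose (k + 1) : ℕ) : ℤ) * (k + 1) = ((n : ℤ) + 1) * ((n.choose k : ℕ) : ℤ) := by
  have := Nat.add_one_mul_choose_eq n k
  have h := congrArg (fun z : ℕ => (z : ℤ)) this
  push_cast at h
  linear_combination -h

lemma ch_right (n k : ℕ) : ((n.choose (k + 1) : ℕ) : ℤ) * (k + 1) = ((n.choose k : ℕ) : ℤ) * ((n : ℤ) - k) := by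
  rcases Nat.lt_or_ge n k with hlt | hge
  · rw [Nat.choose_eq_zero_of_lt hlt, Nat.choose_eq_zero_of_lt (by omega)]
    push_cast; ring
  · have := Nat.choose_succ_right_eq n k
    have h3 := congrArg (fun z : ℕ => (z : ℤ)) this
    push_cast [Nat.cast_sub hge] at h3
    exact h3

lemma ch_n (n k : ℕ) : (((n + 1).choose k : ℕ) : ℤ) * ((n : ℤ) + 1 - k) = ((n.choose k : ℕ) : ℤ) * ((n : ℤ) + 1) := by
  have h1 := ch_up n k
  have h2 := ch_right (n + 1) k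
  push_cast at h2
  linear_combination h1 - h2

lemma b_fac (k : ℕ) : b k * (k.factorial : ℤ) ^ 3 = ((3 * k).factorial : ℤ) := by
  have h1 := Nat.choose_mul_factorial_mul_factorial (show k ≤ 2 * k by omega)
  have h2 := Nat.choose_mul_factorial_mul_factorial (show k ≤ 3 * k by omega)
  rw [show 2 * k - k = k by omega] at h1
  rw [show 3 * k - k = 2 * k by omega] at h2
  have h3 : (2 * k).choose k * (3 * k).choose k * k.factorial ^ 3 = (3 * k).factorial := by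
    rw [← h2, ← h1]; ring
  unfold b
  exact_mod_cast h3

lemma b_rec (k : ℕ) : ((k : ℤ) + 1) ^ 2 * b (k + 1) = 3 * (3 * k + 1) * (3 * k + 2) * b k := by
  have h1 := b_fac k
  have h2 := b_fac (k + 1)
  have h3 : (3 * (k + 1)).factorial = (3 * k + 3) * ((3 * k + 2) * ((3 * k + 1) * (3 * k).factorial)) := by
    rw [show 3 * (k + 1) = 3 * k + 2 + 1 by ring, Nat.factorial_succ, Nat.factorial_succ, Nat.factorial_succ]
  rw [h3, Nat.factorial_succ] at h2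
  push_cast at h2
  rw [← h1] at h2
  have h4 : ((k.factorial : ℤ)) ^ 3 * ((k : ℤ) + 1) ≠ 0 := by
    have : ((k.factorial : ℤ)) ≠ 0 := by exact_mod_cast (Nat.factorial_pos k).ne'
    positivity
  apply mul_left_cancel₀ h4
  linear_combination h2

lemma b_zero : b 0 = 1 := by unfold b; simp

/-- first array -/
def TB (N K : ℕ) : ℤ := b K * (-4) ^ (N - K) * (((N + 2 * K).choose (3 * K) : ℕ) : ℤ)

/-- second array -/
def TA (N K : ℕ) : ℤ := b K * 2 ^ (N - 2 * K) * (((N + K).choose (3 * K) : ℕ) : ℤ)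

lemma TB_N (N K : ℕ) : ((N : ℤ) + 1 - K) * TB (N + 1) K = -4 * (N + 1 + 2 * K) * TB N K := by
  unfold TB
  rcases Nat.lt_or_ge N K with hlt | hge
  · have e1 : (N + 2 * K).choose (3 * K) = 0 := Nat.choose_eq_zero_of_lt (by omega)
    rw [e1]
    rcases Nat.lt_or_ge (N + 1) K with h2 | h2
    · have e2 : (N + 1 + 2 * K).choose (3 * K) = 0 := Nat.choose_eq_zero_of_lt (by omega)
      rw [e2]; push_cast; ring
    · have : K = N + 1 := by omega
      subst this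
      push_cast; ring
  · have h := ch_n (N + 2 * K) (3 * K)
    rw [show N + 1 + 2 * K = N + 2 * K + 1 by ring, show N + 1 - K = (N - K) + 1 by omega, pow_succ]
    push_cast at h ⊢
    linear_combination (-4 * b K * (-4) ^ (N - K)) * h

lemma TB_K (N K : ℕ) : 4 * ((K : ℤ) + 1) ^ 3 * TB N (K + 1) =
    -((N + 2 * K + 2) * (N + 2 * K + 1) * ((N : ℤ) - K)) * TB N K := by
  unfold TB
  rcases Nat.lt_or_ge K N with hlt | hge
  · have hb := b_rec K
    have h1 := ch_up (N + 2 * K + 1) (3 * K + 2)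
    have h2 := ch_up (N + 2 * K) (3 * K + 1)
    have h3 := ch_right (N + 2 * K) (3 * K)
    rw [show N - K = (N - (K + 1)) + 1 by omega, pow_succ, show N + 2 * (K + 1) = N + 2 * K + 1 + 1 by ring,
      show 3 * (K + 1) = 3 * K + 2 + 1 by ring]
    push_cast at h1 h2 h3 ⊢
    set c0 : ℤ := (((N + 2 * K).choose (3 * K) : ℕ) : ℤ)
    set c1 : ℤ := (((N + 2 * K).choose (3 * K + 1) : ℕ) : ℤ)
    set c2 : ℤ := (((N + 2 * K + 1).choose (3 * K + 1 + 1) : ℕ) : ℤ)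
    set c3 : ℤ := (((N + 2 * K + 1 + 1).choose (3 * K + 2 + 1) : ℕ) : ℤ)
    have h1' : c3 * (3 * K + 2 + 1) = (N + 2 * K + 1 + 1) * c2 := h1
    have e1 : (3 * (K : ℤ) + 1) * (3 * K + 2) * (3 * K + 3) * c3 =
        (N + 2 * K + 2) * (N + 2 * K + 1) * (N - K) * c0 := by
      linear_combination ((3 * (K : ℤ) + 1) * (3 * K + 2)) * h1' +
        ((3 * (K : ℤ) + 1) * ((N : ℤ) + 2 * K + 1 + 1)) * h2 +
        (((N : ℤ) + 2 * K + 1 + 1) * ((N : ℤ) + 2 * K + 1)) * h3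
    linear_combination (4 * ((K : ℤ) + 1) * (-4) ^ (N - (K + 1)) * c3) * hb +
      (4 * b K * (-4) ^ (N - (K + 1))) * e1
  · have e2 : (N + 2 * (K + 1)).choose (3 * (K + 1)) = 0 := Nat.choose_eq_zero_of_lt (by omega)
    rw [e2]
    rcases Nat.lt_or_ge N K with h2 | h2
    · have e1 : (N + 2 * K).choose (3 * K) = 0 := Nat.choose_eq_zero_of_lt (by omega)
      rw [e1]; push_cast; ring
    · have : K = N := by omega
      subst this
      push_cast; ring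

lemma TB_A (N K : ℕ) : ((K : ℤ) + 1) ^ 3 * TB (N + 1) (K + 1) =
    (N + 2 * K + 3) * (N + 2 * K + 2) * (N + 2 * K + 1) * TB N K := by
  unfold TB
  have hb := b_rec K
  have h1 := ch_up (N + 2 * K + 2) (3 * K + 2)
  have h2 := ch_up (N + 2 * K + 1) (3 * K + 1)
  have h3 := ch_up (N + 2 * K) (3 * K)
  rw [show N + 1 - (K + 1) = N - K by omega, show N + 1 + 2 * (K + 1) = N + 2 * K + 2 + 1 by ring,
    show 3 * (K + 1) = 3 * K + 2 + 1 by ring]
  push_cast at h1 h2 h3 ⊢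
  set c0 : ℤ := (((N + 2 * K).choose (3 * K) : ℕ) : ℤ)
  set c1 : ℤ := (((N + 2 * K + 1).choose (3 * K + 1) : ℕ) : ℤ)
  set c2 : ℤ := (((N + 2 * K + 1 + 1).choose (3 * K + 1 + 1) : ℕ) : ℤ)
  set c3 : ℤ := (((N + 2 * K + 2 + 1).choose (3 * K + 2 + 1) : ℕ) : ℤ)
  have h1' : c3 * (3 * K + 2 + 1) = (N + 2 * K + 2 + 1) * c2 := h1
  have e1 : (3 * (K : ℤ) + 1) * (3 * K + 2) * (3 * K + 3) * c3 =
      (N + 2 * K + 3) * (N + 2 * K + 2) * (N + 2 * K + 1) * c0 := by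
    linear_combination ((3 * (K : ℤ) + 1) * (3 * K + 2)) * h1' +
      ((3 * (K : ℤ) + 1) * ((N : ℤ) + 2 * K + 2 + 1)) * h2 +
      (((N : ℤ) + 2 * K + 2 + 1) * ((N : ℤ) + 2 * K + 2)) * h3
  linear_combination (((K : ℤ) + 1) * (-4) ^ (N - K) * c3) * hb + (b K * (-4) ^ (N - K)) * e1

lemma TA_N (N K : ℕ) : ((N : ℤ) + 1 - 2 * K) * TA (N + 1) K = 2 * (N + 1 + K) * TA N K := by
  unfold TA
  rcases Nat.lt_or_ge N (2 * K) with hlt | hge
  · have e1 : (N + K).choose (3 * K) = 0 := Nat.choose_eq_zero_of_lt (by omega)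
    rw [e1]
    rcases Nat.lt_or_ge (N + 1) (2 * K) with h2 | h2
    · have e2 : (N + 1 + K).choose (3 * K) = 0 := Nat.choose_eq_zero_of_lt (by omega)
      rw [e2]; push_cast; ring
    · have h3 : (N : ℤ) + 1 - 2 * K = 0 := by omega
      rw [h3]; push_cast; ring
  · have h := ch_n (N + K) (3 * K)
    rw [show N + 1 + K = N + K + 1 by ring, show N + 1 - 2 * K = (N - 2 * K) + 1 by omega, pow_succ]
    push_cast at h ⊢
    linear_combination (2 * b K * 2 ^ (N - 2 * K)) * h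

lemma TA_K (N K : ℕ) : 4 * ((K : ℤ) + 1) ^ 3 * TA N (K + 1) =
    ((N + K + 1) * ((N : ℤ) - 2 * K) * ((N : ℤ) - 2 * K - 1)) * TA N K := by
  unfold TA
  rcases Nat.lt_or_ge (2 * K + 1) N with hlt | hge
  · have hb := b_rec K
    have h1 := ch_up (N + K) (3 * K + 2)
    have h2 := ch_right (N + K) (3 * K + 1)
    have h3 := ch_right (N + K) (3 * K)
    rw [show N - 2 * K = (N - 2 * (K + 1)) + 2 by omega, pow_add, show N + (K + 1) = N + K + 1 by ring,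
      show 3 * (K + 1) = 3 * K + 2 + 1 by ring]
    push_cast at h1 h2 h3 ⊢
    set c0 : ℤ := (((N + K).choose (3 * K) : ℕ) : ℤ)
    set c1 : ℤ := (((N + K).choose (3 * K + 1) : ℕ) : ℤ)
    set c2 : ℤ := (((N + K).choose (3 * K + 1 + 1) : ℕ) : ℤ)
    set c3 : ℤ := (((N + K + 1).choose (3 * K + 2 + 1) : ℕ) : ℤ)
    have h1' : c3 * (3 * K + 2 + 1) = (N + K + 1) * c2 := h1
    have e1 : (3 * (K : ℤ) + 1) * (3 * K + 2) * (3 * K + 3) * c3 =
        (N + K + 1) * (N - 2 * K) * (N - 2 * K - 1) * c0 := by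
      linear_combination ((3 * (K : ℤ) + 1) * (3 * K + 2)) * h1' +
        ((3 * (K : ℤ) + 1) * ((N : ℤ) + K + 1)) * h2 +
        (((N : ℤ) + K + 1) * ((N : ℤ) - 2 * K - 1)) * h3
    linear_combination (4 * ((K : ℤ) + 1) * 2 ^ (N - 2 * (K + 1)) * c3) * hb +
      (4 * b K * 2 ^ (N - 2 * (K + 1))) * e1
  · have e2 : (N + (K + 1)).choose (3 * (K + 1)) = 0 := Nat.choose_eq_zero_of_lt (by omega)
    rw [e2]
    rcases Nat.lt_or_ge N (2 * K) with h2 | h2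
    · have e1 : (N + K).choose (3 * K) = 0 := Nat.choose_eq_zero_of_lt (by omega)
      rw [e1]; push_cast; ring
    · have h3 : ((N : ℤ) - 2 * K) * ((N : ℤ) - 2 * K - 1) = 0 := by
        rcases (show N = 2 * K ∨ N = 2 * K + 1 by omega) with h | h
        · rw [h]; push_cast; ring
        · rw [h]; push_cast; ring
      push_cast
      linear_combination (-(((N : ℤ) + K + 1) * (b K * 2 ^ (N - 2 * K) * (((N + K).choose (3 * K) : ℕ) : ℤ)))) * h3

lemma TA_A (N K : ℕ) : ((K : ℤ) + 1) ^ 3 * TA (N + 2) (K + 1) =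
    (N + K + 3) * (N + K + 2) * (N + K + 1) * TA N K := by
  unfold TA
  have hb := b_rec K
  have h1 := ch_up (N + K + 2) (3 * K + 2)
  have h2 := ch_up (N + K + 1) (3 * K + 1)
  have h3 := ch_up (N + K) (3 * K)
  rw [show N + 2 - 2 * (K + 1) = N - 2 * K by omega, show N + 2 + (K + 1) = N + K + 2 + 1 by ring,
    show 3 * (K + 1) = 3 * K + 2 + 1 by ring]
  push_cast at h1 h2 h3 ⊢
  set c0 : ℤ := (((N + K).choose (3 * K) : ℕ) : ℤ)
  set c1 : ℤ := (((N + K + 1).choose (3 * K + 1) : ℕ) : ℤ)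
  set c2 : ℤ := (((N + K + 1 + 1).choose (3 * K + 1 + 1) : ℕ) : ℤ)
  set c3 : ℤ := (((N + K + 2 + 1).choose (3 * K + 2 + 1) : ℕ) : ℤ)
  have h1' : c3 * (3 * K + 2 + 1) = (N + K + 2 + 1) * c2 := h1
  have e1 : (3 * (K : ℤ) + 1) * (3 * K + 2) * (3 * K + 3) * c3 =
      (N + K + 3) * (N + K + 2) * (N + K + 1) * c0 := by
    linear_combination ((3 * (K : ℤ) + 1) * (3 * K + 2)) * h1' +
      ((3 * (K : ℤ) + 1) * ((N : ℤ) + K + 2 + 1)) * h2 +
      (((N : ℤ) + K + 2 + 1) * ((N : ℤ) + K + 2)) * h3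
  linear_combination (((K : ℤ) + 1) * 2 ^ (N - 2 * K) * c3) * hb + (b K * 2 ^ (N - 2 * K)) * e1

/-- telescoping for the first array -/
lemma teleB (n m : ℕ) : ∑ K ∈ Finset.range (m + 1), (((n : ℤ) + 2) ^ 2 * TB (n + 2) K
    - (7 * ((n : ℤ) + 1) ^ 2 + 7 * (n + 1) + 2) * TB (n + 1) K - 8 * ((n : ℤ) + 1) ^ 2 * TB n K) =
    -(3 * (3 * n + 5) * (n + 2 + 2 * m)) * TB (n + 1) m := by
  induction m with
  | zero =>
    rw [zero_add, Finset.sum_range_one]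
    unfold TB
    rw [b_zero]
    simp only [mul_zero, add_zero, Nat.choose_zero_right, Nat.sub_zero, pow_succ]
    push_cast; ring
  | succ m ih =>
    rw [Finset.sum_range_succ, ih]
    have h1 := TB_N (n + 1) (m + 1)
    have h2 := TB_N n (m + 1)
    have h3 := TB_A (n + 1) m
    set A := TB (n + 2) (m + 1)
    set B := TB (n + 1) (m + 1)
    set C := TB n (m + 1)
    set D := TB (n + 1) m
    have h1' : (((n + 1 : ℕ) : ℤ) + 1 - ((m + 1 : ℕ) : ℤ)) * A = -4 * (((n + 1 : ℕ) : ℤ) + 1 + 2 * ((m + 1 : ℕ) : ℤ)) * B := h1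
    have h3' : ((m : ℤ) + 1) ^ 3 * A = (((n + 1 : ℕ) : ℤ) + 2 * m + 3) * (((n + 1 : ℕ) : ℤ) + 2 * m + 2) *
      (((n + 1 : ℕ) : ℤ) + 2 * m + 1) * D := h3
    push_cast at h1' h2 h3' ⊢
    have hne : (4 * ((n : ℤ) + 4 + 2 * m)) * (4 * ((n : ℤ) + 3 + 2 * m)) * ((n : ℤ) + 2 + 2 * m) ≠ 0 := by positivity
    apply mul_left_cancel₀ hne
    linear_combination ((4 * ((n : ℤ) + 3 + 2 * m)) * ((n : ℤ) + 2 + 2 * m) *
        (-(7 * ((n : ℤ) + 1) ^ 2 + 7 * (n + 1) + 2) + 3 * (3 * n + 5) * (n + 4 + 2 * m)) +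
        8 * ((n : ℤ) + 1) ^ 2 * (n - m) * (n + 2 + 2 * m)) * h1' -
      (8 * ((n : ℤ) + 1) ^ 2 * (4 * ((n : ℤ) + 4 + 2 * m)) * (n + 2 + 2 * m)) * h2 +
      (48 * (3 * (n : ℤ) + 5) * (n + 2 + 2 * m)) * h3'

/-- telescoping for the second array -/
lemma teleA (n m : ℕ) : ∑ K ∈ Finset.range (m + 1), (((n : ℤ) + 2) ^ 2 * TA (n + 2) K
    - (7 * ((n : ℤ) + 1) ^ 2 + 7 * (n + 1) + 2) * TA (n + 1) K - 8 * ((n : ℤ) + 1) ^ 2 * TA n K) =
    -(6 * (3 * n + 4) * (n + 1 + m)) * TA n m := by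
  induction m with
  | zero =>
    rw [zero_add, Finset.sum_range_one]
    unfold TA
    rw [b_zero]
    simp only [mul_zero, add_zero, Nat.choose_zero_right, Nat.sub_zero, pow_succ]
    push_cast; ring
  | succ m ih =>
    rw [Finset.sum_range_succ, ih]
    have h1 := TA_N (n + 1) (m + 1)
    have h2 := TA_N n (m + 1)
    have h3 := TA_A n m
    set A := TA (n + 2) (m + 1)
    set B := TA (n + 1) (m + 1)
    set C := TA n (m + 1)
    set D := TA n m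
    have h1' : (((n + 1 : ℕ) : ℤ) + 1 - 2 * ((m + 1 : ℕ) : ℤ)) * A = 2 * (((n + 1 : ℕ) : ℤ) + 1 + ((m + 1 : ℕ) : ℤ)) * B := h1
    push_cast at h1' h2 h3 ⊢
    have hne : (2 * ((n : ℤ) + 3 + m)) * (2 * ((n : ℤ) + 2 + m)) * ((n : ℤ) + 1 + m) ≠ 0 := by positivity
    apply mul_left_cancel₀ hne
    linear_combination (-(2 * ((n : ℤ) + 2 + m)) * ((n : ℤ) + 1 + m) *
        (-(7 * ((n : ℤ) + 1) ^ 2 + 7 * (n + 1) + 2)) +
        (8 * ((n : ℤ) + 1) ^ 2 - 6 * (3 * n + 4) * (n + 2 + m)) * (n - 1 - 2 * m) * (n + 1 + m)) * h1' -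
      ((-8 * ((n : ℤ) + 1) ^ 2 + 6 * (3 * (n : ℤ) + 4) * (n + 2 + m)) * (2 * ((n : ℤ) + 3 + m)) * (n + 1 + m)) * h2 +
      (24 * (3 * (n : ℤ) + 4) * (n + 1 + m)) * h3

end Pool.Agent.Lib.Pd4325e
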