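import Mathlib
import Pool.Agent.Lib.Pd4325e.Tele
import Pool.Agent.Lib.Pffaf6e.Basic
import Pool.Agent.Lib.Pffaf6e.Red
import Pool.Agent.Lib.Pffaf6e.UnitRoot

set_option autoImplicit false
set_option linter.unusedSectionVars false

namespace Pool.Agent.Lib.Pd4325e

open Pool.Agent.Lib.Pffaf6e

lemma TB_zero {N K : ℕ} (h : N < K) : TB N K = 0 := by
  unfold TB
  rw [Nat.choose_eq_zero_of_lt (show N + 2 * K < 3 * K by omega)]
  push_cast; ring

lemma TA_zero {N K : ℕ} (h : N < 2 * K) : TA N K = 0 := by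
  unfold TA
  rw [Nat.choose_eq_zero_of_lt (show N + K < 3 * K by omega)]
  push_cast; ring

/-- Franel numbers through the first array -/
def f (n : ℕ) : ℤ := ∑ K ∈ Finset.range (n + 1), TB n K

lemma f_eq {n M : ℕ} (h : n < M) : ∑ K ∈ Finset.range M, TB n K = f n := by
  unfold f
  symm
  apply Finset.sum_subset
  · intro k hk; rw [Finset.mem_range] at *; omega
  · intro k _ hk2
    rw [Finset.mem_range] at *
    exact TB_zero (by omega)

/-- Franel numbers through the second array -/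
def fA (n : ℕ) : ℤ := ∑ K ∈ Finset.range (n + 1), TA n K

lemma fA_eq {n M : ℕ} (h : n < M) : ∑ K ∈ Finset.range M, TA n K = fA n := by
  unfold fA
  symm
  apply Finset.sum_subset
  · intro k hk; rw [Finset.mem_range] at *; omega
  · intro k _ hk2
    rw [Finset.mem_range] at *
    exact TA_zero (by omega)

lemma f_rec (n : ℕ) : ((n : ℤ) + 2) ^ 2 * f (n + 2) =
    (7 * ((n : ℤ) + 1) ^ 2 + 7 * (n + 1) + 2) * f (n + 1) + 8 * ((n : ℤ) + 1) ^ 2 * f n := by
  have h := teleB n (n + 2)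
  rw [TB_zero (show n + 1 < n + 2 by omega), mul_zero, Finset.sum_sub_distrib, Finset.sum_sub_distrib,
    ← Finset.mul_sum, ← Finset.mul_sum, ← Finset.mul_sum, f_eq (by omega), f_eq (by omega), f_eq (by omega)] at h
  linear_combination h

lemma fA_rec (n : ℕ) : ((n : ℤ) + 2) ^ 2 * fA (n + 2) =
    (7 * ((n : ℤ) + 1) ^ 2 + 7 * (n + 1) + 2) * fA (n + 1) + 8 * ((n : ℤ) + 1) ^ 2 * fA n := by
  have h := teleA n (n + 2)
  rw [TA_zero (show n < 2 * (n + 2) by omega), mul_zero, Finset.sum_sub_distrib, Finset.sum_sub_distrib,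
    ← Finset.mul_sum, ← Finset.mul_sum, ← Finset.mul_sum, fA_eq (by omega), fA_eq (by omega), fA_eq (by omega)] at h
  linear_combination h

lemma f_zero : f 0 = 1 := by
  unfold f TB; simp [b_zero]

lemma b_one : b 1 = 6 := by unfold b; decide

lemma f_one : f 1 = 2 := by
  unfold f TB; simp [Finset.sum_range_succ, b_zero, b_one]

lemma fA_zero : fA 0 = 1 := by
  unfold fA TA; simp [b_zero]

lemma fA_one : fA 1 = 2 := by
  unfold fA TA; simp [Finset.sum_range_succ, b_zero, b_one]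

lemma f_eq_fA (n : ℕ) : f n = fA n := by
  induction n using Nat.strong_induction_on with
  | _ n ih =>
    rcases n with _ | _ | n
    · rw [f_zero, fA_zero]
    · rw [f_one, fA_one]
    · have h1 := f_rec n
      have h2 := fA_rec n
      rw [ih n (by omega), ih (n + 1) (by omega), ← h2] at h1
      exact mul_left_cancel₀ (by positivity) h1

variable (p : ℕ) [hp : Fact p.Prime]

/-- the recurrence modulo `p^2` -/
def IsRec (u : ℕ → ZMod (p ^ 2)) : Prop :=
  u 1 = 2 * u 0 ∧ ∀ n : ℕ, ((n : ZMod (p ^ 2)) + 2) ^ 2 * u (n + 2) =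
    (7 * ((n : ZMod (p ^ 2)) + 1) ^ 2 + 7 * (n + 1) + 2) * u (n + 1) + 8 * ((n : ZMod (p ^ 2)) + 1) ^ 2 * u n

lemma fR_rec (n : ℕ) : ((n : ZMod (p ^ 2)) + 2) ^ 2 * (f (n + 2) : ZMod (p ^ 2)) =
    (7 * ((n : ZMod (p ^ 2)) + 1) ^ 2 + 7 * (n + 1) + 2) * (f (n + 1) : ZMod (p ^ 2)) +
      8 * ((n : ZMod (p ^ 2)) + 1) ^ 2 * (f n : ZMod (p ^ 2)) := by
  have h := congrArg (fun z : ℤ => (z : ZMod (p ^ 2))) (f_rec n)
  push_cast at h
  exact h

lemma block_one (h5 : 5 ≤ p) (u : ℕ → ZMod (p ^ 2)) (hu : IsRec p u) (M : ℕ) :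
    u (M * p + 1) = u (M * p) * (2 + (M : ZMod (p ^ 2)) * (3 * p)) := by
  rcases Nat.eq_zero_or_pos M with rfl | hM
  · rw [zero_mul, zero_add, hu.1]; push_cast; ring
  · obtain ⟨N, hN⟩ : ∃ N, M * p = N + 1 := ⟨M * p - 1, by
      have : 1 ≤ M * p := Nat.mul_pos hM (by omega)
      omega⟩
    have h := hu.2 N
    have hc : (M : ZMod (p ^ 2)) * p = N + 1 := by
      have := congrArg (fun z : ℕ => (z : ZMod (p ^ 2))) hN
      push_cast at this; exact this
    have h3 := psq p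
    rw [show N + 2 = M * p + 1 by omega, ← hN] at h
    rw [show ((N : ZMod (p ^ 2)) + 2) = M * p + 1 by rw [hc]; ring, ← hc] at h
    set P := (p : ZMod (p ^ 2)) with hP
    set U1 := u (M * p + 1)
    set U0 := u (M * p)
    set V := u N
    have e : (1 - 2 * (M * P)) * (M * P + 1) ^ 2 = 1 := by
      linear_combination (-3 * M ^ 2 - 2 * M ^ 3 * P) * h3
    linear_combination (1 - 2 * (M * P)) * h - U1 * e +
      ((1 - 2 * (M * P)) * (7 * M ^ 2 * U0 + 8 * M ^ 2 * V) - 14 * M ^ 2 * U0) * h3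

lemma block_exists (h5 : 5 ≤ p) (r : ℕ) (hr : r < p) : ∃ w : ZMod (p ^ 2), (∃ c : ZMod (p ^ 2), w = (p : ZMod (p ^ 2)) * c) ∧
    ∀ u : ℕ → ZMod (p ^ 2), IsRec p u → ∀ M : ℕ, u (M * p + r) = u (M * p) * ((f r : ZMod (p ^ 2)) + (M : ZMod (p ^ 2)) * w) := by
  induction r using Nat.strong_induction_on with
  | _ r ih =>
    rcases r with _ | _ | r
    · refine ⟨0, ⟨0, by ring⟩, ?_⟩
      intro u _ M
      rw [f_zero, add_zero, Int.cast_one, mul_zero, add_zero, mul_one]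
    · refine ⟨3 * p, ⟨3, by ring⟩, ?_⟩
      intro u hu M
      rw [zero_add, f_one, block_one p h5 u hu M]
      push_cast; ring
    · obtain ⟨w1, ⟨c1, hc1⟩, hw1⟩ := ih (r + 1) (by omega) (by omega)
      obtain ⟨w0, ⟨c0, hc0⟩, hw0⟩ := ih r (by omega) (by omega)
      have hur : IsUnit (((r + 2 : ℕ)) : ZMod (p ^ 2)) := isUnit_nat p (not_dvd_of_lt p (by omega) hr)
      obtain ⟨v, hv⟩ : ∃ v : ZMod (p ^ 2), ((r : ZMod (p ^ 2)) + 2) * v = 1 := by
        have := ZMod.mul_inv_of_unit _ hur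
        push_cast at this
        exact ⟨_, this⟩
      have h3 := psq p
      have hf := fR_rec p r
      set P := (p : ZMod (p ^ 2)) with hP
      refine ⟨v ^ 2 * ((7 * ((r : ZMod (p ^ 2)) + 1) ^ 2 + 7 * (r + 1) + 2) * w1 + 8 * ((r : ZMod (p ^ 2)) + 1) ^ 2 * w0
        + (14 * (r + 1) + 7) * P * (f (r + 1) : ZMod (p ^ 2)) + 16 * (r + 1) * P * (f r : ZMod (p ^ 2)) -
        2 * (r + 2) * P * (f (r + 2) : ZMod (p ^ 2))), ?_, ?_⟩
      · refine ⟨v ^ 2 * ((7 * ((r : ZMod (p ^ 2)) + 1) ^ 2 + 7 * (r + 1) + 2) * c1 + 8 * ((r : ZMod (p ^ 2)) + 1) ^ 2 * c0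
          + (14 * (r + 1) + 7) * (f (r + 1) : ZMod (p ^ 2)) + 16 * (r + 1) * (f r : ZMod (p ^ 2)) -
          2 * (r + 2) * (f (r + 2) : ZMod (p ^ 2))), ?_⟩
        rw [hc1, hc0]; ring
      · intro u hu M
        have h1 := hw1 u hu M
        have h0 := hw0 u hu M
        have hh := hu.2 (M * p + r)
        rw [show M * p + r + 2 = M * p + (r + 2) by ring, show M * p + r + 1 = M * p + (r + 1) by ring, h1, h0] at hh
        push_cast at hh
        rw [← hP] at hh
        set f2 : ZMod (p ^ 2) := (f (r + 2) : ZMod (p ^ 2))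
        set f1 : ZMod (p ^ 2) := (f (r + 1) : ZMod (p ^ 2))
        set f0 : ZMod (p ^ 2) := (f r : ZMod (p ^ 2))
        set U0 := u (M * p)
        set U2 := u (M * p + (r + 2))
        set Z := (7 * ((r : ZMod (p ^ 2)) + 1) ^ 2 + 7 * (r + 1) + 2) * w1 + 8 * ((r : ZMod (p ^ 2)) + 1) ^ 2 * w0
          + (14 * (r + 1) + 7) * P * f1 + 16 * (r + 1) * P * f0 - 2 * (r + 2) * P * f2 with hZ
        have hXX : ((M : ZMod (p ^ 2)) * P) * (M * P) = 0 := by linear_combination (M * M : ZMod (p ^ 2)) * h3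
        have hX1 : ((M : ZMod (p ^ 2)) * P) * w1 = 0 := by rw [hc1]; linear_combination (M * c1 : ZMod (p ^ 2)) * h3
        have hX0 : ((M : ZMod (p ^ 2)) * P) * w0 = 0 := by rw [hc0]; linear_combination (M * c0 : ZMod (p ^ 2)) * h3
        have hXZ : ((M : ZMod (p ^ 2)) * P) * Z = 0 := by
          rw [hZ]
          linear_combination (7 * ((r : ZMod (p ^ 2)) + 1) ^ 2 + 7 * (r + 1) + 2) * hX1 +
            (8 * ((r : ZMod (p ^ 2)) + 1) ^ 2) * hX0 + (M * ((14 * (r + 1) + 7) * f1 + 16 * (r + 1) * f0 -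
              2 * (r + 2) * f2) : ZMod (p ^ 2)) * h3
        have key : ((M : ZMod (p ^ 2)) * P + r + 2) ^ 2 * (f2 + M * (v ^ 2 * Z)) =
            (7 * ((M : ZMod (p ^ 2)) * P + r + 1) ^ 2 + 7 * (M * P + r + 1) + 2) * (f1 + M * w1) +
              8 * ((M : ZMod (p ^ 2)) * P + r + 1) ^ 2 * (f0 + M * w0) := by
          linear_combination hf + (M * Z * (((r : ZMod (p ^ 2)) + 2) * v + 1)) * hv +
            (f2 + M * (v ^ 2 * Z) - 7 * (f1 + M * w1) - 8 * (f0 + M * w0)) * hXX +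
            (2 * ((r : ZMod (p ^ 2)) + 2) * M * v ^ 2) * hXZ - ((14 * (r + 1) + 7) * M : ZMod (p ^ 2)) * hX1 -
            (16 * (r + 1) * M : ZMod (p ^ 2)) * hX0 + M * hZ
        have hK : IsUnit (((M : ZMod (p ^ 2)) * P + r + 2) ^ 2) := by
          apply IsUnit.pow
          apply IsUnit.of_mul_eq_one (v * (1 - M * P * v))
          linear_combination (1 - M * P * v) * hv - v ^ 2 * hXX
        apply hK.mul_left_cancel
        linear_combination hh - U0 * key

end Pool.Agent.Lib.Pd4325e
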