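import Mathlib
import Pool.Agent.Lib.Pd4325e.Block

set_option autoImplicit false
set_option linter.unusedSectionVars false

namespace Pool.Agent.Lib.Pd4325e

open Pool.Agent.Lib.Pffaf6e

variable (p : ℕ) [hp : Fact p.Prime]

lemma choose_ndvd (a i : ℕ) (hi : ¬ p ∣ i) :
    ∃ c : ZMod (p ^ 2), (((a * p).choose i : ℕ) : ZMod (p ^ 2)) = (p : ZMod (p ^ 2)) * c := by
  obtain ⟨k, rfl⟩ : ∃ k, i = k + 1 := ⟨i - 1, by
    rcases i with _ | i
    · exact absurd (dvd_zero p) hi
    · omega⟩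
  have h := Nat.choose_succ_right_eq (a * p) k
  have hu := isUnit_nat p hi
  have hv := ZMod.mul_inv_of_unit _ hu
  rcases Nat.lt_or_ge (a * p) 1 with hlt | hge
  · have : a * p = 0 := by omega
    rw [this]
    exact ⟨0, by simp⟩
  · obtain ⟨m, hm⟩ : ∃ m, a * p = m + 1 := ⟨a * p - 1, by omega⟩
    have h1 := Nat.add_one_mul_choose_eq m k
    rw [← hm] at h1
    have h2 := congrArg (fun z : ℕ => (z : ZMod (p ^ 2))) h1
    push_cast at h2 hv
    refine ⟨a * (m.choose k : ℕ) * ((k : ZMod (p ^ 2)) + 1)⁻¹, ?_⟩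
    linear_combination (-((k : ZMod (p ^ 2)) + 1)⁻¹) * h2 - (((a * p).choose (k + 1) : ℕ) : ZMod (p ^ 2)) * hv

lemma choose_pp (a : ℕ) : ∀ b : ℕ, (((a * p).choose (b * p) : ℕ) : ZMod (p ^ 2)) = ((a.choose b : ℕ) : ZMod (p ^ 2)) := by
  have hpos := hp.out.pos
  induction a with
  | zero =>
    intro b
    rcases b with _ | b
    · simp
    · rw [zero_mul, Nat.choose_eq_zero_of_lt (show 0 < b + 1 by omega),
        Nat.choose_eq_zero_of_lt (Nat.mul_pos (by omega) hpos)]
  | succ a ih =>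
    intro b
    rcases b with _ | b
    · simp
    · rw [Nat.choose_succ_succ, Nat.cast_add, ← ih b, ← ih (b + 1), add_mul a 1 p, one_mul, Nat.add_choose_eq,
        Finset.Nat.sum_antidiagonal_eq_sum_range_succ_mk, Nat.cast_sum]
      have hk : (b + 1) * p = b * p + p := by ring
      rw [Finset.sum_eq_add (b * p) ((b + 1) * p) (by omega)]
      · rw [hk, Nat.add_sub_cancel_left, Nat.sub_self, Nat.choose_self, Nat.choose_zero_right, mul_one, mul_one]
      · intro i hi hne
        rw [Finset.mem_range, hk] at hi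
        rw [hk] at hne ⊢
        rcases Nat.lt_or_ge p (b * p + p - i) with h1 | h1
        · rw [Nat.choose_eq_zero_of_lt h1, mul_zero, Nat.cast_zero]
        · have h2 : ¬ p ∣ i := by
            rintro ⟨c, hc⟩
            have hc' : i = c * p := by rw [hc, mul_comm]
            have h3 : b < c := by
              by_contra hcon
              have : c * p ≤ b * p := Nat.mul_le_mul_right p (by omega)
              omega
            have h4 : (b + 1) * p ≤ c * p := Nat.mul_le_mul_right p h3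
            omega
          have h5 : b * p + p - i < p := by omega
          have h6 : 1 ≤ b * p + p - i := by omega
          obtain ⟨c, hc⟩ := choose_ndvd p a i h2
          have h7 := choose_p p (b * p + p - i) h6 h5
          rw [Nat.cast_mul, hc, h7]
          exact psq' p _ _
      · intro h
        exfalso
        apply h
        rw [Finset.mem_range, hk]; omega
      · intro h
        exfalso
        apply h
        rw [Finset.mem_range]; omega

lemma b_p : (b p : ZMod (p ^ 2)) = 6 := by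
  have h2 := choose_pp p 2 1
  have h3 := choose_pp p 3 1
  rw [one_mul] at h2 h3
  unfold b
  push_cast
  rw [h2, h3]
  norm_num

lemma two_unit' (h5 : 5 ≤ p) : IsUnit (2 : ZMod (p ^ 2)) := by
  have := isUnit_nat p (not_dvd_of_lt p (i := 2) (by omega) (by omega))
  push_cast at this; exact this

lemma three_unit' (h5 : 5 ≤ p) : IsUnit (3 : ZMod (p ^ 2)) := by
  have := isUnit_nat p (not_dvd_of_lt p (i := 3) (by omega) (by omega))
  push_cast at this; exact this

lemma b_pred (h5 : 5 ≤ p) (j : ℕ) (hj : 1 ≤ j) : (b (j * p - 1) : ZMod (p ^ 2)) = 0 := by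
  have h1 : 1 ≤ j * p := Nat.mul_pos hj (by omega)
  have h := b_rec (j * p - 1)
  rw [show j * p - 1 + 1 = j * p by omega, Nat.cast_sub h1] at h
  have h2 := congrArg (fun z : ℤ => (z : ZMod (p ^ 2))) h
  push_cast at h2
  have h3 := psq p
  set P := (p : ZMod (p ^ 2))
  set B := (b (j * p - 1) : ZMod (p ^ 2))
  have h4 : (3 * (2 - 9 * (j * P))) * B = 0 := by
    linear_combination (j ^ 2 * (b (j * p) : ZMod (p ^ 2)) - 27 * j ^ 2 * B) * h3 - h2
  have hu : IsUnit (3 * (2 - 9 * ((j : ZMod (p ^ 2)) * P))) := by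
    apply (three_unit' p h5).mul
    have h2u := two_unit' p h5
    obtain ⟨i2, hi2⟩ := h2u.exists_right_inv
    apply IsUnit.of_mul_eq_one ((2 + 9 * (j * P)) * i2 * i2)
    linear_combination (2 * i2 + 1) * hi2 - (81 * j ^ 2 * i2 ^ 2) * h3
  exact (hu.mul_right_eq_zero).mp h4

/-- partial sums of the first array -/
def uS (m N : ℕ) : ZMod (p ^ 2) := ∑ k ∈ Finset.range m, (TB N k : ZMod (p ^ 2))

/-- partial sums of the second array -/
def uA (m N : ℕ) : ZMod (p ^ 2) := ∑ k ∈ Finset.range m, (TA N k : ZMod (p ^ 2))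

lemma uS_rec (m : ℕ) (hm : 2 ≤ m) (hb : (b (m - 1) : ZMod (p ^ 2)) = 0) : IsRec p (uS p m) := by
  constructor
  · unfold uS
    have h1 := congrArg (fun z : ℤ => (z : ZMod (p ^ 2))) (f_eq (n := 1) (M := m) (by omega))
    have h0 := congrArg (fun z : ℤ => (z : ZMod (p ^ 2))) (f_eq (n := 0) (M := m) (by omega))
    simp only [Int.cast_sum] at h1 h0
    rw [h1, h0, f_one, f_zero]; push_cast; ring
  · intro n
    have h := congrArg (fun z : ℤ => (z : ZMod (p ^ 2))) (teleB n (m - 1))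
    rw [show m - 1 + 1 = m by omega] at h
    have hz : (TB (n + 1) (m - 1) : ZMod (p ^ 2)) = 0 := by
      unfold TB; push_cast; rw [hb]; ring
    simp only [Int.cast_mul, hz, mul_zero] at h
    simp only [Int.cast_sum, Int.cast_sub, Int.cast_mul, Int.cast_pow, Int.cast_add, Int.cast_natCast,
      Finset.sum_sub_distrib, ← Finset.mul_sum] at h
    push_cast at h
    unfold uS
    linear_combination h

lemma uA_rec (m : ℕ) (hm : 2 ≤ m) (hb : (b (m - 1) : ZMod (p ^ 2)) = 0) : IsRec p (uA p m) := by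
  constructor
  · unfold uA
    have h1 := congrArg (fun z : ℤ => (z : ZMod (p ^ 2))) (fA_eq (n := 1) (M := m) (by omega))
    have h0 := congrArg (fun z : ℤ => (z : ZMod (p ^ 2))) (fA_eq (n := 0) (M := m) (by omega))
    simp only [Int.cast_sum] at h1 h0
    rw [h1, h0, fA_one, fA_zero]; push_cast; ring
  · intro n
    have h := congrArg (fun z : ℤ => (z : ZMod (p ^ 2))) (teleA n (m - 1))
    rw [show m - 1 + 1 = m by omega] at h
    have hz : (TA n (m - 1) : ZMod (p ^ 2)) = 0 := by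
      unfold TA; push_cast; rw [hb]; ring
    simp only [Int.cast_mul, hz, mul_zero] at h
    simp only [Int.cast_sum, Int.cast_sub, Int.cast_mul, Int.cast_pow, Int.cast_add, Int.cast_natCast,
      Finset.sum_sub_distrib, ← Finset.mul_sum] at h
    push_cast at h
    unfold uA
    linear_combination h

/-- second block of the first array -/
def uS1 (N : ℕ) : ZMod (p ^ 2) := ∑ k ∈ Finset.range p, (TB N (p + k) : ZMod (p ^ 2))

lemma uS1_eq (N : ℕ) : uS1 p N = uS p (2 * p) N - uS p p N := by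
  unfold uS1 uS
  rw [two_mul, Finset.sum_range_add]
  ring

lemma uS0_isRec (h5 : 5 ≤ p) : IsRec p (uS p p) := by
  have := b_pred p h5 1 le_rfl
  rw [one_mul] at this
  exact uS_rec p p (by omega) this

lemma uA0_isRec (h5 : 5 ≤ p) : IsRec p (uA p p) := by
  have := b_pred p h5 1 le_rfl
  rw [one_mul] at this
  exact uA_rec p p (by omega) this

lemma uS1_isRec (h5 : 5 ≤ p) : IsRec p (uS1 p) := by
  have h0 := uS0_isRec p h5
  have h1 := uS_rec p (2 * p) (by omega) (b_pred p h5 2 (by omega))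
  constructor
  · rw [uS1_eq, uS1_eq, h0.1, h1.1]; ring
  · intro n
    rw [uS1_eq, uS1_eq, uS1_eq]
    linear_combination h1.2 n - h0.2 n

lemma tau_exists (h5 : 5 ≤ p) (k : ℕ) (hk : 1 ≤ k) (hkp : k < p) : ∃ t : ZMod (p ^ 2),
    (∀ M j : ℕ, (TB (M * p) (j * p + k) : ZMod (p ^ 2)) =
      ((M : ZMod (p ^ 2)) * (p : ZMod (p ^ 2)) - (j : ZMod (p ^ 2)) * (p : ZMod (p ^ 2))) *
        (TB (M * p) (j * p) : ZMod (p ^ 2)) * t) ∧
    (∀ M : ℕ, 2 * (TA (M * p) k : ZMod (p ^ 2)) =
      ((M : ZMod (p ^ 2)) * (p : ZMod (p ^ 2))) * (TA (M * p) 0 : ZMod (p ^ 2)) * t) := by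
  have h3 := psq p
  obtain ⟨i2, hi2⟩ := (two_unit' p h5).exists_right_inv
  induction k, hk using Nat.le_induction with
  | base =>
    refine ⟨-i2, ?_, ?_⟩
    · intro M j
      have h := congrArg (fun z : ℤ => (z : ZMod (p ^ 2))) (TB_K (M * p) (j * p))
      push_cast at h
      set P := (p : ZMod (p ^ 2))
      set T0 := (TB (M * p) (j * p) : ZMod (p ^ 2))
      set T1 := (TB (M * p) (j * p + 1) : ZMod (p ^ 2))
      have hXD : ((j : ZMod (p ^ 2)) * P) * ((M : ZMod (p ^ 2)) * P - j * P) = 0 := by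
        linear_combination (j * (M - j) : ZMod (p ^ 2)) * h3
      have hYD : ((M : ZMod (p ^ 2)) * P) * ((M : ZMod (p ^ 2)) * P - j * P) = 0 := by
        linear_combination (M * (M - j) : ZMod (p ^ 2)) * h3
      have hu : IsUnit (4 * ((j : ZMod (p ^ 2)) * P + 1) ^ 3) := by
        apply IsUnit.of_mul_eq_one (i2 * i2 * (1 - j * P) ^ 3)
        have e1 : ((j : ZMod (p ^ 2)) * P + 1) * (1 - j * P) = 1 := by
          linear_combination (-(j : ZMod (p ^ 2)) ^ 2) * h3
        calc 4 * ((j : ZMod (p ^ 2)) * P + 1) ^ 3 * (i2 * i2 * (1 - j * P) ^ 3)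
            = (2 * i2) ^ 2 * (((j : ZMod (p ^ 2)) * P + 1) * (1 - j * P)) ^ 3 := by ring
          _ = 1 := by rw [e1, hi2]; ring
      apply hu.mul_left_cancel
      set D := (M : ZMod (p ^ 2)) * P - j * P with hD
      set X := (j : ZMod (p ^ 2)) * P
      set Y := (M : ZMod (p ^ 2)) * P
      linear_combination h + (2 * D * T0) * hi2 - (T0 * (Y + 4 * X + 3)) * hYD -
        (T0 * (4 * X + 6) - 4 * i2 * T0 * (X ^ 2 + 3 * X + 3)) * hXD
    · intro M
      have h := congrArg (fun z : ℤ => (z : ZMod (p ^ 2))) (TA_K (M * p) 0)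
      push_cast at h
      set P := (p : ZMod (p ^ 2))
      set T0 := (TA (M * p) 0 : ZMod (p ^ 2))
      set T1 := (TA (M * p) 1 : ZMod (p ^ 2))
      linear_combination i2 * h - (2 * T1) * hi2 + (i2 * M ^ 3 * P * T0) * h3
  | succ k hk ih =>
    obtain ⟨t, ht1, ht2⟩ := ih (by omega)
    have hur : IsUnit (((k + 1 : ℕ)) : ZMod (p ^ 2)) := isUnit_nat p (not_dvd_of_lt p (by omega) hkp)
    obtain ⟨v, hv⟩ := hur.exists_right_inv
    push_cast at hv
    refine ⟨i2 * v ^ 2 * (2 * k + 1) * k * t, ?_, ?_⟩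
    · intro M j
      have h := congrArg (fun z : ℤ => (z : ZMod (p ^ 2))) (TB_K (M * p) (j * p + k))
      push_cast at h
      rw [ht1 M j] at h
      rw [← add_assoc]
      set P := (p : ZMod (p ^ 2))
      set T0 := (TB (M * p) (j * p) : ZMod (p ^ 2))
      set T1 := (TB (M * p) (j * p + k + 1) : ZMod (p ^ 2))
      have hXD : ((j : ZMod (p ^ 2)) * P) * ((M : ZMod (p ^ 2)) * P - j * P) = 0 := by
        linear_combination (j * (M - j) : ZMod (p ^ 2)) * h3
      have hYD : ((M : ZMod (p ^ 2)) * P) * ((M : ZMod (p ^ 2)) * P - j * P) = 0 := by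
        linear_combination (M * (M - j) : ZMod (p ^ 2)) * h3
      have hu : IsUnit (4 * ((j : ZMod (p ^ 2)) * P + k + 1) ^ 3) := by
        apply IsUnit.of_mul_eq_one (i2 * i2 * (v * (1 - j * P * v)) ^ 3)
        have e1 : ((j : ZMod (p ^ 2)) * P + k + 1) * (v * (1 - j * P * v)) = 1 := by
          linear_combination (-(j : ZMod (p ^ 2)) ^ 2 * v ^ 2) * h3 + (1 - j * P * v) * hv
        calc 4 * ((j : ZMod (p ^ 2)) * P + k + 1) ^ 3 * (i2 * i2 * (v * (1 - j * P * v)) ^ 3)
            = (2 * i2) ^ 2 * (((j : ZMod (p ^ 2)) * P + k + 1) * (v * (1 - j * P * v))) ^ 3 := by ring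
          _ = 1 := by rw [e1, hi2]; ring
      apply hu.mul_left_cancel
      set D := (M : ZMod (p ^ 2)) * P - j * P with hD
      set X := (j : ZMod (p ^ 2)) * P
      set Y := (M : ZMod (p ^ 2)) * P
      have e4 : 4 * ((k : ZMod (p ^ 2)) + 1) ^ 3 * (i2 * v ^ 2 * (2 * k + 1) * k * t) =
          2 * ((k : ZMod (p ^ 2)) + 1) * (2 * k + 1) * k * t := by
        calc 4 * ((k : ZMod (p ^ 2)) + 1) ^ 3 * (i2 * v ^ 2 * (2 * k + 1) * k * t)
            = (2 * i2) * (((k : ZMod (p ^ 2)) + 1) * v) ^ 2 * (2 * (k + 1) * (2 * k + 1) * k * t) := by ring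
          _ = 2 * ((k : ZMod (p ^ 2)) + 1) * (2 * k + 1) * k * t := by rw [hi2, hv]; ring
      linear_combination h - (D * T0) * e4 -
        (T0 * (i2 * v ^ 2 * (2 * k + 1) * k * t) * 4 * (X ^ 2 + 3 * X * (k + 1) + 3 * (k + 1) ^ 2)) * hXD +
        (T0 * t * ((2 * ((k : ZMod (p ^ 2)) + 1)) * (2 * k + 1))) * (hXD - hYD) -
        (T0 * t * ((Y + 2 * X) + 2 * ((k : ZMod (p ^ 2)) + 1) + (2 * k + 1)) * (Y - X - k)) * (hYD + 2 * hXD)
    · intro M
      have h := congrArg (fun z : ℤ => (z : ZMod (p ^ 2))) (TA_K (M * p) k)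
      push_cast at h
      have h2 := ht2 M
      set P := (p : ZMod (p ^ 2))
      set T0 := (TA (M * p) 0 : ZMod (p ^ 2))
      set T1 := (TA (M * p) (k + 1) : ZMod (p ^ 2))
      set Tk := (TA (M * p) k : ZMod (p ^ 2))
      set Y := (M : ZMod (p ^ 2)) * P with hY
      have hYY : Y * Y = 0 := by rw [hY]; linear_combination (M ^ 2 : ZMod (p ^ 2)) * h3
      have hu : IsUnit (4 * ((k : ZMod (p ^ 2)) + 1) ^ 3) := by
        apply IsUnit.of_mul_eq_one (i2 * i2 * v ^ 3)
        calc 4 * ((k : ZMod (p ^ 2)) + 1) ^ 3 * (i2 * i2 * v ^ 3)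
            = (2 * i2) ^ 2 * (((k : ZMod (p ^ 2)) + 1) * v) ^ 3 := by ring
          _ = 1 := by rw [hv, hi2]; ring
      apply hu.mul_left_cancel
      have e4 : 4 * ((k : ZMod (p ^ 2)) + 1) ^ 3 * (i2 * v ^ 2 * (2 * k + 1) * k * t) =
          2 * ((k : ZMod (p ^ 2)) + 1) * (2 * k + 1) * k * t := by
        calc 4 * ((k : ZMod (p ^ 2)) + 1) ^ 3 * (i2 * v ^ 2 * (2 * k + 1) * k * t)
            = (2 * i2) * (((k : ZMod (p ^ 2)) + 1) * v) ^ 2 * (2 * (k + 1) * (2 * k + 1) * k * t) := by ring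
          _ = 2 * ((k : ZMod (p ^ 2)) + 1) * (2 * k + 1) * k * t := by rw [hi2, hv]; ring
      have e5 : (Y + k + 1) * (Y - 2 * k) * (Y - 2 * k - 1) * Y = (k + 1) * (2 * k) * (2 * k + 1) * Y := by
        linear_combination ((Y - 2 * k) * (Y - 2 * k - 1) + (k + 1) * (Y - 2 * k - 2 * k - 1)) * hYY
      linear_combination 2 * h + ((Y + k + 1) * (Y - 2 * k) * (Y - 2 * k - 1)) * h2 + (T0 * t) * e5 - (Y * T0) * e4

end Pool.Agent.Lib.Pd4325e
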