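import Mathlib
import Pool.Agent.Lib.Pd4325e.Vals

set_option autoImplicit false
set_option linter.unusedSectionVars false

namespace Pool.Agent.Lib.Pd4325e

open Pool.Agent.Lib.Pffaf6e

/-- `a k = C(2k,k)^2 C(3k,k)` -/
def a (k : ℕ) : ℤ := (((2 * k).choose k : ℕ) : ℤ) * b k

lemma cent_rec (k : ℕ) : ((k : ℤ) + 1) * (((2 * (k + 1)).choose (k + 1) : ℕ) : ℤ) =
    2 * (2 * k + 1) * (((2 * k).choose k : ℕ) : ℤ) := by
  have h := Nat.succ_mul_centralBinom_succ k
  unfold Nat.centralBinom at h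
  exact_mod_cast h

lemma a_rec (k : ℕ) : ((k : ℤ) + 1) ^ 3 * a (k + 1) = 6 * (2 * k + 1) * (3 * k + 1) * (3 * k + 2) * a k := by
  unfold a
  have h1 := cent_rec k
  have h2 := b_rec k
  linear_combination (((k : ℤ) + 1) ^ 2 * b (k + 1)) * h1 + (2 * (2 * k + 1) * (((2 * k).choose k : ℕ) : ℤ)) * h2

lemma a_zero : a 0 = 1 := by unfold a; simp [b_zero]

/-- summand -/
def T1 (n k : ℕ) : ℤ := if k ≤ n then a k * ((k.choose (n - k) : ℕ) : ℤ) * (-27) ^ (n - k) else 0

lemma T1_n (n k : ℕ) : ((n : ℤ) + 1 - k) * T1 (n + 1) k = -27 * (2 * k - n) * T1 n k := by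
  unfold T1
  rcases Nat.lt_or_ge n k with hlt | hge
  · rw [if_neg (show ¬ k ≤ n by omega)]
    split_ifs with h
    · have : k = n + 1 := by omega
      subst this
      push_cast; ring
    · ring
  · rw [if_pos hge, if_pos (by omega), show n + 1 - k = (n - k) + 1 by omega, pow_succ]
    have h := ch_right k (n - k)
    have h2 : ((n - k : ℕ) : ℤ) = n - k := by rw [Nat.cast_sub hge]
    rw [h2] at h
    linear_combination (-27 * a k * (-27) ^ (n - k)) * h

lemma T1_k (n k : ℕ) : ((k : ℤ) + 1) ^ 3 * T1 (n + 2) (k + 1) =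
    6 * (2 * k + 1) * (3 * k + 1) * (3 * k + 2) * (T1 (n + 1) k - 27 * T1 n k) := by
  have ha := a_rec k
  unfold T1
  rcases Nat.lt_or_ge (n + 1) k with hlt | hge
  · rw [if_neg (show ¬ k ≤ n + 1 by omega), if_neg (show ¬ k ≤ n by omega), if_neg (show ¬ k + 1 ≤ n + 2 by omega)]
    ring
  · rcases Nat.eq_or_lt_of_le hge with heq | hlt
    · subst heq
      rw [if_pos (show n + 1 ≤ n + 1 by omega), if_neg (show ¬ n + 1 ≤ n by omega), if_pos (show n + 1 + 1 ≤ n + 2 by omega)]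
      rw [show n + 2 - (n + 1 + 1) = 0 by omega, Nat.sub_self]
      push_cast at ha ⊢
      simp only [Nat.choose_zero_right]
      push_cast
      linear_combination ha
    · rw [if_pos hge, if_pos (show k ≤ n by omega), if_pos (show k + 1 ≤ n + 2 by omega)]
      rw [show n + 2 - (k + 1) = (n - k) + 1 by omega, show n + 1 - k = (n - k) + 1 by omega, Nat.choose_succ_succ,
        pow_succ]
      push_cast
      linear_combination (((k.choose (n - k) : ℕ) : ℤ) + ((k.choose (n - k + 1) : ℕ) : ℤ)) * ((-27) ^ (n - k) * (-27)) * ha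

/-- first convolution -/
def c1 (n : ℕ) : ℤ := ∑ k ∈ Finset.range (n + 1), T1 n k

lemma c1_eq {n M : ℕ} (h : n < M) : ∑ k ∈ Finset.range M, T1 n k = c1 n := by
  unfold c1
  symm
  apply Finset.sum_subset
  · intro k hk; rw [Finset.mem_range] at *; omega
  · intro k _ hk2
    rw [Finset.mem_range] at *
    unfold T1
    rw [if_neg (by omega)]

lemma tele1 (n m : ℕ) : ∑ k ∈ Finset.range m, (((n : ℤ) + 2) ^ 3 * T1 (n + 2) k
    - (2 * (n + 1) + 1) * (27 * ((n : ℤ) + 1) ^ 2 + 27 * (n + 1) + 12) * T1 (n + 1) k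
    + 81 * (n + 1) * (9 * ((n : ℤ) + 1) ^ 2 - 1) * T1 n k) = -(n + 2) * m ^ 2 * T1 (n + 2) m := by
  induction m with
  | zero => simp
  | succ m ih =>
    rw [Finset.sum_range_succ, ih]
    have h1 := T1_n (n + 1) m
    have h2 := T1_n n m
    have h3 := T1_k n m
    have hne : ((m : ℤ) + 1) ≠ 0 := by positivity
    apply mul_left_cancel₀ hne
    push_cast at h1 ⊢
    have h1' : ((n : ℤ) + 1 + 1 - m) * T1 (n + 2) m = -27 * (2 * m - (n + 1)) * T1 (n + 1) m := h1
    linear_combination (((n : ℤ) + 2) * (m + 1) * (n + 2 + m)) * h1' + ((n : ℤ) + 2) * h3 +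
      (-54 * ((n : ℤ) + 2) * m ^ 2 - 27 * (n + 2) * (n + 3) * m - (27 * (n : ℤ) ^ 2 + 81 * n + 66)) * h2

lemma c1_rec (n : ℕ) : ((n : ℤ) + 2) ^ 3 * c1 (n + 2) =
    (2 * (n + 1) + 1) * (27 * ((n : ℤ) + 1) ^ 2 + 27 * (n + 1) + 12) * c1 (n + 1) -
      81 * (n + 1) * (9 * ((n : ℤ) + 1) ^ 2 - 1) * c1 n := by
  have h := tele1 n (n + 3)
  have hz : T1 (n + 2) (n + 3) = 0 := by unfold T1; rw [if_neg (by omega)]
  rw [hz, mul_zero, Finset.sum_add_distrib, Finset.sum_sub_distrib,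
    ← Finset.mul_sum, ← Finset.mul_sum, ← Finset.mul_sum, c1_eq (by omega), c1_eq (by omega), c1_eq (by omega)] at h
  linear_combination h

/-- second convolution -/
def c2 (n : ℕ) : ℤ := ∑ k ∈ Finset.range (n + 1), b k * b (n - k)

lemma tele2 (n m : ℕ) (hm : m ≤ n + 1) : 3 * ((n : ℤ) + 2 - m) ^ 2 * ∑ k ∈ Finset.range m,
    (((n : ℤ) + 2) ^ 3 * (b k * b (n + 2 - k))
    - (2 * (n + 1) + 1) * (27 * ((n : ℤ) + 1) ^ 2 + 27 * (n + 1) + 12) * (b k * b (n + 1 - k))
    + 81 * (n + 1) * (9 * ((n : ℤ) + 1) ^ 2 - 1) * (b k * b (n - k))) =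
    (27 * (3 * n + 4) * (n + 2) - 9 * (9 * n + 14) * m) * m ^ 2 * (b m * b (n + 1 - m)) := by
  induction m with
  | zero => simp
  | succ m ih =>
    have ih := ih (by omega)
    rw [Finset.sum_range_succ]
    obtain ⟨j, hj⟩ : ∃ j, n = m + j := ⟨n - m, by omega⟩
    subst hj
    rw [show m + j + 1 - (m + 1) = j by omega, show m + j + 2 - m = j + 2 by omega,
      show m + j + 1 - m = j + 1 by omega, show m + j - m = j by omega]
    rw [show m + j + 1 - m = j + 1 by omega] at ih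
    have r1 := b_rec m
    have r2 := b_rec j
    have r3 := b_rec (j + 1)
    push_cast at r1 r2 r3 ih ⊢
    have r3' : ((j : ℤ) + 1 + 1) ^ 2 * b (j + 2) = 3 * (3 * (j + 1) + 1) * (3 * (j + 1) + 2) * b (j + 1) := r3
    set S := ∑ k ∈ Finset.range m, (((m : ℤ) + j + 2) ^ 3 * (b k * b (m + j + 2 - k))
      - (2 * ((m : ℤ) + j + 1) + 1) * (27 * ((m : ℤ) + j + 1) ^ 2 + 27 * (m + j + 1) + 12) * (b k * b (m + j + 1 - k))
      + 81 * ((m : ℤ) + j + 1) * (9 * ((m : ℤ) + j + 1) ^ 2 - 1) * (b k * b (m + j - k)))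
    have hne : ((j : ℤ) + 2) ^ 2 ≠ 0 := by positivity
    apply mul_left_cancel₀ hne
    linear_combination (((j : ℤ) + 1) ^ 2) * ih + (3 * ((j : ℤ) + 1) ^ 2 * ((m : ℤ) + j + 2) ^ 3 * b m) * r3' +
      (b m * ((27 * (3 * ((m : ℤ) + j) + 4) * (m + j + 2) - 9 * (9 * ((m : ℤ) + j) + 14) * m) * m ^ 2 +
        9 * ((m : ℤ) + j + 2) ^ 3 * (3 * j + 4) * (3 * j + 5) - 3 * ((j : ℤ) + 2) ^ 2 *
        ((2 * ((m : ℤ) + j + 1) + 1) * (27 * ((m : ℤ) + j + 1) ^ 2 + 27 * (m + j + 1) + 12)))) * r2 -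
      (((j : ℤ) + 2) ^ 2 * (27 * (3 * ((m : ℤ) + j) + 4) * (m + j + 2) - 9 * (9 * ((m : ℤ) + j) + 14) * (m + 1)) * b j) * r1

lemma c2_rec (n : ℕ) : ((n : ℤ) + 2) ^ 3 * c2 (n + 2) =
    (2 * (n + 1) + 1) * (27 * ((n : ℤ) + 1) ^ 2 + 27 * (n + 1) + 12) * c2 (n + 1) -
      81 * (n + 1) * (9 * ((n : ℤ) + 1) ^ 2 - 1) * c2 n := by
  have h := tele2 n (n + 1) le_rfl
  rw [Finset.sum_add_distrib, Finset.sum_sub_distrib,
    ← Finset.mul_sum, ← Finset.mul_sum, ← Finset.mul_sum] at h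
  have e2 : c2 (n + 2) = ∑ k ∈ Finset.range (n + 1), b k * b (n + 2 - k) + b (n + 1) * b 1 + b (n + 2) * b 0 := by
    unfold c2
    rw [Finset.sum_range_succ, Finset.sum_range_succ, show n + 2 - (n + 1) = 1 by omega,
      show n + 2 - (n + 2) = 0 by omega]
  have e1 : c2 (n + 1) = ∑ k ∈ Finset.range (n + 1), b k * b (n + 1 - k) + b (n + 1) * b 0 := by
    unfold c2
    rw [Finset.sum_range_succ, Nat.sub_self]
  have e0 : c2 n = ∑ k ∈ Finset.range (n + 1), b k * b (n - k) := rfl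
  rw [Nat.sub_self] at h
  have b1 : b 1 = 6 := b_one
  rw [b_zero] at e1 e2 h
  rw [b1] at e2
  rw [e2, e1, e0]
  have r := b_rec (n + 1)
  push_cast at r h
  have r' : ((n : ℤ) + 1 + 1) ^ 2 * b (n + 2) = 3 * (3 * (n + 1) + 1) * (3 * (n + 1) + 2) * b (n + 1) := r
  apply mul_left_cancel₀ (show (3 : ℤ) ≠ 0 by norm_num)
  linear_combination h + (3 * ((n : ℤ) + 2)) * r'

lemma c1_eq_c2 (n : ℕ) : c1 n = c2 n := by
  induction n using Nat.strong_induction_on with
  | _ n ih =>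
    rcases n with _ | _ | n
    · unfold c1 c2 T1; simp [a_zero, b_zero]
    · unfold c1 c2 T1
      simp [Finset.sum_range_succ, b_zero, b_one, a]
    · have h1 := c1_rec n
      have h2 := c2_rec n
      rw [ih n (by omega), ih (n + 1) (by omega), ← h2] at h1
      exact mul_left_cancel₀ (by positivity) h1

variable (p : ℕ) [hp : Fact p.Prime]

lemma cent_zero (k : ℕ) (hk : k < p) (h : p ≤ 2 * k) :
    ∃ c : ZMod (p ^ 2), (((2 * k).choose k : ℕ) : ZMod (p ^ 2)) = (p : ZMod (p ^ 2)) * c := by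
  have h1 : p ∣ (k + k).choose k := hp.out.dvd_choose_add hk hk (by omega)
  rw [← two_mul] at h1
  obtain ⟨c, hc⟩ := h1
  exact ⟨c, by rw [hc]; push_cast; ring⟩

lemma a_zero' (k : ℕ) (hk : k < p) (h : p ≤ 2 * k) : (a k : ZMod (p ^ 2)) = 0 := by
  obtain ⟨c, hc⟩ := cent_zero p k hk h
  unfold a b
  push_cast
  rw [hc]
  linear_combination (c ^ 2 * (((3 * k).choose k : ℕ) : ZMod (p ^ 2))) * psq p

lemma fact_unit (k : ℕ) (hk : k < p) : IsUnit ((k.factorial : ℕ) : ZMod (p ^ 2)) := by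
  apply isUnit_nat p
  intro h
  have := (hp.out.dvd_factorial).mp h
  omega

lemma b_div (k : ℕ) (hk : k < p) (h : p ≤ 3 * k) : ∃ c : ZMod (p ^ 2), (b k : ZMod (p ^ 2)) = (p : ZMod (p ^ 2)) * c := by
  have h1 := congrArg (fun z : ℤ => (z : ZMod (p ^ 2))) (b_fac k)
  obtain ⟨d, hd⟩ := (hp.out.dvd_factorial).mpr h
  rw [hd] at h1
  push_cast at h1
  obtain ⟨m, hm⟩ := ((fact_unit p k hk).pow 3).exists_right_inv
  refine ⟨d * m, ?_⟩
  linear_combination m * h1 - (b k : ZMod (p ^ 2)) * hm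

lemma b_zero' (k : ℕ) (hk : k < p) (h : 2 * p ≤ 3 * k) : (b k : ZMod (p ^ 2)) = 0 := by
  have h1 := congrArg (fun z : ℤ => (z : ZMod (p ^ 2))) (b_fac k)
  have h2 : p ^ 2 ∣ (3 * k).factorial := by
    have h3 : (2 * p).factorial ∣ (3 * k).factorial := Nat.factorial_dvd_factorial h
    have h4 : p.factorial * p.factorial ∣ (2 * p).factorial := by
      have := Nat.factorial_mul_factorial_dvd_factorial (show p ≤ 2 * p by omega)
      rw [show 2 * p - p = p by omega] at this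
      exact this
    have h5 : p ∣ p.factorial := Nat.dvd_factorial hp.out.pos le_rfl
    rw [pow_two]
    exact (mul_dvd_mul h5 h5).trans (h4.trans h3)
  have h6 : (((3 * k).factorial : ℕ) : ZMod (p ^ 2)) = 0 := by
    rw [ZMod.natCast_eq_zero_iff]; exact h2
  push_cast at h1
  rw [h6] at h1
  exact (((fact_unit p k hk).pow 3).mul_left_eq_zero).mp h1

lemma bb_zero (k j : ℕ) (hk : k < p) (hj : j < p) (h : p ≤ k + j) :
    (b k : ZMod (p ^ 2)) * (b j : ZMod (p ^ 2)) = 0 := by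
  rcases Nat.lt_or_ge (3 * k) (2 * p) with h1 | h1
  · rcases Nat.lt_or_ge (3 * j) (2 * p) with h2 | h2
    · obtain ⟨c, hc⟩ := b_div p k hk (by omega)
      obtain ⟨d, hd⟩ := b_div p j hj (by omega)
      rw [hc, hd]
      exact psq' p c d
    · rw [b_zero' p j hj h2, mul_zero]
  · rw [b_zero' p k hk h1, zero_mul]

/-- Clausen's formula modulo `p^2` -/
theorem clausen {R' : Type*} [CommRing R'] (φ : ZMod (p ^ 2) →+* R') (z : R') :
    ∑ k ∈ Finset.range p, ((a k : ℤ) : R') * (z * (1 - 27 * z)) ^ k =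
      (∑ k ∈ Finset.range p, ((b k : ℤ) : R') * z ^ k) ^ 2 := by
  have e1 : ∀ k ∈ Finset.range p, ((a k : ℤ) : R') * (z * (1 - 27 * z)) ^ k =
      ∑ j ∈ Finset.range p, ((a k * ((k.choose j : ℕ) : ℤ) * (-27) ^ j : ℤ) : R') * z ^ (k + j) := by
    intro k hk
    rw [Finset.mem_range] at hk
    have h1 : (1 - 27 * z) ^ k = ∑ j ∈ Finset.range p, ((k.choose j : ℕ) : R') * (-27 * z) ^ j := by
      rw [show 1 - 27 * z = (-27 * z) + 1 by ring, add_pow]
      have : ∑ j ∈ Finset.range (k + 1), (-27 * z) ^ j * 1 ^ (k - j) * ((k.choose j : ℕ) : R') =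
          ∑ j ∈ Finset.range (k + 1), ((k.choose j : ℕ) : R') * (-27 * z) ^ j := by
        refine Finset.sum_congr rfl ?_
        intro j _
        rw [one_pow]; ring
      rw [this]
      apply Finset.sum_subset
      · intro j hj; rw [Finset.mem_range] at *; omega
      · intro j _ hj
        rw [Finset.mem_range] at hj
        rw [Nat.choose_eq_zero_of_lt (by omega)]
        push_cast; ring
    rw [mul_pow, h1, Finset.mul_sum, Finset.mul_sum]
    refine Finset.sum_congr rfl ?_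
    intro j _
    rw [mul_pow, pow_add]
    push_cast
    ring
  rw [Finset.sum_congr rfl e1]
  have e2 : (∑ k ∈ Finset.range p, ((b k : ℤ) : R') * z ^ k) ^ 2 =
      ∑ k ∈ Finset.range p, ∑ j ∈ Finset.range p, ((b k * b j : ℤ) : R') * z ^ (k + j) := by
    rw [pow_two, Finset.sum_mul_sum]
    refine Finset.sum_congr rfl ?_
    intro k _
    refine Finset.sum_congr rfl ?_
    intro j _
    rw [pow_add]
    push_cast
    ring
  rw [e2]
  -- generic regrouping
  have regroup : ∀ g : ℕ → ℕ → ℤ, (∀ k j, k < p → j < p → p ≤ k + j → ((g k j : ℤ) : R') = 0) →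
      ∑ k ∈ Finset.range p, ∑ j ∈ Finset.range p, ((g k j : ℤ) : R') * z ^ (k + j) =
        ∑ n ∈ Finset.range p, ((∑ k ∈ Finset.range (n + 1), g k (n - k) : ℤ) : R') * z ^ n := by
    intro g hg
    have h1 : ∀ k ∈ Finset.range p, ∑ j ∈ Finset.range p, ((g k j : ℤ) : R') * z ^ (k + j) =
        ∑ j ∈ Finset.range (p - k), ((g k j : ℤ) : R') * z ^ (k + j) := by
      intro k hk
      rw [Finset.mem_range] at hk
      symm
      apply Finset.sum_subset
      · intro j hj; rw [Finset.mem_range] at *; omega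
      · intro j hj1 hj
        rw [Finset.mem_range] at hj hj1
        rw [hg k j hk hj1 (by omega), zero_mul]
    rw [Finset.sum_congr rfl h1, ← Finset.sum_range_diag_flip p (fun k j => ((g k j : ℤ) : R') * z ^ (k + j))]
    refine Finset.sum_congr rfl ?_
    intro n _
    rw [Int.cast_sum, Finset.sum_mul]
    refine Finset.sum_congr rfl ?_
    intro k hk
    rw [Finset.mem_range] at hk
    rw [show k + (n - k) = n by omega]
  rw [regroup (fun k j => a k * ((k.choose j : ℕ) : ℤ) * (-27) ^ j), regroup (fun k j => b k * b j)]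
  · refine Finset.sum_congr rfl ?_
    intro n _
    have h := c1_eq_c2 n
    have h1 : ∑ k ∈ Finset.range (n + 1), (a k * ((k.choose (n - k) : ℕ) : ℤ) * (-27) ^ (n - k)) = c1 n := by
      unfold c1 T1
      refine Finset.sum_congr rfl ?_
      intro k hk
      rw [Finset.mem_range] at hk
      rw [if_pos (by omega)]
    have h2 : ∑ k ∈ Finset.range (n + 1), b k * b (n - k) = c2 n := rfl
    rw [h1, h2, h]
  · intro k j hk hj hkj
    have h := congrArg φ (bb_zero p k j hk hj hkj)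
    rw [map_mul, map_intCast, map_intCast, map_zero] at h
    push_cast
    exact h
  · intro k j hk hj hkj
    rcases Nat.lt_or_ge k j with h1 | h1
    · rw [Nat.choose_eq_zero_of_lt h1]; push_cast; ring
    · have h := congrArg φ (a_zero' p k hk (by omega))
      rw [map_intCast, map_zero] at h
      push_cast
      rw [h]; ring

end Pool.Agent.Lib.Pd4325e
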