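import Mathlib
import Pool.Agent.Lib.Pffaf6e.Hyp

set_option autoImplicit false
set_option linter.unusedSectionVars false

namespace Pool.Agent.Lib.Pd4325e

open Pool.Agent.Lib.Pffaf6e

/-- Legendre polynomial at zero, step -/
lemma L_step (h K : ℕ) (hK : 2 * (h + 1) < K) :
    hs (-((2 * (h + 1) : ℕ) : ℚ)) (((2 * (h + 1) : ℕ) : ℚ) + 1) 1 (1 / 2) K =
      (-((2 * h + 1) / (2 * h + 2))) * hs (-((2 * h : ℕ) : ℚ)) (((2 * h : ℕ) : ℚ) + 1) 1 (1 / 2) K := by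
  have hden2 : (2 * (h : ℚ) + 2) ≠ 0 := by positivity
  set ρ : ℚ := (-((2 * h + 1) / (2 * h + 2))) with hρ
  set P : ℕ → ℚ := fun k => ((2 * h + 2 - k) * (2 * h + 1 - k)) / ((2 * h + 1 + k) * (2 * h + 2 + k)) with hP
  set Q : ℕ → ℚ := fun k => (-(8 * h + 6) * k / (2 * h + 2)) / ((2 * h + 1 + k) * (2 * h + 2 + k)) with hQ
  have hh := tele (-((2 * (h + 1) : ℕ) : ℚ)) (((2 * (h + 1) : ℕ) : ℚ) + 1) 1 (1 / 2) ρ
    (fun k => hg (-((2 * h : ℕ) : ℚ)) (((2 * h : ℕ) : ℚ) + 1) 1 (1 / 2) k) P Q ?_ ?_ ?_ K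
  · rw [hg_eq_zero (2 * (h + 1)) _ _ _ K hK, mul_zero, Finset.sum_sub_distrib, ← Finset.mul_sum] at hh
    unfold hs
    linear_combination hh
  · intro k
    positivity
  · intro k
    induction k with
    | zero =>
      simp only [hP, hg_zero]
      push_cast
      field_simp
      ring
    | succ k ih =>
      rw [hg_succ, hg_succ, ih]
      simp only [hP]
      push_cast
      field_simp
      ring
  · intro k
    simp only [hP, hQ, hρ]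
    push_cast
    field_simp
    ring

lemma L_closed (h : ℕ) : ∀ K, 2 * h < K →
    hs (-((2 * h : ℕ) : ℚ)) (((2 * h : ℕ) : ℚ) + 1) 1 (1 / 2) K * 4 ^ h = (-1) ^ h * (((2 * h).choose h : ℕ) : ℚ) := by
  induction h with
  | zero =>
    intro K hK
    have := hs_stable 0 (((2 * 0 : ℕ) : ℚ) + 1) 1 (1 / 2) K hK
    rw [mul_zero] at this ⊢
    rw [this]
    unfold hs
    simp [hg_zero]
  | succ h ih =>
    intro K hK
    rw [L_step h K hK]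
    have h1 := ih K (by omega)
    have h2 := Nat.succ_mul_centralBinom_succ h
    unfold Nat.centralBinom at h2
    have h3 : ((h : ℚ) + 1) * (((2 * (h + 1)).choose (h + 1) : ℕ) : ℚ) = 2 * (2 * h + 1) * (((2 * h).choose h : ℕ) : ℚ) := by
      exact_mod_cast h2
    have hne : ((h : ℚ) + 1) ≠ 0 := by positivity
    apply mul_left_cancel₀ hne
    rw [pow_succ, pow_succ]
    have e1 : ((h : ℚ) + 1) * (-((2 * h + 1) / (2 * h + 2))) = -(2 * h + 1) / 2 := by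
      field_simp
    linear_combination (hs (-((2 * h : ℕ) : ℚ)) (((2 * h : ℕ) : ℚ) + 1) 1 (1 / 2) K * 4 ^ h * 4) * e1
      + (-2 * (2 * (h : ℚ) + 1)) * h1 + ((-1) ^ h) * h3

lemma ne_43 (h k : ℕ) : (-4 / 3 - 2 * (h : ℚ) + k) ≠ 0 := by
  intro hh
  have h1 : (3 * (k : ℤ) - 6 * h - 4 : ℤ) = 0 := by
    have : (((3 * (k : ℤ) - 6 * h - 4 : ℤ)) : ℚ) = 0 := by push_cast; linarith
    exact_mod_cast this
  omega

/-- `Y3` -/
lemma Y3_step (h K : ℕ) (hK : 2 * (h + 1) < K) :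
    hs (-((2 * (h + 1) : ℕ) : ℚ)) (1 / 3 - ((2 * (h + 1) : ℕ) : ℚ)) (2 / 3 - ((2 * (h + 1) : ℕ) : ℚ)) (1 / 2) K =
      ((h + 1 / 2) * (h + 1 / 3) / ((2 * h + 1 / 3) * (2 * h + 4 / 3))) *
        hs (-((2 * h : ℕ) : ℚ)) (1 / 3 - ((2 * h : ℕ) : ℚ)) (2 / 3 - ((2 * h : ℕ) : ℚ)) (1 / 2) K := by
  have hden1 : (2 * (h : ℚ) + 1 / 3) ≠ 0 := by positivity
  have hden6 : (2 * (h : ℚ) + 4 / 3) ≠ 0 := by positivity
  have hden2 : (2 * (h : ℚ) + 2) ≠ 0 := by positivity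
  have hden3 : (2 * (h : ℚ) + 1) ≠ 0 := by positivity
  have hden4 : (2 * (h : ℚ) + 5 / 3) ≠ 0 := by positivity
  have hden5 : (2 * (h : ℚ) + 2 / 3) ≠ 0 := by positivity
  set ρ : ℚ := ((h + 1 / 2) * (h + 1 / 3) / ((2 * h + 1 / 3) * (2 * h + 4 / 3))) with hρ
  set P : ℕ → ℚ := fun k => ((2 * h + 2 - k) * (2 * h + 1 - k) * (2 * h + 5 / 3 - k) * (2 * h + 2 / 3 - k) *
    ((2 * h + 4 / 3) * (2 * h + 1 / 3))) / ((2 * h + 2) * (2 * h + 1) * (2 * h + 5 / 3) * (2 * h + 2 / 3) *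
      ((-4 / 3 - 2 * h + k) * (-4 / 3 - 2 * h + ((k + 1 : ℕ) : ℚ)))) with hP
  set Q : ℕ → ℚ := fun k => (2 * k ^ 2 - (16 * h + 38 / 3) * k + (24 * h ^ 2 + 36 * h + 116 / 9)) /
    (4 * ((2 * h + 2) * (2 * h + 5 / 3))) / (-4 / 3 - 2 * h + k) with hQ
  have hh := tele (-((2 * (h + 1) : ℕ) : ℚ)) (1 / 3 - ((2 * (h + 1) : ℕ) : ℚ)) (2 / 3 - ((2 * (h + 1) : ℕ) : ℚ))
    (1 / 2) ρ (fun k => hg (-((2 * h : ℕ) : ℚ)) (1 / 3 - ((2 * h : ℕ) : ℚ)) (2 / 3 - ((2 * h : ℕ) : ℚ)) (1 / 2) k)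
    P Q ?_ ?_ ?_ K
  · rw [hg_eq_zero (2 * (h + 1)) _ _ _ K hK, mul_zero, Finset.sum_sub_distrib, ← Finset.mul_sum] at hh
    unfold hs
    linear_combination hh
  · intro k
    have := ne_43 h k
    intro h2
    apply this
    rw [← h2]
    push_cast
    ring
  · intro k
    induction k with
    | zero =>
      have h0 := ne_43 h 0
      have h1 := ne_43 h 1
      simp only [hP, hg_zero]
      push_cast at h0 h1 ⊢
      rw [add_zero] at h0 ⊢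
      simp only [sub_zero, one_mul, zero_add]
      have e1 : (-4 / 3 - 2 * (h : ℚ)) = -(2 * h + 4 / 3) := by ring
      have e2 : (-4 / 3 - 2 * (h : ℚ) + 1) = -(2 * h + 1 / 3) := by ring
      rw [e2, e1, neg_mul_neg, div_self]
      exact mul_ne_zero (mul_ne_zero (mul_ne_zero (mul_ne_zero hden2 hden3) hden4) hden5) (mul_ne_zero hden6 hden1)
    | succ k ih =>
      rw [hg_succ, hg_succ, ih]
      simp only [hP]
      have h1 := ne_43 h k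
      have h2 := ne_43 h (k + 1)
      have h3 := ne_43 h (k + 2)
      have h4 : (1 + (k : ℚ)) ≠ 0 := by positivity
      have e1 : (2 / 3 - ((2 * (h + 1) : ℕ) : ℚ) + k) = (-4 / 3 - 2 * h + k) := by push_cast; ring
      have e2 : (2 / 3 - ((2 * h : ℕ) : ℚ) + k) = (-4 / 3 - 2 * h + ((k + 2 : ℕ) : ℚ)) := by push_cast; ring
      rw [e1, e2, show k + 1 + 1 = k + 2 by ring]
      generalize hv : (-4 / 3 - 2 * (h : ℚ) + ((k + 2 : ℕ) : ℚ)) = v at h3 ⊢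
      generalize hv' : (-4 / 3 - 2 * (h : ℚ) + ((k + 1 : ℕ) : ℚ)) = v' at h2 ⊢
      generalize hv'' : (-4 / 3 - 2 * (h : ℚ) + (k : ℚ)) = v'' at h1 ⊢
      push_cast
      field_simp
      ring
  · intro k
    simp only [hP, hQ, hρ]
    have h1 := ne_43 h k
    have h2 := ne_43 h (k + 1)
    have e1 : (2 / 3 - ((2 * (h + 1) : ℕ) : ℚ) + k) = (-4 / 3 - 2 * h + k) := by push_cast; ring
    rw [e1]
    have e3 : (k : ℚ) = (-4 / 3 - 2 * (h : ℚ) + (k : ℚ)) + 4 / 3 + 2 * h := by ring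
    have e4 : (-4 / 3 - 2 * (h : ℚ) + ((k + 1 : ℕ) : ℚ)) = (-4 / 3 - 2 * (h : ℚ) + (k : ℚ)) + 1 := by push_cast; ring
    rw [e4] at h2 ⊢
    push_cast
    generalize hv' : (-4 / 3 - 2 * (h : ℚ) + (k : ℚ)) = v' at h1 h2 e3 ⊢
    rw [e3]
    field_simp
    ring

/-- `Y4` -/
lemma Y4_step (h K : ℕ) (hK : 2 * (h + 1) < K) :
    hs (-((2 * (h + 1) : ℕ) : ℚ)) (((2 * (h + 1) : ℕ) : ℚ) + 1) (4 / 3 + ((2 * (h + 1) : ℕ) : ℚ)) (1 / 2) K =
      ((h + 2 / 3) * (h + 7 / 6) / ((2 * h + 7 / 6) * (2 * h + 13 / 6))) *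
        hs (-((2 * h : ℕ) : ℚ)) (((2 * h : ℕ) : ℚ) + 1) (4 / 3 + ((2 * h : ℕ) : ℚ)) (1 / 2) K := by
  set ρ : ℚ := ((h + 2 / 3) * (h + 7 / 6) / ((2 * h + 7 / 6) * (2 * h + 13 / 6))) with hρ
  set P : ℕ → ℚ := fun k => ((2 * h + 2 - k) * (2 * h + 1 - k) * (2 * h + 4 / 3 + k) * (2 * h + 7 / 3 + k)) /
    ((2 * h + 1 + k) * (2 * h + 2 + k) * ((2 * h + 4 / 3) * (2 * h + 7 / 3))) with hP
  set Q : ℕ → ℚ := fun k => (2 * k ^ 3 - (4 * h + 4 / 3) * k ^ 2 - (40 * h ^ 2 + 184 / 3 * h + 24) * k -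
    (48 * h ^ 3 + 352 / 3 * h ^ 2 + 824 / 9 * h + 70 / 3)) /
    (4 * ((2 * h + 7 / 6) * (2 * h + 13 / 6))) / ((2 * h + 1 + k) * (2 * h + 2 + k)) with hQ
  have hh := tele (-((2 * (h + 1) : ℕ) : ℚ)) (((2 * (h + 1) : ℕ) : ℚ) + 1) (4 / 3 + ((2 * (h + 1) : ℕ) : ℚ))
    (1 / 2) ρ (fun k => hg (-((2 * h : ℕ) : ℚ)) (((2 * h : ℕ) : ℚ) + 1) (4 / 3 + ((2 * h : ℕ) : ℚ)) (1 / 2) k)
    P Q ?_ ?_ ?_ K
  · rw [hg_eq_zero (2 * (h + 1)) _ _ _ K hK, mul_zero, Finset.sum_sub_distrib, ← Finset.mul_sum] at hh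
    unfold hs
    linear_combination hh
  · intro k
    positivity
  · intro k
    induction k with
    | zero =>
      simp only [hP, hg_zero]
      push_cast
      field_simp
      ring
    | succ k ih =>
      rw [hg_succ, hg_succ, ih]
      simp only [hP]
      push_cast
      field_simp
      ring
  · intro k
    simp only [hP, hQ, hρ]
    push_cast
    field_simp
    ring

lemma Y3_closed (h : ℕ) : ∀ K, 2 * h < K →
    hs (-((2 * h : ℕ) : ℚ)) (1 / 3 - ((2 * h : ℕ) : ℚ)) (2 / 3 - ((2 * h : ℕ) : ℚ)) (1 / 2) K *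
      ∏ i ∈ Finset.range (2 * h), (3 * (i : ℚ) + 1) =
      (∏ i ∈ Finset.range h, (3 * (i : ℚ) + 1)) * ((3 / 2) ^ h * ∏ i ∈ Finset.range h, (2 * (i : ℚ) + 1)) := by
  induction h with
  | zero =>
    intro K hK
    have := hs_stable 0 (1 / 3 - ((2 * 0 : ℕ) : ℚ)) (2 / 3 - ((2 * 0 : ℕ) : ℚ)) (1 / 2) K hK
    rw [mul_zero] at this ⊢
    rw [this]
    unfold hs
    simp [hg_zero]
  | succ h ih =>
    intro K hK
    rw [Y3_step h K hK, show 2 * (h + 1) = 2 * h + 1 + 1 by ring, Finset.prod_range_succ, Finset.prod_range_succ,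
      Finset.prod_range_succ, Finset.prod_range_succ, pow_succ]
    have h1 := ih K (by omega)
    have hden1 : (2 * (h : ℚ) + 1 / 3) ≠ 0 := by positivity
    have hden6 : (2 * (h : ℚ) + 4 / 3) ≠ 0 := by positivity
    have e1 : ((h + 1 / 2) * (h + 1 / 3) / ((2 * (h : ℚ) + 1 / 3) * (2 * h + 4 / 3))) *
        ((3 * ((2 * h : ℕ) : ℚ) + 1) * (3 * ((2 * h + 1 : ℕ) : ℚ) + 1)) = (3 * h + 1) * ((3 / 2) * (2 * h + 1)) := by
      push_cast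
      field_simp
      ring
    linear_combination ((3 * (h : ℚ) + 1) * ((3 / 2) * (2 * h + 1))) * h1 +
      (hs (-((2 * h : ℕ) : ℚ)) (1 / 3 - ((2 * h : ℕ) : ℚ)) (2 / 3 - ((2 * h : ℕ) : ℚ)) (1 / 2) K *
      ∏ i ∈ Finset.range (2 * h), (3 * (i : ℚ) + 1)) * e1

lemma Y4_closed (h : ℕ) : ∀ K, 2 * h < K →
    hs (-((2 * h : ℕ) : ℚ)) (((2 * h : ℕ) : ℚ) + 1) (4 / 3 + ((2 * h : ℕ) : ℚ)) (1 / 2) K *
      ∏ i ∈ Finset.range (2 * h), (6 * (i : ℚ) + 7) =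
      (∏ i ∈ Finset.range h, (6 * (i : ℚ) + 7)) * (2 ^ h * ∏ i ∈ Finset.range h, (3 * (i : ℚ) + 2)) := by
  induction h with
  | zero =>
    intro K hK
    have := hs_stable 0 (((2 * 0 : ℕ) : ℚ) + 1) (4 / 3 + ((2 * 0 : ℕ) : ℚ)) (1 / 2) K hK
    rw [mul_zero] at this ⊢
    rw [this]
    unfold hs
    simp [hg_zero]
  | succ h ih =>
    intro K hK
    rw [Y4_step h K hK, show 2 * (h + 1) = 2 * h + 1 + 1 by ring, Finset.prod_range_succ, Finset.prod_range_succ,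
      Finset.prod_range_succ, Finset.prod_range_succ, pow_succ]
    have h1 := ih K (by omega)
    have e1 : ((h + 2 / 3) * (h + 7 / 6) / ((2 * (h : ℚ) + 7 / 6) * (2 * h + 13 / 6))) *
        ((6 * ((2 * h : ℕ) : ℚ) + 7) * (6 * ((2 * h + 1 : ℕ) : ℚ) + 7)) = (6 * h + 7) * (2 * (3 * h + 2)) := by
      push_cast
      field_simp
      ring
    linear_combination ((6 * (h : ℚ) + 7) * (2 * (3 * h + 2))) * h1 +
      (hs (-((2 * h : ℕ) : ℚ)) (((2 * h : ℕ) : ℚ) + 1) (4 / 3 + ((2 * h : ℕ) : ℚ)) (1 / 2) K *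
      ∏ i ∈ Finset.range (2 * h), (6 * (i : ℚ) + 7)) * e1

end Pool.Agent.Lib.Pd4325e
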