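import Mathlib
import Pool.Agent.Lib.Pffaf6e.Final
import Pool.Agent.Lib.Pd4325e.Half
import Pool.Agent.Lib.Pd4325e.Vals

set_option autoImplicit false
set_option linter.unusedSectionVars false

namespace Pool.Agent.Lib.Pd4325e

open Pool.Agent.Lib.Pffaf6e

lemma b_recQ (k : ℕ) : ((k : ℚ) + 1) ^ 2 * (b (k + 1) : ℚ) = 3 * (3 * k + 1) * (3 * k + 2) * (b k : ℚ) := by
  have := congrArg (fun z : ℤ => (z : ℚ)) (b_rec k)
  push_cast at this
  exact this

lemma bk_hg (k : ℕ) : (b k : ℚ) * (1 / 54) ^ k = hg (1 / 3) (2 / 3) 1 (1 / 2) k := by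
  induction k with
  | zero => rw [b_zero, hg_zero]; norm_num
  | succ k ih =>
    rw [hg_succ, ← ih, pow_succ]
    have h := b_recQ k
    have h1 : ((k : ℚ) + 1) ≠ 0 := by positivity
    have h2 : (b (k + 1) : ℚ) = 3 * (3 * k + 1) * (3 * k + 2) * (b k : ℚ) / ((k : ℚ) + 1) ^ 2 := by
      rw [eq_div_iff (pow_ne_zero 2 h1)]
      linear_combination h
    rw [h2]
    have h3 : (1 + (k : ℚ)) ≠ 0 := by positivity
    field_simp
    ring

lemma bpk_hg (p k : ℕ) : (b (p + k) : ℚ) * (1 / 54) ^ k =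
    (b p : ℚ) * hgd (1 / 3 + p) (2 / 3 + p) (1 + p) (1 + p) (1 / 2) k := by
  induction k with
  | zero => unfold hgd; simp
  | succ k ih =>
    rw [hgd_succ, ← mul_assoc, ← ih, pow_succ, ← add_assoc]
    have h := b_recQ (p + k)
    push_cast at h
    have h1 : ((p : ℚ) + k + 1) ≠ 0 := by positivity
    have h2 : (b (p + k + 1) : ℚ) = 3 * (3 * (p + k) + 1) * (3 * (p + k) + 2) * (b (p + k) : ℚ) / ((p : ℚ) + k + 1) ^ 2 := by
      rw [eq_div_iff (pow_ne_zero 2 h1)]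
      linear_combination h
    rw [h2]
    have h3 : (1 + (p : ℚ) + (k : ℚ)) ≠ 0 := by positivity
    field_simp
    ring

variable (p : ℕ) [hp : Fact p.Prime]

/-- the sum with argument `1/2` -/
def Gh (x y g : ZMod (p ^ 2)) : ZMod (p ^ 2) := HgR p (j3 p) (2 * j3 p) (j2 p) x y g

section
variable (h : ℕ) (h6 : p = 6 * h + 1) (hpos : 0 < h)
include h6 hpos

lemma F_eq : ∑ k ∈ Finset.range p, (b k : ZMod (p ^ 2)) * (j2 p * j3 p ^ 3) ^ k = Gh p 0 0 0 := by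
  have r1 : Red p (∑ k ∈ Finset.range p, (b k : ℚ) * (1 / 54) ^ k)
      (∑ k ∈ Finset.range p, (b k : ZMod (p ^ 2)) * (j2 p * j3 p ^ 3) ^ k) := by
    refine Red.sum _ ?_
    intro k _
    exact (Red.int p (b k)).mul ((((red_half p h h6 hpos).mul ((red_third p h h6 hpos).pow 3)).congr
      (by norm_num) rfl).pow k)
  have r2 : Red p (hs (1 / 3) (2 / 3) 1 (1 / 2) p) (Gh p 0 0 0) := by
    unfold Gh
    refine red_hs ?_ ?_ (red_one_c p h h6 hpos) (red_half p h h6 hpos)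
    · exact (red_third p h h6 hpos).congr rfl (by ring)
    · exact ((Red.nat p 2).mul (red_third p h h6 hpos)).congr (by push_cast; norm_num) (by push_cast; ring)
  refine r1.unique (r2.congr ?_ rfl)
  unfold hs
  exact Finset.sum_congr rfl (fun k _ => (bk_hg k).symm)

lemma F1_eq : ∑ k ∈ Finset.range p, (b (p + k) : ZMod (p ^ 2)) * (j2 p * j3 p ^ 3) ^ k = 6 * Gh p 1 1 (1 + 1) := by
  have r1 : Red p (∑ k ∈ Finset.range p, (b (p + k) : ℚ) * (1 / 54) ^ k)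
      (∑ k ∈ Finset.range p, (b (p + k) : ZMod (p ^ 2)) * (j2 p * j3 p ^ 3) ^ k) := by
    refine Red.sum _ ?_
    intro k _
    exact (Red.int p (b (p + k))).mul ((((red_half p h h6 hpos).mul ((red_third p h h6 hpos).pow 3)).congr
      (by norm_num) rfl).pow k)
  have r2 : Red p (∑ k ∈ Finset.range p, hgd (1 / 3 + p) (2 / 3 + p) (1 + p) (1 + p) (1 / 2) k)
      (Gh p 1 1 (1 + 1)) := by
    unfold Gh
    refine red_hgd_sum ?_ ?_ (red_one_add_p p h h6 hpos) (red_one_add_p p h h6 hpos) (red_half p h h6 hpos)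
    · exact ((red_third p h h6 hpos).add (Red.nat p p)).congr rfl (by ring)
    · exact (((Red.nat p 2).mul (red_third p h h6 hpos)).add (Red.nat p p)).congr
        (by push_cast; norm_num) (by push_cast; ring)
  have r3 := (Red.int p (b p)).mul r2
  rw [b_p p] at r3
  refine r1.unique (r3.congr ?_ rfl)
  rw [Finset.mul_sum]
  exact Finset.sum_congr rfl (fun k _ => (bpk_hg p k).symm)

variable (a b : ZMod (p ^ 2)) (ha : pH p (2 * h) = 6 * a) (hb : pH p (3 * h) = 6 * b)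
include ha hb

lemma Y1_val (haa : a * a = 0) (hab : a * b = 0) (hbb : b * b = 0) :
    16 ^ h * Gh p (-(j3 p)) (j3 p) 0 = Cc p h * (1 - 3 * b) := by
  have h2 := j2_spec p h h6 hpos
  have h3 := j3_spec p h h6 hpos
  have hpc := p_cast p h h6 hpos
  have r1 : Red p (hs (-((2 * h : ℕ) : ℚ)) (((2 * h : ℕ) : ℚ) + 1) 1 (1 / 2) p) (Gh p (-(j3 p)) (j3 p) 0) := by
    unfold Gh
    refine red_hs ?_ ?_ (red_one_c p h h6 hpos) (red_half p h h6 hpos)
    · refine (Red.nat p (2 * h)).neg.congr rfl ?_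
      rw [hpc]; push_cast
      linear_combination (2 * (h : ZMod (p ^ 2))) * h3
    · refine ((Red.nat p (2 * h)).add (Red.one p)).congr rfl ?_
      rw [hpc]; push_cast
      linear_combination (-(2 * (h : ZMod (p ^ 2)) + 1)) * h3
  have hcl := L_closed h p (by omega)
  have r2 := r1.mul ((Red.nat p 4).pow h)
  have r3 := ((Red.one p).neg.pow h).mul (Red.nat p ((2 * h).choose h))
  have e2 := (r2.congr (by push_cast at hcl ⊢; exact hcl) rfl).unique r3
  push_cast at e2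
  set E := Gh p (-(j3 p)) (j3 p) 0
  have K := relK p h h6 hpos a b ha hb haa hab hbb
  have p27 := pow27 p h h6 hpos a ha
  have hc : (((2 * h).choose h : ℕ) : ZMod (p ^ 2)) * (Fc p h * Fc p h) = Fc p (2 * h) := by
    have h1 := Nat.choose_mul_factorial_mul_factorial (show h ≤ 2 * h by omega)
    rw [show 2 * h - h = h by omega] at h1
    rw [Fc_eq, Fc_eq, ← h1]
    push_cast
    ring
  have uh := Fc_unit p h (by omega)
  -- C = 108^h c (1+2a+3b)
  have k1 : Cc p h = 108 ^ h * (((2 * h).choose h : ℕ) : ZMod (p ^ 2)) * (1 + 2 * a + 3 * b) := by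
    apply (uh.mul uh).mul_left_cancel
    linear_combination K - (108 ^ h * (1 + 2 * a + 3 * b)) * hc
  have g1 : (16 : ZMod (p ^ 2)) ^ h * (-27) ^ h = (-1) ^ h * (4 ^ h * 108 ^ h) := by
    rw [← mul_pow, ← mul_pow, ← mul_pow]; norm_num
  have g2 : (-1 : ZMod (p ^ 2)) ^ h * (-1) ^ h = 1 := by rw [← mul_pow]; simp
  rw [p27] at g1
  have m : (1 + 2 * a) * (1 - 2 * a) = 1 := by linear_combination (-4) * haa
  have k2 : 16 ^ h * E * (1 - 2 * a) = 108 ^ h * (((2 * h).choose h : ℕ) : ZMod (p ^ 2)) := by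
    linear_combination E * g1 + ((-1) ^ h * 108 ^ h) * e2 + (108 ^ h * (((2 * h).choose h : ℕ) : ZMod (p ^ 2))) * g2
  rw [k1]
  linear_combination (1 + 2 * a) * k2 - (16 ^ h * E) * m +
    (108 ^ h * (((2 * h).choose h : ℕ) : ZMod (p ^ 2))) * (6 * hab + 9 * hbb)

omit ha hb in
lemma Y2_val : 16 ^ h * Gh p (2 * j3 p) (-(2 * j3 p)) 0 = Cc p h := by
  have h2 := j2_spec p h h6 hpos
  have h3 := j3_spec p h h6 hpos
  have hpc := p_cast p h h6 hpos
  have r1 : Red p (hs (-((2 * (2 * h) : ℕ) : ℚ)) (((2 * (2 * h) : ℕ) : ℚ) + 1) 1 (1 / 2) p)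
      (Gh p (2 * j3 p) (-(2 * j3 p)) 0) := by
    unfold Gh
    rw [hs_swap]
    refine red_hs ?_ ?_ (red_one_c p h h6 hpos) (red_half p h h6 hpos)
    · refine ((Red.nat p (2 * (2 * h))).add (Red.one p)).congr rfl ?_
      rw [hpc]; push_cast
      linear_combination (-(4 * (h : ZMod (p ^ 2)) + 1)) * h3
    · refine (Red.nat p (2 * (2 * h))).neg.congr rfl ?_
      rw [hpc]; push_cast
      linear_combination (4 * (h : ZMod (p ^ 2))) * h3
  have hcl := L_closed (2 * h) p (by omega)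
  have r2 := r1.mul ((Red.nat p 4).pow (2 * h))
  have r3 := ((Red.one p).neg.pow (2 * h)).mul (Red.nat p ((2 * (2 * h)).choose (2 * h)))
  have e2 := (r2.congr (by push_cast at hcl ⊢; exact hcl) rfl).unique r3
  push_cast at e2
  have g1 : (16 : ZMod (p ^ 2)) ^ h = 4 ^ (2 * h) := by rw [pow_mul]; norm_num
  have g2 : (-1 : ZMod (p ^ 2)) ^ (2 * h) = 1 := by rw [pow_mul]; simp
  have g3 : Cc p h = (((2 * (2 * h)).choose (2 * h) : ℕ) : ZMod (p ^ 2)) := by
    unfold Cc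
    rw [show 4 * h = 2 * (2 * h) by ring]
  rw [g2, one_mul] at e2
  rw [g1, g3]
  linear_combination e2

lemma Y3_val (haa : a * a = 0) (hab : a * b = 0) (hbb : b * b = 0) :
    16 ^ h * Gh p (-(j3 p)) (-(j3 p)) (-(j3 p)) = Cc p h * (1 + 2 * a - b) := by
  have h2 := j2_spec p h h6 hpos
  have h3 := j3_spec p h h6 hpos
  have hpc := p_cast p h h6 hpos
  have r1 : Red p (hs (-((2 * h : ℕ) : ℚ)) (1 / 3 - ((2 * h : ℕ) : ℚ)) (2 / 3 - ((2 * h : ℕ) : ℚ)) (1 / 2) p)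
      (Gh p (-(j3 p)) (-(j3 p)) (-(j3 p))) := by
    unfold Gh
    refine red_hs ?_ ?_ ?_ (red_half p h h6 hpos)
    · refine (Red.nat p (2 * h)).neg.congr rfl ?_
      rw [hpc]; push_cast
      linear_combination (2 * (h : ZMod (p ^ 2))) * h3
    · refine ((red_third p h h6 hpos).sub (Red.nat p (2 * h))).congr rfl ?_
      rw [hpc]; push_cast
      linear_combination (2 * (h : ZMod (p ^ 2))) * h3
    · refine (((red_third p h h6 hpos).mul (Red.nat p 2)).sub (Red.nat p (2 * h))).congr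
        (by push_cast; ring) ?_
      rw [hpc]; push_cast
      linear_combination (1 + 2 * (h : ZMod (p ^ 2))) * h3
  have hcl := Y3_closed h p (by omega)
  have hcl' : hs (-((2 * h : ℕ) : ℚ)) (1 / 3 - ((2 * h : ℕ) : ℚ)) (2 / 3 - ((2 * h : ℕ) : ℚ)) (1 / 2) p *
      (2 ^ h * ∏ i ∈ Finset.range (2 * h), ((3 * i + 1 : ℕ) : ℚ)) =
      (∏ i ∈ Finset.range h, ((3 * i + 1 : ℕ) : ℚ)) * (3 ^ h * ∏ i ∈ Finset.range h, ((2 * i + 1 : ℕ) : ℚ)) := by
    have e3 : (3 / 2 : ℚ) ^ h * 2 ^ h = 3 ^ h := by rw [← mul_pow]; norm_num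
    push_cast at hcl ⊢
    rw [← e3]
    linear_combination (2 ^ h) * hcl
  have r2 := r1.mul (((Red.nat p 2).pow h).mul
    (Red.prod (Finset.range (2 * h)) (f := fun i => ((3 * i + 1 : ℕ) : ℚ))
    (g := fun i => ((3 * i + 1 : ℕ) : ZMod (p ^ 2))) (fun i _ => Red.nat p (3 * i + 1))))
  have r3 := (Red.prod (Finset.range h) (f := fun i => ((3 * i + 1 : ℕ) : ℚ))
    (g := fun i => ((3 * i + 1 : ℕ) : ZMod (p ^ 2))) (fun i _ => Red.nat p (3 * i + 1))).mul
    (((Red.nat p 3).pow h).mul (Red.prod (Finset.range h) (f := fun i => ((2 * i + 1 : ℕ) : ℚ))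
    (g := fun i => ((2 * i + 1 : ℕ) : ZMod (p ^ 2))) (fun i _ => Red.nat p (2 * i + 1))))
  have e2 := (r2.congr (by push_cast; push_cast at hcl'; exact hcl') rfl).unique (r3.congr (by push_cast; rfl) rfl)
  set E := Gh p (-(j3 p)) (-(j3 p)) (-(j3 p))
  have hA := prodA p h h6 hpos
  have hD := prodD p h h6 hpos
  rw [hb] at hA
  rw [ha] at hD
  have f1 : (1 - j3 p * (6 * a)) = 1 - 2 * a := by linear_combination (-2 * a) * h3
  have f2 : (1 + j3 p * (6 * b)) = 1 + 2 * b := by linear_combination (2 * b) * h3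
  rw [f2] at hA
  rw [f1] at hD
  have hO : (∏ j ∈ Finset.range h, ((2 * j + 1 : ℕ) : ZMod (p ^ 2))) * 2 ^ h * Fc p h = Fc p (2 * h) := by
    unfold Fc
    rw [prod_two, Finset.prod_mul_distrib]
    have e4 : (2 : ZMod (p ^ 2)) ^ h * ∏ j ∈ Finset.range h, ((j + 1 : ℕ) : ZMod (p ^ 2)) =
        ∏ j ∈ Finset.range h, ((2 * j + 1 + 1 : ℕ) : ZMod (p ^ 2)) := by
      conv_lhs => rw [← Finset.card_range h, ← Finset.prod_const, Finset.card_range, ← Finset.prod_mul_distrib]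
      refine Finset.prod_congr rfl ?_
      intro j _
      push_cast; ring
    rw [← e4]; ring
  rw [hD] at e2
  set A := ∏ i ∈ Finset.range h, ((3 * i + 1 : ℕ) : ZMod (p ^ 2))
  set O := ∏ i ∈ Finset.range h, ((2 * i + 1 : ℕ) : ZMod (p ^ 2))
  have K := relK p h h6 hpos a b ha hb haa hab hbb
  have p27 := pow27 p h h6 hpos a ha
  have uh := Fc_unit p h (by omega)
  have u2 := Fc_unit p (2 * h) (by omega)
  push_cast at e2
  -- E * 4^h 9^h (1-2a) Fc h^2 = (-9)^h (1+2b) Fc(2h)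
  have k1 : Fc p (2 * h) * (E * 36 ^ h * (1 - 2 * a) * Fc p h * Fc p h) =
      Fc p (2 * h) * ((-9) ^ h * (1 + 2 * b) * Fc p (2 * h)) := by
    have g1 : (36 : ZMod (p ^ 2)) ^ h = 2 ^ h * (2 ^ h * 9 ^ h) := by rw [← mul_pow, ← mul_pow]; norm_num
    have g2 : (-9 : ZMod (p ^ 2)) ^ h = 3 ^ h * (-3) ^ h := by rw [← mul_pow]; norm_num
    rw [g1, g2]
    linear_combination (2 ^ h * Fc p h * Fc p h) * e2 + (3 ^ h * O * 2 ^ h * Fc p h) * hA +
      (3 ^ h * (-3) ^ h * Fc p (2 * h) * (1 + 2 * b)) * hO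
  have k2 := u2.mul_left_cancel k1
  have k3 : (Fc p h * Fc p h) * (E * (36 ^ h * 108 ^ h) * (1 - 2 * a) * (1 + 2 * a + 3 * b)) =
      (Fc p h * Fc p h) * ((-9) ^ h * (1 + 2 * b) * Cc p h) := by
    linear_combination (108 ^ h * (1 + 2 * a + 3 * b)) * k2 - ((-9) ^ h * (1 + 2 * b)) * K
  have k4 := (uh.mul uh).mul_left_cancel k3
  have g3 : (36 : ZMod (p ^ 2)) ^ h * 108 ^ h = (-9) ^ h * (16 ^ h * (-27) ^ h) := by
    rw [← mul_pow, ← mul_pow, ← mul_pow]; norm_num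
  rw [g3, p27] at k4
  have u9 : IsUnit ((-9 : ZMod (p ^ 2)) ^ h) := by
    have : ((-9 : ZMod (p ^ 2)) ^ h) = (-1) ^ h * 3 ^ (2 * h) := by
      rw [pow_mul, ← mul_pow]; norm_num
    rw [this]
    exact (unit_neg_pow p h h6 hpos h).mul (unit_three_pow p h h6 hpos (2 * h))
  have k5 : E * 16 ^ h * ((1 - 2 * a) * (1 - 2 * a) * (1 + 2 * a + 3 * b)) = (1 + 2 * b) * Cc p h := by
    apply u9.mul_left_cancel
    linear_combination k4
  have m1 : (1 - 2 * a) * (1 - 2 * a) * (1 + 2 * a + 3 * b) * (1 + 2 * a - 3 * b) = 1 := by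
    linear_combination ((-8) + 16 * a * a - 36 * b * b) * haa + (36 * b) * hab + (-9) * hbb
  have m2 : (1 + 2 * b) * (1 + 2 * a - 3 * b) = 1 + 2 * a - b := by
    linear_combination 4 * hab - 6 * hbb
  linear_combination (1 + 2 * a - 3 * b) * k5 - (E * 16 ^ h) * m1 + (Cc p h) * m2

lemma Y4_val (haa : a * a = 0) (hab : a * b = 0) (hbb : b * b = 0) :
    16 ^ h * Gh p (-(j3 p)) (j3 p) (j3 p) = Cc p h * (1 - 2 * a - 3 * b) := by
  have h2 := j2_spec p h h6 hpos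
  have h3 := j3_spec p h h6 hpos
  have hpc := p_cast p h h6 hpos
  have r1 : Red p (hs (-((2 * h : ℕ) : ℚ)) (((2 * h : ℕ) : ℚ) + 1) (4 / 3 + ((2 * h : ℕ) : ℚ)) (1 / 2) p)
      (Gh p (-(j3 p)) (j3 p) (j3 p)) := by
    unfold Gh
    refine red_hs ?_ ?_ ?_ (red_half p h h6 hpos)
    · refine (Red.nat p (2 * h)).neg.congr rfl ?_
      rw [hpc]; push_cast
      linear_combination (2 * (h : ZMod (p ^ 2))) * h3
    · refine ((Red.nat p (2 * h)).add (Red.one p)).congr rfl ?_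
      rw [hpc]; push_cast
      linear_combination (-(2 * (h : ZMod (p ^ 2)) + 1)) * h3
    · refine (((red_third p h h6 hpos).mul (Red.nat p 4)).add (Red.nat p (2 * h))).congr
        (by push_cast; ring) ?_
      rw [hpc]; push_cast
      linear_combination (1 - 2 * (h : ZMod (p ^ 2))) * h3
  have hcl := Y4_closed h p (by omega)
  have hcl' : hs (-((2 * h : ℕ) : ℚ)) (((2 * h : ℕ) : ℚ) + 1) (4 / 3 + ((2 * h : ℕ) : ℚ)) (1 / 2) p *
      (∏ i ∈ Finset.range h, ((6 * (i + 1) + (6 * h + 1) : ℕ) : ℚ)) =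
      2 ^ h * ∏ i ∈ Finset.range h, ((3 * i + 2 : ℕ) : ℚ) := by
    have e1 : ∏ i ∈ Finset.range (2 * h), (6 * (i : ℚ) + 7) =
        (∏ i ∈ Finset.range h, (6 * (i : ℚ) + 7)) * ∏ i ∈ Finset.range h, ((6 * (i + 1) + (6 * h + 1) : ℕ) : ℚ) := by
      rw [two_mul, Finset.prod_range_add]
      congr 1
      refine Finset.prod_congr rfl ?_
      intro i _
      push_cast; ring
    rw [e1] at hcl
    have hne : ∏ i ∈ Finset.range h, (6 * (i : ℚ) + 7) ≠ 0 := by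
      rw [Finset.prod_ne_zero_iff]
      intro i _
      positivity
    apply mul_left_cancel₀ hne
    push_cast at hcl ⊢
    linear_combination hcl
  have r2 := r1.mul (Red.prod (Finset.range h) (f := fun i => ((6 * (i + 1) + (6 * h + 1) : ℕ) : ℚ))
    (g := fun i => ((6 * (i + 1) + (6 * h + 1) : ℕ) : ZMod (p ^ 2))) (fun i _ => Red.nat p _))
  have r3 := ((Red.nat p 2).pow h).mul (Red.prod (Finset.range h) (f := fun i => ((3 * i + 2 : ℕ) : ℚ))
    (g := fun i => ((3 * i + 2 : ℕ) : ZMod (p ^ 2))) (fun i _ => Red.nat p (3 * i + 2)))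
  have e2 := (r2.congr (by push_cast; push_cast at hcl'; exact hcl') rfl).unique (r3.congr (by push_cast; rfl) rfl)
  set E := Gh p (-(j3 p)) (j3 p) (j3 p)
  have hB := prodB p h h6 hpos
  have hF := prodF p h h6 hpos
  rw [ha, hb] at hB hF
  have f1 : (1 - j3 p * (j2 p * (6 * a - 6 * b))) = 1 - (a - b) := by
    linear_combination (-(a - b) * (3 * j3 p)) * h2 - (a - b) * h3
  have f3 : (1 + j2 p * j3 p * (6 * a + 6 * b)) = 1 + (a + b) := by
    linear_combination ((a + b) * (3 * j3 p)) * h2 + (a + b) * h3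
  rw [f1] at hB
  rw [f3] at hF
  have hF' : ∏ j ∈ Finset.range h, ((6 * (j + 1) + (6 * h + 1) : ℕ) : ZMod (p ^ 2)) = 6 ^ h * Fc p h * (1 + (a + b)) := by
    rw [← hF]
    refine Finset.prod_congr rfl ?_
    intro j _
    rw [← h6]
  rw [hF'] at e2
  set B := ∏ i ∈ Finset.range h, ((3 * i + 2 : ℕ) : ZMod (p ^ 2))
  have K := relK p h h6 hpos a b ha hb haa hab hbb
  have p27 := pow27 p h h6 hpos a ha
  have uh := Fc_unit p h (by omega)
  push_cast at e2
  have k2 : E * 24 ^ h * (1 + (a + b)) * Fc p h * Fc p h = (-6) ^ h * (1 - (a - b)) * Fc p (2 * h) := by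
    have g1 : (24 : ZMod (p ^ 2)) ^ h = 6 ^ h * 4 ^ h := by rw [← mul_pow]; norm_num
    have g2 : (-6 : ZMod (p ^ 2)) ^ h = 2 ^ h * (-3) ^ h := by rw [← mul_pow]; norm_num
    rw [g1, g2]
    linear_combination (4 ^ h * Fc p h) * e2 + (2 ^ h) * hB
  have k3 : (Fc p h * Fc p h) * (E * (24 ^ h * 108 ^ h) * (1 + (a + b)) * (1 + 2 * a + 3 * b)) =
      (Fc p h * Fc p h) * ((-6) ^ h * (1 - (a - b)) * Cc p h) := by
    linear_combination (108 ^ h * (1 + 2 * a + 3 * b)) * k2 - ((-6) ^ h * (1 - (a - b))) * K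
  have k4 := (uh.mul uh).mul_left_cancel k3
  have g3 : (24 : ZMod (p ^ 2)) ^ h * 108 ^ h = (-6) ^ h * (16 ^ h * (-27) ^ h) := by
    rw [← mul_pow, ← mul_pow, ← mul_pow]; norm_num
  rw [g3, p27] at k4
  have u6 : IsUnit ((-6 : ZMod (p ^ 2)) ^ h) := by
    have : ((-6 : ZMod (p ^ 2)) ^ h) = (-1) ^ h * (2 ^ h * 3 ^ h) := by
      rw [← mul_pow, ← mul_pow]; norm_num
    rw [this]
    exact (unit_neg_pow p h h6 hpos h).mul ((unit_two_pow p h h6 hpos h).mul (unit_three_pow p h h6 hpos h))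
  have k5 : E * 16 ^ h * ((1 - 2 * a) * (1 + (a + b)) * (1 + 2 * a + 3 * b)) = (1 - (a - b)) * Cc p h := by
    apply u6.mul_left_cancel
    linear_combination k4
  have m0 : (1 - 2 * a) * (1 + (a + b)) * (1 + 2 * a + 3 * b) = 1 + a + 4 * b := by
    linear_combination (-4 - 4 * a - 10 * b) * haa + (-3 - 6 * b) * hab + 3 * hbb
  have m1 : (1 + a + 4 * b) * (1 - a - 4 * b) = 1 := by
    linear_combination (-1) * haa - 8 * hab - 16 * hbb
  have m2 : (1 - (a - b)) * (1 - a - 4 * b) = 1 - 2 * a - 3 * b := by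
    linear_combination haa + 3 * hab - 4 * hbb
  rw [m0] at k5
  linear_combination (1 - a - 4 * b) * k5 - (E * 16 ^ h) * m1 + (Cc p h) * m2

end

section
variable (h : ℕ) (h6 : p = 6 * h + 1) (hpos : 0 < h)
include h6 hpos

lemma Gh_vals : ∃ a b : ZMod (p ^ 2), a * a = 0 ∧ a * b = 0 ∧ b * b = 0 ∧ pH p (2 * h) = 6 * a ∧ pH p (3 * h) = 6 * b ∧
    16 ^ h * Gh p 0 0 0 = Cc p h * (1 - 2 * b) ∧
    16 ^ h * Gh p 1 1 (1 + 1) = Cc p h * (1 - 12 * a - 5 * b) := by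
  obtain ⟨a, b, ha, hb, haa, hab, hbb⟩ := nil_exists p h h6 hpos
  refine ⟨a, b, haa, hab, hbb, ha, hb, ?_⟩
  have y1 := Y1_val p h h6 hpos a b ha hb haa hab hbb
  have y2 := Y2_val p h h6 hpos
  have y3 := Y3_val p h h6 hpos a b ha hb haa hab hbb
  have y4 := Y4_val p h h6 hpos a b ha hb haa hab hbb
  have h3 := j3_spec p h h6 hpos
  have u3 := three_unit p h h6 hpos
  obtain ⟨c0, ca, cb, cg, hc⟩ := HgR_affine p (j3 p) (2 * j3 p) (j2 p)
  unfold Gh at y1 y2 y3 y4 ⊢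
  rw [hc] at y1 y2 y3 y4 ⊢
  rw [hc]
  constructor
  · apply u3.mul_left_cancel
    linear_combination 2 * y1 + y2
  · apply u3.mul_left_cancel
    linear_combination (-1) * y1 + 4 * y2 - 9 * y3 + 9 * y4 -
      (3 * 16 ^ h * (p : ZMod (p ^ 2)) * (ca + cb + 2 * cg)) * h3

/-- the second block at `1/54` -/
lemma K_rel : ∑ k ∈ Finset.range p, (b (p + k) : ZMod (p ^ 2)) * (j2 p * j3 p ^ 3) ^ k =
    6 * 54 ^ (p - 1) * ∑ k ∈ Finset.range p, (b k : ZMod (p ^ 2)) * (j2 p * j3 p ^ 3) ^ k := by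
  rw [F_eq p h h6 hpos, F1_eq p h h6 hpos]
  obtain ⟨a, b, haa, hab, hbb, ha, hb, v0, v1⟩ := Gh_vals p h h6 hpos
  have p2 := pow2 p h h6 hpos b hb
  have p27 := pow27 p h h6 hpos a ha
  have e1 : (54 : ZMod (p ^ 2)) ^ (p - 1) = 1 - 12 * a - 3 * b := by
    have e2 : (54 : ZMod (p ^ 2)) ^ (p - 1) = 2 ^ (6 * h) * ((-27) ^ h) ^ 6 := by
      have : p - 1 = 6 * h := by omega
      rw [this, ← pow_mul, mul_comm h 6, ← mul_pow, pow_mul, pow_mul]
      norm_num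
    rw [e2, p2, p27]
    linear_combination (60 - 180 * b + (-160 * a) + 480 * (a * b) + 240 * a ^ 2 - 720 * (a ^ 2 * b) - 192 * a ^ 3 + 576 * (a ^ 3 * b)
      + 64 * a ^ 4 - 192 * (a ^ 4 * b)) * haa + 36 * hab
  have u16 : IsUnit ((16 : ZMod (p ^ 2)) ^ h) := by
    have : ((16 : ZMod (p ^ 2)) ^ h) = 2 ^ (4 * h) := by rw [pow_mul]; norm_num
    rw [this]; exact unit_two_pow p h h6 hpos (4 * h)
  rw [e1]
  apply u16.mul_left_cancel
  linear_combination 6 * v1 - (6 * (1 - 12 * a - 3 * b)) * v0 - (Cc p h) * (144 * hab + 36 * hbb)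

/-- square of the value at `1/54` -/
lemma F_sq : 256 ^ h * (∑ k ∈ Finset.range p, (b k : ZMod (p ^ 2)) * (j2 p * j3 p ^ 3) ^ k) ^ 2 *
    2 ^ (6 * h) = Cc p h ^ 2 * (2 ^ (4 * h) * (2 ^ (2 * h) * (1 - 4 * (j2 p * j3 p * pH p (3 * h))))) := by
  rw [F_eq p h h6 hpos]
  obtain ⟨a, b, haa, hab, hbb, ha, hb, v0, v1⟩ := Gh_vals p h h6 hpos
  have h2 := j2_spec p h h6 hpos
  have h3 := j3_spec p h h6 hpos
  have e1 : j2 p * j3 p * pH p (3 * h) = b := by
    rw [hb]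
    linear_combination (b * (3 * j3 p)) * h2 + b * h3
  have e2 : (256 : ZMod (p ^ 2)) ^ h = 16 ^ h * 16 ^ h := by rw [← mul_pow]; norm_num
  have e3 : (2 : ZMod (p ^ 2)) ^ (6 * h) = 2 ^ (4 * h) * 2 ^ (2 * h) := by rw [← pow_add]; congr 1; ring
  rw [e1, e2, e3]
  linear_combination (2 ^ (4 * h) * 2 ^ (2 * h) * (16 ^ h * Gh p 0 0 0 + Cc p h * (1 - 2 * b))) * v0 +
    (Cc p h ^ 2 * 2 ^ (4 * h) * 2 ^ (2 * h) * 4) * hbb

end

end Pool.Agent.Lib.Pd4325e
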