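import Mathlib
import Pool.Agent.Lib.Pd4325e.HalfVal

set_option autoImplicit false
set_option linter.unusedSectionVars false

namespace Pool.Agent.Lib.Pd4325e

open Pool.Agent.Lib.Pffaf6e

/-- Legendre polynomial at zero, general step -/
lemma L_step' (n K : ℕ) (hK : n + 2 < K) :
    hs (-((n + 2 : ℕ) : ℚ)) (((n + 2 : ℕ) : ℚ) + 1) 1 (1 / 2) K =
      (-((n + 1) / (n + 2))) * hs (-(n : ℚ)) ((n : ℚ) + 1) 1 (1 / 2) K := by
  have hden2 : ((n : ℚ) + 2) ≠ 0 := by positivity
  set ρ : ℚ := (-((n + 1) / (n + 2))) with hρ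
  set P : ℕ → ℚ := fun k => ((n + 2 - k) * (n + 1 - k)) / ((n + 1 + k) * (n + 2 + k)) with hP
  set Q : ℕ → ℚ := fun k => (-(4 * n + 6) * k / (n + 2)) / ((n + 1 + k) * (n + 2 + k)) with hQ
  have hh := tele (-((n + 2 : ℕ) : ℚ)) (((n + 2 : ℕ) : ℚ) + 1) 1 (1 / 2) ρ
    (fun k => hg (-(n : ℚ)) ((n : ℚ) + 1) 1 (1 / 2) k) P Q ?_ ?_ ?_ K
  · rw [hg_eq_zero (n + 2) _ _ _ K hK, mul_zero, Finset.sum_sub_distrib, ← Finset.mul_sum] at hh
    unfold hs
    linear_combination hh
  · intro k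
    positivity
  · intro k
    induction k with
    | zero =>
      simp only [hP, hg_zero]
      push_cast
      field_simp
      ring
    | succ k ih =>
      rw [hg_succ, hg_succ, ih]
      simp only [hP]
      push_cast
      field_simp
      ring
  · intro k
    simp only [hP, hQ, hρ]
    push_cast
    field_simp
    ring

lemma L_odd (m : ℕ) : ∀ K, 2 * m + 1 < K →
    hs (-((2 * m + 1 : ℕ) : ℚ)) (((2 * m + 1 : ℕ) : ℚ) + 1) 1 (1 / 2) K = 0 := by
  induction m with
  | zero =>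
    intro K hK
    have := hs_stable 1 (((1 : ℕ) : ℚ) + 1) 1 (1 / 2) K (by omega)
    rw [show 2 * 0 + 1 = 1 by norm_num, this]
    unfold hs
    simp [Finset.sum_range_succ, hg_zero, hg_succ]
    norm_num
  | succ m ih =>
    intro K hK
    rw [show 2 * (m + 1) + 1 = (2 * m + 1) + 2 by ring, L_step' (2 * m + 1) K (by omega), ih K (by omega), mul_zero]

variable (p : ℕ) [hp : Fact p.Prime]

lemma red_half' (h5 : 5 ≤ p) : Red p (1 / 2) (j2 p) := by
  have := Red.invNat (p := p) (not_dvd_of_lt p (i := 2) (by omega) (by omega))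
  exact this.congr (by norm_num) rfl

lemma red_third' (h5 : 5 ≤ p) : Red p (1 / 3) (j3 p) := by
  have := Red.invNat (p := p) (not_dvd_of_lt p (i := 3) (by omega) (by omega))
  exact this.congr (by norm_num) rfl

lemma two_j2 (h5 : 5 ≤ p) : 2 * j2 p = 1 := by
  have := mul_inv_nat p (not_dvd_of_lt p (i := 2) (by omega) (by omega))
  unfold j2
  push_cast at this ⊢
  exact this

lemma three_j3 (h5 : 5 ≤ p) : 3 * j3 p = 1 := by
  have := mul_inv_nat p (not_dvd_of_lt p (i := 3) (by omega) (by omega))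
  unfold j3
  push_cast at this ⊢
  exact this

/-- In the inert case the sum at `1/54` vanishes modulo `p`. -/
lemma F_inert (m : ℕ) (hm : p = 6 * m + 5) :
    ∃ c : ZMod (p ^ 2), ∑ k ∈ Finset.range p, (b k : ZMod (p ^ 2)) * (j2 p * j3 p ^ 3) ^ k = (p : ZMod (p ^ 2)) * c := by
  have h5 : 5 ≤ p := by omega
  have h2 := two_j2 p h5
  have h3 := three_j3 p h5
  have hone : Red p 1 (1 + (p : ZMod (p ^ 2)) * 0) := by
    rw [mul_zero, add_zero]; exact Red.one p
  have r1 : Red p (∑ k ∈ Finset.range p, (b k : ℚ) * (1 / 54) ^ k)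
      (∑ k ∈ Finset.range p, (b k : ZMod (p ^ 2)) * (j2 p * j3 p ^ 3) ^ k) := by
    refine Red.sum _ ?_
    intro k _
    exact (Red.int p (b k)).mul ((((red_half' p h5).mul ((red_third' p h5).pow 3)).congr
      (by norm_num) rfl).pow k)
  have r2 : Red p (hs (1 / 3) (2 / 3) 1 (1 / 2) p) (Gh p 0 0 0) := by
    unfold Gh
    refine red_hs ?_ ?_ hone (red_half' p h5)
    · exact (red_third' p h5).congr rfl (by ring)
    · exact ((Red.nat p 2).mul (red_third' p h5)).congr (by push_cast; norm_num) (by push_cast; ring)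
  have e1 : ∑ k ∈ Finset.range p, (b k : ZMod (p ^ 2)) * (j2 p * j3 p ^ 3) ^ k = Gh p 0 0 0 := by
    refine r1.unique (r2.congr ?_ rfl)
    unfold hs
    exact Finset.sum_congr rfl (fun k _ => (bk_hg k).symm)
  have r3 : Red p (hs (-((2 * m + 1 : ℕ) : ℚ)) (((2 * m + 1 : ℕ) : ℚ) + 1) 1 (1 / 2) p) (Gh p (j3 p) (-(j3 p)) 0) := by
    have hpc : (p : ZMod (p ^ 2)) = 6 * (m : ZMod (p ^ 2)) + 5 := by
      have := congrArg (fun z : ℕ => (z : ZMod (p ^ 2))) hm
      push_cast at this; exact this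
    unfold Gh
    rw [hs_swap]
    refine red_hs ?_ ?_ hone (red_half' p h5)
    · refine ((Red.nat p (2 * m + 1)).add (Red.one p)).congr rfl ?_
      rw [hpc]; push_cast
      linear_combination (-(2 * (m : ZMod (p ^ 2)) + 2)) * h3
    · refine (Red.nat p (2 * m + 1)).neg.congr rfl ?_
      rw [hpc]; push_cast
      linear_combination (2 * (m : ZMod (p ^ 2)) + 1) * h3
  rw [L_odd m p (by omega)] at r3
  have e2 := (Red.zero p).unique r3
  obtain ⟨c0, ca, cb, cg, hc⟩ := HgR_affine p (j3 p) (2 * j3 p) (j2 p)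
  rw [e1]
  unfold Gh at e2 ⊢
  rw [hc] at e2 ⊢
  refine ⟨-(j3 p * ca + -(j3 p) * cb), ?_⟩
  linear_combination -e2

end Pool.Agent.Lib.Pd4325e
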