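import Mathlib

set_option autoImplicit false
set_option linter.unusedSectionVars false

namespace Pool.Agent.Lib.Pd4325e

open PowerSeries

variable {R : Type*} [CommRing R]

/-- `∑ t_M X^{qM}` -/
noncomputable def ex (q : ℕ) (t : ℕ → R) : PowerSeries R :=
  PowerSeries.mk fun N => if q ∣ N then t (N / q) else 0

/-- coefficients of `(1 - a X)^{-(d+1)}` -/
def cc (a : R) (d M : ℕ) : R := a ^ M * (((M + d).choose d : ℕ) : R)

lemma coeff_ex_mul (q : ℕ) (hq : 0 < q) (t : ℕ → R) (m : ℕ) : coeff (q * m) (ex q t) = t m := by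
  unfold ex
  rw [coeff_mk, if_pos (Dvd.intro m rfl), Nat.mul_div_cancel_left m hq]

lemma coeff_ex_of_not (q : ℕ) (t : ℕ → R) (N : ℕ) (h : ¬ q ∣ N) : coeff N (ex q t) = 0 := by
  unfold ex
  rw [coeff_mk, if_neg h]

lemma mul_ex (q : ℕ) (hq : 0 < q) (a : R) (t t' : ℕ → R) (h0 : t' 0 = t 0)
    (hs : ∀ m, t' (m + 1) = t (m + 1) - a * t m) : (1 - C a * X ^ q) * ex q t = ex q t' := by
  ext N
  rw [sub_mul, one_mul, map_sub, mul_assoc, coeff_C_mul, coeff_X_pow_mul']
  by_cases hd : q ∣ N
  · obtain ⟨m, rfl⟩ := hd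
    rcases m with _ | m
    · rw [mul_zero, if_neg (by omega), mul_zero, sub_zero]
      have h1 := coeff_ex_mul q hq t 0
      have h2 := coeff_ex_mul q hq t' 0
      rw [mul_zero] at h1 h2
      rw [h1, h2, h0]
    · rw [if_pos (Nat.le_mul_of_pos_right q (by omega)), coeff_ex_mul q hq, coeff_ex_mul q hq]
      have : q * (m + 1) - q = q * m := by rw [mul_add, mul_one, Nat.add_sub_cancel]
      rw [this, coeff_ex_mul q hq, hs]
  · rw [coeff_ex_of_not q t N hd, coeff_ex_of_not q t' N hd]
    split_ifs with h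
    · have : ¬ q ∣ N - q := by
        intro h2
        apply hd
        have := (Nat.dvd_sub_self_right).mp h2
        rcases this with h3 | h3 <;> first | exact h3 | (have h9 : N = q := by omega
                                                         rw [h9])
      rw [coeff_ex_of_not q t _ this]; ring
    · ring

lemma shift_ex (q : ℕ) (hq : 0 < q) (t t' : ℕ → R) (h0 : t' 0 = 0)
    (hs : ∀ m, t' (m + 1) = t m) : X ^ q * ex q t = ex q t' := by
  ext N
  rw [coeff_X_pow_mul']
  by_cases hd : q ∣ N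
  · obtain ⟨m, rfl⟩ := hd
    rcases m with _ | m
    · rw [mul_zero, if_neg (by omega)]
      have h2 := coeff_ex_mul q hq t' 0
      rw [mul_zero] at h2
      rw [h2, h0]
    · rw [if_pos (Nat.le_mul_of_pos_right q (by omega)), coeff_ex_mul q hq]
      have : q * (m + 1) - q = q * m := by rw [mul_add, mul_one, Nat.add_sub_cancel]
      rw [this, coeff_ex_mul q hq, hs]
  · rw [coeff_ex_of_not q t' N hd]
    split_ifs with h
    · have : ¬ q ∣ N - q := by
        intro h2
        apply hd
        have := (Nat.dvd_sub_self_right).mp h2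
        rcases this with h3 | h3 <;> first | exact h3 | (have h9 : N = q := by omega
                                                         rw [h9])
      rw [coeff_ex_of_not q t _ this]
    · rfl

lemma ex_cc (q : ℕ) (hq : 0 < q) (a : R) (d : ℕ) : (1 - C a * X ^ q) ^ (d + 1) * ex q (cc a d) = 1 := by
  induction d with
  | zero =>
    rw [zero_add, pow_one, mul_ex q hq a (cc a 0) (fun m => if m = 0 then 1 else 0)]
    · ext N
      rw [coeff_one]
      by_cases hd : q ∣ N
      · obtain ⟨m, rfl⟩ := hd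
        rw [coeff_ex_mul q hq]
        by_cases hm : m = 0
        · rw [if_pos hm, if_pos (by rw [hm, mul_zero])]
        · rw [if_neg hm, if_neg (Nat.mul_ne_zero (by omega) hm)]
      · rw [coeff_ex_of_not q _ N hd, if_neg]
        intro h
        apply hd
        rw [h]; exact dvd_zero q
    · simp [cc]
    · intro m
      rw [if_neg (by omega)]
      unfold cc
      simp only [Nat.choose_zero_right, pow_succ]
      push_cast
      ring
  | succ d ih =>
    rw [pow_succ, mul_assoc, mul_ex q hq a (cc a (d + 1)) (cc a d), ih]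
    · simp [cc]
    · intro m
      unfold cc
      have h := Nat.choose_succ_succ (m + 1 + d) d
      rw [show m + 1 + (d + 1) = (m + 1 + d) + 1 by ring, show m + (d + 1) = m + 1 + d by ring, h, pow_succ]
      push_cast
      ring

/-- polynomial part -/
noncomputable def pp (p : ℕ) (g : ℕ → R) : PowerSeries R := ∑ r ∈ Finset.range p, C (g r) * X ^ r

lemma block_gf (p : ℕ) (hp : 0 < p) (g t : ℕ → R) :
    PowerSeries.mk (fun N => t (N / p) * g (N % p)) = pp p g * ex p t := by
  ext N
  unfold pp
  rw [coeff_mk, Finset.sum_mul, map_sum]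
  rw [Finset.sum_eq_single (N % p)]
  · rw [mul_assoc, coeff_C_mul, coeff_X_pow_mul', if_pos (Nat.mod_le N p)]
    have h1 : N - N % p = p * (N / p) := by
      have := Nat.div_add_mod N p
      omega
    rw [h1, coeff_ex_mul p hp, mul_comm]
  · intro r hr hne
    rw [Finset.mem_range] at hr
    rw [mul_assoc, coeff_C_mul, coeff_X_pow_mul']
    split_ifs with h
    · rw [coeff_ex_of_not, mul_zero]
      rintro ⟨m, hm⟩
      apply hne
      have : N = r + p * m := by omega
      rw [this, Nat.add_mul_mod_self_left, Nat.mod_eq_of_lt hr]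
    · rw [mul_zero]
  · intro h
    exfalso
    exact h (Finset.mem_range.mpr (Nat.mod_lt N hp))

lemma gf_zero (p : ℕ) (hp : 0 < p) (a : R) (F W φ : ℕ → R)
    (hφ : ∀ M r, r < p → φ (M * p + r) = a ^ M * (F r + M * W r)) :
    (1 - C a * X ^ p) ^ 2 * PowerSeries.mk φ = (1 - C a * X ^ p) * pp p F + C a * X ^ p * pp p W := by
  have h1 : PowerSeries.mk φ = pp p F * ex p (cc a 0) + pp p W * (ex p (cc a 1) - ex p (cc a 0)) := by
    rw [mul_sub, ← block_gf p hp, ← block_gf p hp, ← block_gf p hp]
    ext N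
    rw [map_add, map_sub, coeff_mk, coeff_mk, coeff_mk, coeff_mk]
    have h := hφ (N / p) (N % p) (Nat.mod_lt N hp)
    rw [mul_comm (N / p) p, Nat.div_add_mod] at h
    rw [h]
    unfold cc
    simp only [Nat.choose_zero_right, Nat.choose_one_right]
    push_cast
    ring
  have e0 := ex_cc p hp a 0
  have e1 := ex_cc p hp a 1
  rw [h1]
  rw [zero_add, pow_one] at e0
  set U : PowerSeries R := 1 - C a * X ^ p with hU
  linear_combination (U * pp p F - U * pp p W) * e0 + (pp p W) * e1 + (-(pp p W)) * hU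

lemma gf_one (p : ℕ) (hp : 0 < p) (a : R) (F W φ : ℕ → R) (h0 : ∀ r, r < p → φ (0 * p + r) = 0)
    (hφ : ∀ M r, r < p → φ ((M + 1) * p + r) =
      6 * (a ^ M * (((M + 3).choose 3 : ℕ) : R)) * (F r + ((M : R) + 1) * W r)) :
    (1 - C a * X ^ p) ^ 5 * PowerSeries.mk φ =
      6 * X ^ p * ((1 - C a * X ^ p) * pp p F + (1 + 3 * (C a * X ^ p)) * pp p W) := by
  set s3 : ℕ → R := fun M => if M = 0 then 0 else cc a 3 (M - 1) with hs3
  set s4 : ℕ → R := fun M => if M = 0 then 0 else cc a 4 (M - 1) with hs4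
  have k3 : X ^ p * ex p (cc a 3) = ex p s3 := shift_ex p hp _ _ (by simp [hs3]) (by intro m; simp [hs3])
  have k4 : X ^ p * ex p (cc a 4) = ex p s4 := shift_ex p hp _ _ (by simp [hs4]) (by intro m; simp [hs4])
  have h1 : PowerSeries.mk φ = 6 * (pp p F * ex p s3 + (4 * (pp p W * ex p s4) - 3 * (pp p W * ex p s3))) := by
    rw [← block_gf p hp, ← block_gf p hp, ← block_gf p hp]
    ext N
    have hmul : ∀ (n : ℕ) (ψ : PowerSeries R), coeff N ((n : PowerSeries R) * ψ) = (n : R) * coeff N ψ := by
      intro n ψ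
      rw [← map_natCast (C : R →+* PowerSeries R) n, coeff_C_mul]
    have h6 := hmul 6
    have h4 := hmul 4
    have h3 := hmul 3
    push_cast at h6 h4 h3
    rw [h6, map_add, map_sub, h4, h3, coeff_mk, coeff_mk, coeff_mk, coeff_mk]
    rcases Nat.eq_zero_or_pos (N / p) with hz | hz
    · have h := h0 (N % p) (Nat.mod_lt N hp)
      rw [← hz, mul_comm (N / p) p, Nat.div_add_mod] at h
      rw [h, hz]
      simp [hs3, hs4]
    · obtain ⟨m, hm⟩ : ∃ m, N / p = m + 1 := ⟨N / p - 1, by omega⟩
      have h := hφ m (N % p) (Nat.mod_lt N hp)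
      rw [← hm, mul_comm (N / p) p, Nat.div_add_mod] at h
      rw [h, hm]
      simp only [hs3, hs4, Nat.add_sub_cancel, Nat.succ_ne_zero, if_false]
      unfold cc
      have h5 := Nat.add_one_mul_choose_eq (m + 3) 3
      have h6 := congrArg (fun z : ℕ => (z : R)) h5
      push_cast at h6
      rw [show m + 3 + 1 = m + 4 by ring] at h6
      have h7 : ((m : R) + 4) * (((m + 3).choose 3 : ℕ) : R) = (((m + 4).choose 4 : ℕ) : R) * 4 := by
        linear_combination h6
      linear_combination (6 * a ^ m * W (N % p)) * h7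
  have e3 := ex_cc p hp a 3
  have e4 := ex_cc p hp a 4
  rw [h1, ← k3, ← k4]
  set U : PowerSeries R := 1 - C a * X ^ p with hU
  set E3 := ex p (cc a 3)
  set E4 := ex p (cc a 4)
  have e3' : U ^ 4 * E3 = 1 := e3
  have e4' : U ^ 5 * E4 = 1 := e4
  linear_combination (6 * X ^ p * U * pp p F - 18 * X ^ p * U * pp p W) * e3' + (24 * X ^ p * pp p W) * e4' -
    (18 * X ^ p * pp p W) * hU

end Pool.Agent.Lib.Pd4325e
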