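import Mathlib
import Pool.Agent.Lib.Pd4325e.Vals

set_option autoImplicit false
set_option linter.unusedSectionVars false

namespace Pool.Agent.Lib.Pd4325e

open Pool.Agent.Lib.Pffaf6e

variable (p : ℕ) [hp : Fact p.Prime]

lemma sums_exists (h5 : 5 ≤ p) : ∃ s : ZMod (p ^ 2),
    (∀ M : ℕ, uS p p (M * p) = (TB (M * p) 0 : ZMod (p ^ 2)) * (1 + (M : ZMod (p ^ 2)) * ((p : ZMod (p ^ 2)) * s))) ∧
    (∀ M : ℕ, uS1 p (M * p) = (TB (M * p) p : ZMod (p ^ 2)) * (1 + ((M : ZMod (p ^ 2)) - 1) * ((p : ZMod (p ^ 2)) * s))) ∧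
    (∀ M : ℕ, 2 * uA p p (M * p) = (TA (M * p) 0 : ZMod (p ^ 2)) * (2 + (M : ZMod (p ^ 2)) * ((p : ZMod (p ^ 2)) * s))) := by
  have hex : ∀ k : ℕ, ∃ t : ZMod (p ^ 2), 1 ≤ k → k < p →
    ((∀ M j : ℕ, (TB (M * p) (j * p + k) : ZMod (p ^ 2)) =
      ((M : ZMod (p ^ 2)) * (p : ZMod (p ^ 2)) - (j : ZMod (p ^ 2)) * (p : ZMod (p ^ 2))) *
        (TB (M * p) (j * p) : ZMod (p ^ 2)) * t) ∧
    (∀ M : ℕ, 2 * (TA (M * p) k : ZMod (p ^ 2)) =
      ((M : ZMod (p ^ 2)) * (p : ZMod (p ^ 2))) * (TA (M * p) 0 : ZMod (p ^ 2)) * t)) := by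
    intro k
    by_cases hk : 1 ≤ k ∧ k < p
    · obtain ⟨t, ht⟩ := tau_exists p h5 k hk.1 hk.2
      exact ⟨t, fun _ _ => ht⟩
    · exact ⟨0, fun h1 h2 => absurd ⟨h1, h2⟩ hk⟩
  choose t ht using hex
  have hr : Finset.range p = insert 0 (Finset.Ico 1 p) := by
    ext k; simp only [Finset.mem_range, Finset.mem_insert, Finset.mem_Ico]; omega
  have hni : (0 : ℕ) ∉ Finset.Ico 1 p := by simp
  refine ⟨∑ k ∈ Finset.Ico 1 p, t k, ?_, ?_, ?_⟩
  · intro M
    unfold uS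
    rw [hr, Finset.sum_insert hni]
    have : ∑ k ∈ Finset.Ico 1 p, (TB (M * p) k : ZMod (p ^ 2)) =
        ∑ k ∈ Finset.Ico 1 p, ((M : ZMod (p ^ 2)) * (p : ZMod (p ^ 2)) * (TB (M * p) 0 : ZMod (p ^ 2))) * t k := by
      refine Finset.sum_congr rfl ?_
      intro k hk
      rw [Finset.mem_Ico] at hk
      have := (ht k hk.1 hk.2).1 M 0
      rw [zero_mul, zero_add] at this
      rw [this]; push_cast; ring
    rw [this, ← Finset.mul_sum]
    ring
  · intro M
    unfold uS1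
    rw [hr, Finset.sum_insert hni, add_zero]
    have : ∑ k ∈ Finset.Ico 1 p, (TB (M * p) (p + k) : ZMod (p ^ 2)) =
        ∑ k ∈ Finset.Ico 1 p, (((M : ZMod (p ^ 2)) - 1) * (p : ZMod (p ^ 2)) * (TB (M * p) p : ZMod (p ^ 2))) * t k := by
      refine Finset.sum_congr rfl ?_
      intro k hk
      rw [Finset.mem_Ico] at hk
      have := (ht k hk.1 hk.2).1 M 1
      rw [one_mul] at this
      rw [this]; push_cast; ring
    rw [this, ← Finset.mul_sum]
    ring
  · intro M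
    unfold uA
    rw [hr, Finset.sum_insert hni, mul_add, Finset.mul_sum]
    have : ∑ k ∈ Finset.Ico 1 p, 2 * (TA (M * p) k : ZMod (p ^ 2)) =
        ∑ k ∈ Finset.Ico 1 p, ((M : ZMod (p ^ 2)) * (p : ZMod (p ^ 2)) * (TA (M * p) 0 : ZMod (p ^ 2))) * t k := by
      refine Finset.sum_congr rfl ?_
      intro k hk
      rw [Finset.mem_Ico] at hk
      exact (ht k hk.1 hk.2).2 M
    rw [this, ← Finset.mul_sum]
    ring

lemma one_add_pow' (q : ZMod (p ^ 2)) (hq : q * q = 0) (M : ℕ) : (1 + q) ^ M = 1 + (M : ZMod (p ^ 2)) * q := by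
  induction M with
  | zero => simp
  | succ M ih => rw [pow_succ (1 + q) M, ih]; push_cast; linear_combination (M : ZMod (p ^ 2)) * hq

lemma q_exists (h5 : 5 ≤ p) : ∃ c : ZMod (p ^ 2), (2 : ZMod (p ^ 2)) ^ p = 2 * (1 + (p : ZMod (p ^ 2)) * c) := by
  have h1 : red p ((2 : ZMod (p ^ 2)) ^ (p - 1)) = red p 1 := by
    rw [map_pow, map_one, map_ofNat]
    apply ZMod.pow_card_sub_one_eq_one
    have : ((2 : ℕ) : ZMod p) ≠ 0 := by
      rw [Ne, ZMod.natCast_eq_zero_iff]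
      exact not_dvd_of_lt p (by omega) (by omega)
    push_cast at this
    exact this
  obtain ⟨c, hc⟩ := (red_eq_iff p _ _).mp h1
  refine ⟨c, ?_⟩
  rw [← hc]
  obtain ⟨m, hm⟩ : ∃ m, p = m + 1 := ⟨p - 1, by omega⟩
  have : (2 : ZMod (p ^ 2)) ^ p = 2 ^ (p - 1 + 1) := by congr 1; omega
  rw [this, pow_succ]; ring

/-- The values at multiples of `p`. -/
lemma values (h7 : 7 ≤ p) :
    (∀ M : ℕ, uS p p (M * p) = (-4) ^ M) ∧
    (∀ M : ℕ, uS1 p ((M + 1) * p) = 6 * ((-4) ^ M * (((M + 3).choose 3 : ℕ) : ZMod (p ^ 2)))) ∧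
    uS1 p (0 * p) = 0 ∧
    (∀ M : ℕ, uA p p (M * p) = 2 ^ M) := by
  have hodd : Odd p := hp.out.odd_of_ne_two (by omega)
  obtain ⟨s, hS, hS1, hA⟩ := sums_exists p (by omega)
  obtain ⟨c, hc⟩ := q_exists p (by omega)
  have h3 := psq p
  have u2 := two_unit' p (by omega)
  set e := (p : ZMod (p ^ 2)) * s with he
  set q := (p : ZMod (p ^ 2)) * c with hq
  have hqq : q * q = 0 := by rw [hq]; linear_combination (c ^ 2) * h3
  have hqe : q * e = 0 := by rw [hq, he]; linear_combination (c * s) * h3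
  have hee : e * e = 0 := by rw [he]; linear_combination (s ^ 2) * h3
  have h4p : (-4 : ZMod (p ^ 2)) ^ p = -4 * (1 + 2 * q) := by
    have : (-4 : ZMod (p ^ 2)) ^ p = -(2 ^ p * 2 ^ p) := by
      rw [← mul_pow, hodd.neg_pow]; norm_num
    rw [this, hc]
    linear_combination (-4) * hqq
  have tb0 : ∀ M : ℕ, (TB (M * p) 0 : ZMod (p ^ 2)) = (-4) ^ M * (1 + (M : ZMod (p ^ 2)) * (2 * q)) := by
    intro M
    have h1 : (TB (M * p) 0 : ZMod (p ^ 2)) = ((-4 : ZMod (p ^ 2)) ^ p) ^ M := by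
      unfold TB
      rw [b_zero, ← pow_mul, mul_comm p M]
      simp
    rw [h1, h4p, mul_pow, one_add_pow' p (2 * q) (by linear_combination 4 * hqq)]
  have ta0 : ∀ M : ℕ, (TA (M * p) 0 : ZMod (p ^ 2)) = 2 ^ M * (1 + (M : ZMod (p ^ 2)) * q) := by
    intro M
    have h1 : (TA (M * p) 0 : ZMod (p ^ 2)) = ((2 : ZMod (p ^ 2)) ^ p) ^ M := by
      unfold TA
      rw [b_zero, ← pow_mul, mul_comm p M]
      simp
    rw [h1, hc, mul_pow, one_add_pow' p q hqq]
  -- the value of e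
  have f1 : uS p p (1 * p) = (f p : ZMod (p ^ 2)) - 6 := by
    have h1 := congrArg (fun z : ℤ => (z : ZMod (p ^ 2))) (f_eq (n := p) (M := p + 1) (by omega))
    simp only [Int.cast_sum] at h1
    rw [Finset.sum_range_succ] at h1
    have h2 : (TB p p : ZMod (p ^ 2)) = 6 := by
      unfold TB
      rw [Nat.sub_self, show p + 2 * p = 3 * p by ring, Nat.choose_self]
      push_cast
      rw [b_p]; ring
    rw [h2] at h1
    unfold uS
    rw [one_mul]
    linear_combination h1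
  have f2 : uA p p (1 * p) = (f p : ZMod (p ^ 2)) := by
    have h1 := congrArg (fun z : ℤ => (z : ZMod (p ^ 2))) (fA_eq (n := p) (M := p + 1) (by omega))
    simp only [Int.cast_sum] at h1
    rw [Finset.sum_range_succ] at h1
    have h2 : (TA p p : ZMod (p ^ 2)) = 0 := by
      rw [TA_zero (by omega)]; push_cast; rfl
    rw [h2] at h1
    unfold uA
    rw [one_mul, f_eq_fA]
    linear_combination h1
  have g1 := hS 1
  have g2 := hA 1
  rw [f1, tb0] at g1
  rw [f2, ta0] at g2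
  push_cast at g1 g2
  have hE : e = -2 * q := by
    have u10 : IsUnit (10 : ZMod (p ^ 2)) := by
      have h5 := isUnit_nat p (not_dvd_of_lt p (i := 5) (by omega) (by omega))
      have : (10 : ZMod (p ^ 2)) = 2 * ((5 : ℕ) : ZMod (p ^ 2)) := by push_cast; norm_num
      rw [this]
      exact u2.mul h5
    apply u10.mul_left_cancel
    linear_combination 2 * g1 - g2 - 18 * hqe
  refine ⟨?_, ?_, ?_, ?_⟩
  · intro M
    rw [hS, tb0, hE]
    linear_combination (-4 * M ^ 2 * (-4) ^ M : ZMod (p ^ 2)) * hqq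
  · intro M
    rw [hS1]
    have tb1 : (TB ((M + 1) * p) p : ZMod (p ^ 2)) =
        6 * ((-4) ^ M * (1 + (M : ZMod (p ^ 2)) * (2 * q)) * (((M + 3).choose 3 : ℕ) : ZMod (p ^ 2))) := by
      have h1 := choose_pp p (M + 3) 3
      have h2 : ((-4 : ZMod (p ^ 2)) ^ p) ^ M = (-4) ^ M * (1 + (M : ZMod (p ^ 2)) * (2 * q)) := by
        rw [h4p, mul_pow, one_add_pow' p (2 * q) (by linear_combination 4 * hqq)]
      unfold TB
      rw [show (M + 1) * p - p = p * M by rw [add_mul, one_mul, Nat.add_sub_cancel, mul_comm],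
        show (M + 1) * p + 2 * p = (M + 3) * p by ring]
      push_cast
      rw [h1, b_p, pow_mul, h2]
      ring
    rw [tb1, hE]
    push_cast
    linear_combination (-4 * M ^ 2 * (-4) ^ M * (6 * (((M + 3).choose 3 : ℕ) : ZMod (p ^ 2))) : ZMod (p ^ 2)) * hqq
  · rw [hS1]
    have : (TB (0 * p) p : ZMod (p ^ 2)) = 0 := by
      rw [TB_zero (by omega)]; push_cast; rfl
    rw [this, zero_mul]
  · intro M
    have h1 := hA M
    rw [ta0, hE] at h1
    apply u2.mul_left_cancel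
    rw [h1]
    linear_combination (-2 * M ^ 2 * 2 ^ M : ZMod (p ^ 2)) * hqq

end Pool.Agent.Lib.Pd4325e
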