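import Mathlib
import Pool.Agent.Lib.Pd4325e.Vals2
import Pool.Agent.Lib.Pd4325e.GF

set_option autoImplicit false
set_option linter.unusedSectionVars false

namespace Pool.Agent.Lib.Pd4325e

open Pool.Agent.Lib.Pffaf6e

section gen
variable {R : Type*} [CommRing R]
open PowerSeries

lemma term_B (N K : ℕ) : coeff N ((C ((b K : ℤ) : R)) * X ^ K * ex 1 (cc (-4) (3 * K))) = ((TB N K : ℤ) : R) := by
  rw [mul_assoc, coeff_C_mul, coeff_X_pow_mul']
  split_ifs with h
  · have h1 := coeff_ex_mul 1 one_pos (cc (-4 : R) (3 * K)) (N - K)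
    rw [one_mul] at h1
    rw [h1]
    unfold cc TB
    rw [show N - K + 3 * K = N + 2 * K by omega]
    push_cast; ring
  · rw [TB_zero (by omega)]; push_cast; ring

lemma term_A (N K : ℕ) : coeff N ((C ((b K : ℤ) : R)) * X ^ (2 * K) * ex 1 (cc 2 (3 * K))) = ((TA N K : ℤ) : R) := by
  rw [mul_assoc, coeff_C_mul, coeff_X_pow_mul']
  split_ifs with h
  · have h1 := coeff_ex_mul 1 one_pos (cc (2 : R) (3 * K)) (N - 2 * K)
    rw [one_mul] at h1
    rw [h1]
    unfold cc TA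
    rw [show N - 2 * K + 3 * K = N + K by omega]
    push_cast; ring
  · rw [TA_zero (by omega)]; push_cast; ring

lemma clear_gf (a : R) (c : ℕ → R) (j e s : ℕ) (p : ℕ) :
    (1 - C a * X) ^ (3 * j + 3 * p - 2) * ∑ k ∈ Finset.range p, C (c k) * X ^ (s + e * k) * ex 1 (cc a (3 * (j + k))) =
      X ^ s * ∑ k ∈ Finset.range p, C (c k) * X ^ (e * k) * (1 - C a * X) ^ (3 * (p - 1 - k)) := by
  rw [Finset.mul_sum, Finset.mul_sum]
  refine Finset.sum_congr rfl ?_
  intro k hk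
  rw [Finset.mem_range] at hk
  have h1 := ex_cc 1 one_pos a (3 * (j + k))
  rw [pow_one] at h1
  rw [show 3 * j + 3 * p - 2 = 3 * (p - 1 - k) + (3 * (j + k) + 1) by omega, pow_add, pow_add]
  linear_combination ((1 - C a * X) ^ (3 * (p - 1 - k)) * C (c k) * X ^ s * X ^ (e * k)) * h1

end gen

section poly
variable {R : Type*} [CommRing R]
open Polynomial

/-- polynomial analogue of `pp` -/
noncomputable def ppP (p : ℕ) (g : ℕ → R) : R[X] := ∑ r ∈ Finset.range p, C (g r) * X ^ r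

/-- numerators -/
noncomputable def nnP (p e : ℕ) (a : R) (c : ℕ → R) : R[X] :=
  ∑ k ∈ Finset.range p, C (c k) * X ^ (e * k) * (1 - C a * X) ^ (3 * (p - 1 - k))

lemma coe_ppP (p : ℕ) (g : ℕ → R) : (coeToPowerSeries.ringHom (ppP p g)) = pp p g := by
  unfold ppP pp
  rw [map_sum]
  refine Finset.sum_congr rfl ?_
  intro r _
  rw [map_mul, map_pow]
  simp

lemma coe_nnP (p e : ℕ) (a : R) (c : ℕ → R) : (coeToPowerSeries.ringHom (nnP p e a c)) =
    ∑ k ∈ Finset.range p, PowerSeries.C (c k) * PowerSeries.X ^ (e * k) *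
      (1 - PowerSeries.C a * PowerSeries.X) ^ (3 * (p - 1 - k)) := by
  unfold nnP
  rw [map_sum]
  refine Finset.sum_congr rfl ?_
  intro r _
  rw [map_mul, map_mul, map_pow, map_pow, map_sub, map_mul, map_one]
  simp

lemma rho_inj {P Q : R[X]} (h : coeToPowerSeries.ringHom P = coeToPowerSeries.ringHom Q) : P = Q := by
  simp only [coeToPowerSeries.ringHom_apply] at h
  exact Polynomial.coe_injective R h

end poly

variable (p : ℕ) [hp : Fact p.Prime]

/-- The transformation congruences modulo `p^2`, evaluated at an arbitrary point. -/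
theorem trans (h7 : 7 ≤ p) {R' : Type*} [CommRing R'] (φ : ZMod (p ^ 2) →+* R') (x : R') :
    ∃ y w : R', (∃ c : R', w = (p : R') * c) ∧
    (1 + 4 * x ^ p) ^ 2 * (∑ k ∈ Finset.range p, ((b k : ℤ) : R') * x ^ k * (1 + 4 * x) ^ (3 * (p - 1 - k))) =
      (1 + 4 * x) ^ (3 * p - 2) * ((1 + 4 * x ^ p) * y - 4 * x ^ p * w) ∧
    x ^ p * (1 + 4 * x ^ p) ^ 5 *
        (∑ k ∈ Finset.range p, ((b (p + k) : ℤ) : R') * x ^ k * (1 + 4 * x) ^ (3 * (p - 1 - k))) =
      6 * x ^ p * (1 + 4 * x) ^ (6 * p - 2) * ((1 + 4 * x ^ p) * y + (1 - 12 * x ^ p) * w) ∧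
    (1 - 2 * x ^ p) ^ 2 * (∑ k ∈ Finset.range p, ((b k : ℤ) : R') * x ^ (2 * k) * (1 - 2 * x) ^ (3 * (p - 1 - k))) =
      (1 - 2 * x) ^ (3 * p - 2) * ((1 - 2 * x ^ p) * y + 2 * x ^ p * w) := by
  have hpos := hp.out.pos
  have hex : ∀ r : ℕ, ∃ w : ZMod (p ^ 2), r < p → ((∃ c : ZMod (p ^ 2), w = (p : ZMod (p ^ 2)) * c) ∧
    ∀ u : ℕ → ZMod (p ^ 2), IsRec p u → ∀ M : ℕ, u (M * p + r) = u (M * p) * ((f r : ZMod (p ^ 2)) + (M : ZMod (p ^ 2)) * w)) := by
    intro r
    by_cases hr : r < p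
    · obtain ⟨w, hw⟩ := block_exists p (by omega) r hr
      exact ⟨w, fun _ => hw⟩
    · exact ⟨0, fun h => absurd h hr⟩
  choose W hW using hex
  have hc : ∀ r, ∃ c, r < p → W r = (p : ZMod (p ^ 2)) * c := by
    intro r
    by_cases hr : r < p
    · obtain ⟨c, hc⟩ := (hW r hr).1
      exact ⟨c, fun _ => hc⟩
    · exact ⟨0, fun h => absurd h hr⟩
  choose cW hcW using hc
  obtain ⟨v0, v1, v1', vA⟩ := values p h7
  set F : ℕ → ZMod (p ^ 2) := fun r => (f r : ZMod (p ^ 2)) with hF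
  have g0 := gf_zero p hpos (-4 : ZMod (p ^ 2)) F W (uS p p) (by
    intro M r hr
    rw [(hW r hr).2 _ (uS0_isRec p (by omega)) M, v0])
  have g1 := gf_one p hpos (-4 : ZMod (p ^ 2)) F W (uS1 p) (by
    intro r hr
    rw [(hW r hr).2 _ (uS1_isRec p (by omega)) 0, v1', zero_mul]) (by
    intro M r hr
    rw [(hW r hr).2 _ (uS1_isRec p (by omega)) (M + 1), v1]
    push_cast; ring)
  have gA := gf_zero p hpos (2 : ZMod (p ^ 2)) F W (uA p p) (by
    intro M r hr
    rw [(hW r hr).2 _ (uA0_isRec p (by omega)) M, vA])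
  have m0 : PowerSeries.mk (uS p p) = ∑ k ∈ Finset.range p,
      PowerSeries.C ((b k : ZMod (p ^ 2))) * PowerSeries.X ^ (0 + 1 * k) * ex 1 (cc (-4) (3 * (0 + k))) := by
    ext N
    rw [PowerSeries.coeff_mk, map_sum]
    unfold uS
    refine Finset.sum_congr rfl ?_
    intro k _
    rw [zero_add, zero_add, one_mul, term_B]
  have m1 : PowerSeries.mk (uS1 p) = ∑ k ∈ Finset.range p,
      PowerSeries.C ((b (p + k) : ZMod (p ^ 2))) * PowerSeries.X ^ (p + 1 * k) * ex 1 (cc (-4) (3 * (p + k))) := by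
    ext N
    rw [PowerSeries.coeff_mk, map_sum]
    unfold uS1
    refine Finset.sum_congr rfl ?_
    intro k _
    rw [one_mul, term_B]
  have mA : PowerSeries.mk (uA p p) = ∑ k ∈ Finset.range p,
      PowerSeries.C ((b k : ZMod (p ^ 2))) * PowerSeries.X ^ (0 + 2 * k) * ex 1 (cc 2 (3 * (0 + k))) := by
    ext N
    rw [PowerSeries.coeff_mk, map_sum]
    unfold uA
    refine Finset.sum_congr rfl ?_
    intro k _
    rw [zero_add, zero_add, term_A]
  have c0 := clear_gf (-4 : ZMod (p ^ 2)) (fun k => (b k : ZMod (p ^ 2))) 0 1 0 p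
  have c1 := clear_gf (-4 : ZMod (p ^ 2)) (fun k => (b (p + k) : ZMod (p ^ 2))) p 1 p p
  have cA := clear_gf (2 : ZMod (p ^ 2)) (fun k => (b k : ZMod (p ^ 2))) 0 2 0 p
  rw [← m0] at c0
  rw [← m1] at c1
  rw [← mA] at cA
  rw [← coe_nnP] at c0 c1 cA
  rw [← coe_ppP, ← coe_ppP] at g0 g1 gA
  set ρ := (Polynomial.coeToPowerSeries.ringHom : Polynomial (ZMod (p ^ 2)) →+* PowerSeries (ZMod (p ^ 2))) with hρ
  have hρX : ρ Polynomial.X = PowerSeries.X := by simp [hρ]
  have hρC : ∀ a, ρ (Polynomial.C a) = PowerSeries.C a := by intro a; simp [hρ]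
  -- polynomial identities
  have P0 : (1 - Polynomial.C (-4) * Polynomial.X ^ p) ^ 2 * nnP p 1 (-4) (fun k => (b k : ZMod (p ^ 2))) =
      (1 - Polynomial.C (-4) * Polynomial.X) ^ (3 * 0 + 3 * p - 2) *
        ((1 - Polynomial.C (-4) * Polynomial.X ^ p) * ppP p F + Polynomial.C (-4) * Polynomial.X ^ p * ppP p W) := by
    apply rho_inj
    rw [← hρ]
    simp only [map_mul, map_pow, map_sub, map_add, map_one, hρX, hρC]
    rw [← g0]
    linear_combination (-(1 - PowerSeries.C (-4) * PowerSeries.X ^ p) ^ 2) * c0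
  have PA : (1 - Polynomial.C 2 * Polynomial.X ^ p) ^ 2 * nnP p 2 2 (fun k => (b k : ZMod (p ^ 2))) =
      (1 - Polynomial.C 2 * Polynomial.X) ^ (3 * 0 + 3 * p - 2) *
        ((1 - Polynomial.C 2 * Polynomial.X ^ p) * ppP p F + Polynomial.C 2 * Polynomial.X ^ p * ppP p W) := by
    apply rho_inj
    rw [← hρ]
    simp only [map_mul, map_pow, map_sub, map_add, map_one, hρX, hρC]
    rw [← gA]
    linear_combination (-(1 - PowerSeries.C 2 * PowerSeries.X ^ p) ^ 2) * cA
  have P1 : Polynomial.X ^ p * (1 - Polynomial.C (-4) * Polynomial.X ^ p) ^ 5 *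
        nnP p 1 (-4) (fun k => (b (p + k) : ZMod (p ^ 2))) =
      6 * Polynomial.X ^ p * (1 - Polynomial.C (-4) * Polynomial.X) ^ (3 * p + 3 * p - 2) *
        ((1 - Polynomial.C (-4) * Polynomial.X ^ p) * ppP p F +
          (1 + 3 * (Polynomial.C (-4) * Polynomial.X ^ p)) * ppP p W) := by
    apply rho_inj
    rw [← hρ]
    simp only [map_mul, map_pow, map_sub, map_add, map_one, map_ofNat, hρX, hρC]
    linear_combination (-(1 - PowerSeries.C (-4) * PowerSeries.X ^ p) ^ 5) * c1 +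
      ((1 - PowerSeries.C (-4) * PowerSeries.X) ^ (3 * p + 3 * p - 2)) * g1
  -- evaluation
  refine ⟨(ppP p F).eval₂ φ x, (ppP p W).eval₂ φ x, ?_, ?_, ?_, ?_⟩
  · refine ⟨∑ r ∈ Finset.range p, φ (cW r) * x ^ r, ?_⟩
    unfold ppP
    rw [Polynomial.eval₂_finsetSum, Finset.mul_sum]
    refine Finset.sum_congr rfl ?_
    intro r hr
    rw [Finset.mem_range] at hr
    rw [Polynomial.eval₂_mul, Polynomial.eval₂_pow, Polynomial.eval₂_C, Polynomial.eval₂_X, hcW r hr, map_mul,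
      map_natCast]
    ring
  · have h := congrArg (fun P : Polynomial (ZMod (p ^ 2)) => P.eval₂ φ x) P0
    unfold nnP at h
    simp only [Polynomial.eval₂_mul, Polynomial.eval₂_pow, Polynomial.eval₂_sub, Polynomial.eval₂_add,
      Polynomial.eval₂_C, Polynomial.eval₂_X, Polynomial.eval₂_one, Polynomial.eval₂_finsetSum] at h
    simp only [map_neg, map_ofNat, map_intCast] at h
    rw [show 3 * 0 + 3 * p - 2 = 3 * p - 2 by omega] at h
    simp only [one_mul, neg_mul, sub_neg_eq_add] at h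
    rw [h]; ring
  · have h := congrArg (fun P : Polynomial (ZMod (p ^ 2)) => P.eval₂ φ x) P1
    unfold nnP at h
    simp only [Polynomial.eval₂_mul, Polynomial.eval₂_pow, Polynomial.eval₂_sub, Polynomial.eval₂_add,
      Polynomial.eval₂_C, Polynomial.eval₂_X, Polynomial.eval₂_one, Polynomial.eval₂_finsetSum,
      Polynomial.eval₂_ofNat] at h
    simp only [map_neg, map_ofNat, map_intCast] at h
    rw [show 3 * p + 3 * p - 2 = 6 * p - 2 by omega] at h
    simp only [one_mul, neg_mul, sub_neg_eq_add] at h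
    rw [h]; ring
  · have h := congrArg (fun P : Polynomial (ZMod (p ^ 2)) => P.eval₂ φ x) PA
    unfold nnP at h
    simp only [Polynomial.eval₂_mul, Polynomial.eval₂_pow, Polynomial.eval₂_sub, Polynomial.eval₂_add,
      Polynomial.eval₂_C, Polynomial.eval₂_X, Polynomial.eval₂_one, Polynomial.eval₂_finsetSum] at h
    simp only [map_neg, map_ofNat, map_intCast] at h
    rw [show 3 * 0 + 3 * p - 2 = 3 * p - 2 by omega] at h
    rw [h]

end Pool.Agent.Lib.Pd4325e
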