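import Mathlib
import Pool.Agent.Lib.Pd4325e.Trans

set_option autoImplicit false
set_option linter.unusedSectionVars false

namespace Pool.Agent.Lib.Pd4325e

open Pool.Agent.Lib.Pffaf6e

variable (p : ℕ) [hp : Fact p.Prime]

lemma cast_pow_p (n : ℕ) : ∃ c : ℤ, ((n : ℤ)) ^ p = n + p * c := by
  have h : ((n : ZMod p)) ^ p = n := ZMod.pow_card _
  have h2 : (((n : ℤ) ^ p - n : ℤ) : ZMod p) = 0 := by
    push_cast
    rw [h, sub_self]
  rw [ZMod.intCast_zmod_eq_zero_iff_dvd] at h2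
  obtain ⟨c, hc⟩ := h2
  exact ⟨c, by linarith⟩

/-- if `32 x^2 + 40 x - 1 = 0` then `x^p` is a root modulo `p`. -/
lemma root_pow {R' : Type*} [CommRing R'] (x : R') (hx : 32 * x ^ 2 + 40 * x - 1 = 0) :
    ∃ c : R', 32 * (x ^ p) ^ 2 + 40 * x ^ p - 1 = (p : R') * c := by
  obtain ⟨r, hr⟩ := exists_add_pow_prime_eq hp.out (32 * x ^ 2) (40 * x)
  obtain ⟨c1, h1⟩ := cast_pow_p p 32
  obtain ⟨c2, h2⟩ := cast_pow_p p 40
  have h1' := congrArg (fun z : ℤ => (z : R')) h1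
  have h2' := congrArg (fun z : ℤ => (z : R')) h2
  push_cast at h1' h2'
  have e1 : 32 * x ^ 2 + 40 * x = 1 := by linear_combination hx
  rw [e1, one_pow, mul_pow, mul_pow, h1', h2'] at hr
  refine ⟨-(c1 * (x ^ 2) ^ p + c2 * x ^ p + (32 * x ^ 2) * (40 * x) * r), ?_⟩
  have e2 : (x ^ 2) ^ p = (x ^ p) ^ 2 := by rw [← pow_mul, ← pow_mul, mul_comm]
  rw [e2] at hr ⊢
  linear_combination -hr

lemma psqR {R' : Type*} [CommRing R'] (φ : ZMod (p ^ 2) →+* R') : (p : R') * p = 0 := by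
  have := congrArg φ (psq p)
  rw [map_mul, map_natCast, map_zero] at this
  exact this

section
variable {R' : Type*} [CommRing R'] (φ : ZMod (p ^ 2) →+* R') (s i2 i3 : R')

lemma clear_sum (c : ℕ → R') (x u β : R') (e : ℕ) (h : x ^ e = β * u ^ 3) :
    ∑ k ∈ Finset.range p, c k * x ^ (e * k) * u ^ (3 * (p - 1 - k)) =
      u ^ (3 * (p - 1)) * ∑ k ∈ Finset.range p, c k * β ^ k := by
  rw [Finset.mul_sum]
  refine Finset.sum_congr rfl ?_
  intro k hk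
  rw [Finset.mem_range] at hk
  rw [pow_mul, h, mul_pow, ← pow_mul, show 3 * (p - 1) = 3 * k + 3 * (p - 1 - k) by omega, pow_add]
  ring

include φ in
/-- the common setting -/
lemma setup (h7 : 7 ≤ p) (hs : s ^ 2 = 3) (h2 : 2 * i2 = 1) (h3 : 3 * i3 = 1) :
    ∃ u t v y w hh : R', hh = 32 * v ^ 2 + 40 * v - 1 ∧ hh * hh = 0 ∧ 3 * u ^ 2 = 4 * t ^ 2 ∧
      (∃ c : R', w = (p : R') * c) ∧
      IsUnit u ∧ IsUnit t ∧ IsUnit v ∧ IsUnit (1 + 4 * v) ∧ IsUnit (1 - 2 * v) ∧ IsUnit (1 - 8 * v) ∧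
      (1 + 4 * v) ^ 2 * (∑ k ∈ Finset.range p, ((b k : ℤ) : R') * (i2 * i3 ^ 3) ^ k) =
        u * ((1 + 4 * v) * y - 4 * v * w) ∧
      (1 + 4 * v) ^ 5 * (∑ k ∈ Finset.range p, ((b (p + k) : ℤ) : R') * (i2 * i3 ^ 3) ^ k) =
        6 * (54 ^ p * v * u) * ((1 + 4 * v) * y + (1 - 12 * v) * w) ∧
      (1 - 2 * v) ^ 2 * (∑ k ∈ Finset.range p, ((b k : ℤ) : R') * ((9 - 5 * s) * (i2 * i3 ^ 5)) ^ k) =
        t * ((1 - 2 * v) * y + 2 * v * w) := by
  have hpp := psqR p φ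
  have hpos := hp.out.pos
  set x : R' := (-5 + 3 * s) * i2 ^ 3 with hx
  obtain ⟨y, w, hw, E0, E1, E2⟩ := trans p h7 φ x
  set u := 1 + 4 * x with hu
  set t := 1 - 2 * x with ht
  have h8 : 8 * i2 ^ 3 = 1 := by
    calc 8 * i2 ^ 3 = (2 * i2) ^ 3 := by ring
      _ = 1 := by rw [h2, one_pow]
  have h54 : 54 * (i2 * i3 ^ 3) = 1 := by
    calc 54 * (i2 * i3 ^ 3) = (2 * i2) * (3 * i3) ^ 3 := by ring
      _ = 1 := by rw [h2, h3]; ring
  have h486 : 486 * (i2 * i3 ^ 5) = 1 := by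
    calc 486 * (i2 * i3 ^ 5) = (2 * i2) * (3 * i3) ^ 5 := by ring
      _ = 1 := by rw [h2, h3]; ring
  have hx8 : 8 * x = -5 + 3 * s := by rw [hx]; linear_combination (-5 + 3 * s) * h8
  -- cancel lemma for powers of two
  have u2 : IsUnit (2 : R') := IsUnit.of_mul_eq_one i2 h2
  have u3 : IsUnit (3 : R') := IsUnit.of_mul_eq_one i3 h3
  have u9 : IsUnit (9 : R') := by
    have : (9 : R') = 3 * 3 := by norm_num
    rw [this]; exact u3.mul u3
  have u4 : IsUnit (4 : R') := by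
    have : (4 : R') = 2 * 2 := by norm_num
    rw [this]; exact u2.mul u2
  have hroot : 32 * x ^ 2 + 40 * x - 1 = 0 := by
    have : (2 : R') * (32 * x ^ 2 + 40 * x - 1) = 2 * 0 := by
      linear_combination (8 * x + (-5 + 3 * s) + 10) * hx8 + 9 * hs
    exact u2.mul_left_cancel this
  obtain ⟨c, hc⟩ := root_pow p x hroot
  have ux : IsUnit x := IsUnit.of_mul_eq_one (32 * x + 40) (by linear_combination hroot)
  have uu : IsUnit u := by
    obtain ⟨m, hm⟩ := u9.exists_right_inv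
    apply IsUnit.of_mul_eq_one ((8 * x + 8) * m)
    rw [hu]
    linear_combination m * hroot + hm
  have ut : IsUnit t := by
    obtain ⟨m, hm⟩ := (u9.mul u3).exists_right_inv
    apply IsUnit.of_mul_eq_one ((16 * x + 28) * m)
    rw [ht]
    linear_combination (-m) * hroot + hm
  have hu3 : u ^ 3 = 54 * x := by rw [hu]; linear_combination (2 * x - 1) * hroot
  have hxb : x ^ 1 = (i2 * i3 ^ 3) * u ^ 3 := by rw [hu3]; linear_combination (-x) * h54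
  have hxx : 64 * x ^ 2 = 52 - 30 * s := by linear_combination (8 * x + (-5 + 3 * s)) * hx8 + 9 * hs
  have ht4 : 4 * t = 9 - 3 * s := by rw [ht]; linear_combination (-1) * hx8
  have ht3 : 64 * t ^ 3 = 27 * (54 - 30 * s) := by
    have : 64 * t ^ 3 = (4 * t) ^ 3 := by ring
    rw [this, ht4]
    linear_combination (27 * (9 - s)) * hs
  have hxA : x ^ 2 = ((9 - 5 * s) * (i2 * i3 ^ 5)) * t ^ 3 := by
    have hun : IsUnit ((486 : R') * (64 : R')) := by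
      have : ((486 : R') * (64 : R')) = 2 ^ 7 * 3 ^ 5 := by norm_num
      rw [this]; exact (u2.pow 7).mul (u3.pow 5)
    apply hun.mul_left_cancel
    linear_combination 486 * hxx - ((9 - 5 * s) * 64 * t ^ 3) * h486 - (9 - 5 * s) * ht3 - 4050 * hs
  have h34 : 3 * u ^ 2 = 4 * t ^ 2 := by
    apply u4.mul_left_cancel
    have e1 : 2 * u = -3 + 3 * s := by rw [hu]; linear_combination hx8
    linear_combination (3 * (2 * u + (-3 + 3 * s))) * e1 - (4 * t + (9 - 3 * s)) * ht4 + 18 * hs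
  set v := x ^ p with hv
  have hu3p : u ^ (3 * p) = 54 ^ p * v := by rw [pow_mul, hu3, mul_pow]
  have uv : IsUnit v := ux.pow p
  set hh := 32 * v ^ 2 + 40 * v - 1 with hhh
  have hh2 : hh * hh = 0 := by rw [hc]; linear_combination (c ^ 2) * hpp
  have uof : ∀ (a d n : R'), IsUnit n → a * d = n + hh → IsUnit a := by
    intro a d n hn he
    obtain ⟨m, hm⟩ := hn.exists_right_inv
    apply IsUnit.of_mul_eq_one (d * m * (1 - hh * m))
    linear_combination (m * (1 - hh * m)) * he + hm - m ^ 2 * hh2 - (hh * m) * hm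
  refine ⟨u, t, v, y, w, hh, rfl, hh2, h34, hw, uu, ut, uv, ?_, ?_, ?_, ?_, ?_, ?_⟩
  · exact uof _ (8 * v + 8) 9 u9 (by rw [hhh]; ring)
  · exact uof _ (-16 * v - 28) (-(9 * 3)) (u9.mul u3).neg (by rw [hhh]; ring)
  · refine uof _ ((-8 * v - 11) * i2) (-(9 * i2)) (u9.mul (IsUnit.of_mul_eq_one 2 (by rw [mul_comm]; exact h2))).neg ?_
    rw [hhh]
    linear_combination (32 * v ^ 2 + 40 * v - 1) * h2
  · have e := clear_sum p (fun k => ((b k : ℤ) : R')) x u (i2 * i3 ^ 3) 1 hxb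
    simp only [one_mul] at e
    rw [e] at E0
    apply (uu.pow (3 * (p - 1))).mul_left_cancel
    rw [show 3 * p - 2 = 3 * (p - 1) + 1 by omega, pow_succ] at E0
    linear_combination E0
  · have e := clear_sum p (fun k => ((b (p + k) : ℤ) : R')) x u (i2 * i3 ^ 3) 1 hxb
    simp only [one_mul] at e
    rw [e] at E1
    apply (uv.mul (uu.pow (3 * (p - 1)))).mul_left_cancel
    rw [show 6 * p - 2 = 3 * (p - 1) + 3 * p + 1 by omega, pow_add u (3 * (p - 1) + 3 * p) 1,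
      pow_add u (3 * (p - 1)) (3 * p), hu3p] at E1
    linear_combination E1
  · have e := clear_sum p (fun k => ((b k : ℤ) : R')) x t ((9 - 5 * s) * (i2 * i3 ^ 5)) 2 hxA
    rw [e] at E2
    apply (ut.pow (3 * (p - 1))).mul_left_cancel
    rw [show 3 * p - 2 = 3 * (p - 1) + 1 by omega, pow_succ] at E2
    linear_combination E2

include φ in
/-- squares agree, provided the second block is known -/
theorem special_split (h7 : 7 ≤ p) (hs : s ^ 2 = 3) (h2 : 2 * i2 = 1) (h3 : 3 * i3 = 1)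
    (hK : (∑ k ∈ Finset.range p, ((b (p + k) : ℤ) : R') * (i2 * i3 ^ 3) ^ k) =
      6 * 54 ^ (p - 1) * (∑ k ∈ Finset.range p, ((b k : ℤ) : R') * (i2 * i3 ^ 3) ^ k)) :
    (∑ k ∈ Finset.range p, ((b k : ℤ) : R') * ((9 - 5 * s) * (i2 * i3 ^ 5)) ^ k) ^ 2 =
      (∑ k ∈ Finset.range p, ((b k : ℤ) : R') * (i2 * i3 ^ 3) ^ k) ^ 2 := by
  obtain ⟨u, t, v, y, w, hh, hhh, hh2, h34, hw, uu, ut, uv, ua, ub, uc, E0, E1, E2⟩ := setup p φ s i2 i3 h7 hs h2 h3
  have u2 : IsUnit (2 : R') := IsUnit.of_mul_eq_one i2 h2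
  have u3 : IsUnit (3 : R') := IsUnit.of_mul_eq_one i3 h3
  rw [hK] at E1
  set F := (∑ k ∈ Finset.range p, ((b k : ℤ) : R') * (i2 * i3 ^ 3) ^ k)
  set FA := (∑ k ∈ Finset.range p, ((b k : ℤ) : R') * ((9 - 5 * s) * (i2 * i3 ^ 5)) ^ k)
  have u54 : IsUnit (6 * (54 : R') ^ (p - 1)) := by
    have e1 : (6 : R') = 2 * 3 := by norm_num
    have e2 : (54 : R') = 2 * 3 ^ 3 := by norm_num
    rw [e1, e2]
    exact (u2.mul u3).mul ((u2.mul (u3.pow 3)).pow _)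
  have h54 : (54 : R') ^ p = 54 ^ (p - 1) * 54 := by
    rw [← pow_succ]; congr 1; have := hp.out.pos; omega
  have E1' : (1 + 4 * v) ^ 5 * F = 54 * v * u * ((1 + 4 * v) * y + (1 - 12 * v) * w) := by
    apply u54.mul_left_cancel
    rw [h54] at E1
    linear_combination E1
  have X1 : ((1 - 2 * v) * (1 + 4 * v)) * (9 * (1 - 8 * v) * u * (1 - 2 * v) * FA) =
      ((1 - 2 * v) * (1 + 4 * v)) * (t * (1 + 4 * v) * (9 * (1 - 8 * v) - hh) * F) := by
    have e1 : 54 * v * u * (1 - 8 * v) * w = (1 + 4 * v) ^ 2 * (2 * v - 1) * hh * F := by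
      rw [hhh]
      linear_combination 54 * v * E0 - E1'
    linear_combination (9 * (1 - 8 * v) * u * (1 + 4 * v)) * E2 - (9 * (1 - 8 * v) * t * (1 - 2 * v)) * E0 + t * e1
  have X2 := (ub.mul ua).mul_left_cancel X1
  have X3 : 3 * ((1 + 4 * v) ^ 2 * (9 * (1 - 8 * v) - hh) ^ 2) = 324 * ((1 - 2 * v) ^ 2 * (1 - 8 * v) ^ 2) := by
    have e2 : hh * hh = (32 * v ^ 2 + 40 * v - 1) * (32 * v ^ 2 + 40 * v - 1) := by rw [← hhh]
    rw [e2] at hh2
    rw [hhh]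
    linear_combination (48 * v ^ 2 + 240 * v - 24) * hh2
  have uend : IsUnit ((324 : R') * (t ^ 2 * ((1 - 2 * v) ^ 2 * (1 - 8 * v) ^ 2))) := by
    have e1 : (324 : R') = 2 ^ 2 * 3 ^ 4 := by norm_num
    rw [e1]
    exact ((u2.pow 2).mul (u3.pow 4)).mul ((ut.pow 2).mul ((ub.pow 2).mul (uc.pow 2)))
  apply uend.mul_left_cancel
  linear_combination (3 * (9 * (1 - 8 * v) * u * (1 - 2 * v) * FA + t * (1 + 4 * v) * (9 * (1 - 8 * v) - hh) * F)) * X2 -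
    (81 * (1 - 8 * v) ^ 2 * (1 - 2 * v) ^ 2 * FA ^ 2) * h34 + (t ^ 2 * F ^ 2) * X3

include φ in
/-- the inert case -/
theorem special_inert (h7 : 7 ≤ p) (hs : s ^ 2 = 3) (h2 : 2 * i2 = 1) (h3 : 3 * i3 = 1) (c : R')
    (hF : (∑ k ∈ Finset.range p, ((b k : ℤ) : R') * (i2 * i3 ^ 3) ^ k) = p * c) :
    (∑ k ∈ Finset.range p, ((b k : ℤ) : R') * ((9 - 5 * s) * (i2 * i3 ^ 5)) ^ k) ^ 2 = 0 := by
  obtain ⟨u, t, v, y, w, hh, hhh, hh2, h34, ⟨d, hw⟩, uu, ut, uv, ua, ub, uc, E0, E1, E2⟩ :=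
    setup p φ s i2 i3 h7 hs h2 h3
  have hpp := psqR p φ
  rw [hF] at E0
  set FA := (∑ k ∈ Finset.range p, ((b k : ℤ) : R') * ((9 - 5 * s) * (i2 * i3 ^ 5)) ^ k)
  rw [hw] at E0 E2
  have e1 : (u * (1 + 4 * v) * (1 - 2 * v) ^ 2) * FA =
      p * (t * ((1 - 2 * v) * (1 + 4 * v) ^ 2 * c + 6 * u * v * d)) := by
    linear_combination (u * (1 + 4 * v)) * E2 - (t * (1 - 2 * v)) * E0
  have e2 : (u * (1 + 4 * v) * (1 - 2 * v) ^ 2) ^ 2 * FA ^ 2 = (u * (1 + 4 * v) * (1 - 2 * v) ^ 2) ^ 2 * 0 := by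
    calc (u * (1 + 4 * v) * (1 - 2 * v) ^ 2) ^ 2 * FA ^ 2
        = ((u * (1 + 4 * v) * (1 - 2 * v) ^ 2) * FA) ^ 2 := by ring
      _ = ((p : R') * p) * (t * ((1 - 2 * v) * (1 + 4 * v) ^ 2 * c + 6 * u * v * d)) ^ 2 := by rw [e1]; ring
      _ = _ := by rw [hpp]; ring
  exact (((uu.mul ua).mul (ub.pow 2)).pow 2).mul_left_cancel e2

end

end Pool.Agent.Lib.Pd4325e
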