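import Mathlib
import Pool.Agent.Lib.Pd4325e.HalfVal

set_option autoImplicit false
set_option linter.unusedSectionVars false

namespace Pool.Agent.Lib.Pd4325e

open Pool.Agent.Lib.Pffaf6e

variable (p : ℕ) [hp : Fact p.Prime]

/-- integral values of the quadratic character -/
def qc (t : ZMod p) : ℤ := quadraticChar (ZMod p) t

section
variable (h : ℕ) (h6 : p = 6 * h + 1) (hpos : 0 < h)
include h6 hpos

lemma rc_ne : ringChar (ZMod p) ≠ 2 := by
  rw [ZMod.ringChar_zmod_n]; omega

/-- summation over squares -/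
lemma sum_sq (g : ZMod p → ZMod (p ^ 2)) :
    ∑ y : ZMod p, g (y ^ 2) = ∑ t : ZMod p, g t * ((qc p t : ZMod (p ^ 2)) + 1) := by
  rw [← Finset.sum_fiberwise Finset.univ (fun y : ZMod p => y ^ 2) (fun y => g (y ^ 2))]
  refine Finset.sum_congr rfl ?_
  intro t _
  have h1 : ∑ y ∈ Finset.univ.filter (fun y : ZMod p => y ^ 2 = t), g (y ^ 2) =
      ∑ y ∈ Finset.univ.filter (fun y : ZMod p => y ^ 2 = t), g t := by
    refine Finset.sum_congr rfl ?_
    intro y hy
    rw [Finset.mem_filter] at hy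
    rw [hy.2]
  rw [h1, Finset.sum_const, nsmul_eq_mul, mul_comm]
  congr 1
  have h2 := quadraticChar_card_sqrts (rc_ne p h h6 hpos) t
  have h3 : (Set.toFinset {x : ZMod p | x ^ 2 = t}) = Finset.univ.filter (fun y : ZMod p => y ^ 2 = t) := by
    ext y; simp
  rw [h3] at h2
  have h4 := congrArg (fun z : ℤ => (z : ZMod (p ^ 2))) h2
  push_cast at h4
  unfold qc
  exact h4

/-- the twisted Jacobi sum -/
lemma jac_quad (m : ℕ) (hm : 0 < m) (hnd : ¬ (p - 1) ∣ m) :
    ∑ t : ZMod p, om p t ^ m * (qc p (1 - t) : ZMod (p ^ 2)) =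
      om p 4 ^ m * ∑ x : ZMod p, om p x ^ m * om p (1 - x) ^ m := by
  have h2ne : (2 : ZMod p) ≠ 0 := by
    have : ((2 : ℕ) : ZMod p) ≠ 0 := by
      rw [Ne, ZMod.natCast_eq_zero_iff]
      exact not_dvd_of_lt p (by omega) (by omega)
    push_cast at this; exact this
  have e1 : om p 4 ^ m * ∑ x : ZMod p, om p x ^ m * om p (1 - x) ^ m = ∑ y : ZMod p, om p (1 - y ^ 2) ^ m := by
    rw [Finset.mul_sum]
    rw [← Equiv.sum_comp ((Equiv.mulLeft₀ (2 : ZMod p) h2ne).trans (Equiv.subLeft (1 : ZMod p)))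
      (fun y => om p (1 - y ^ 2) ^ m)]
    refine Finset.sum_congr rfl ?_
    intro x _
    rw [← mul_pow, ← om_mul, ← mul_pow, ← om_mul]
    congr 2
    simp only [Equiv.trans_apply, Equiv.mulLeft₀_apply, Equiv.subLeft_apply]
    ring
  rw [e1, sum_sq p h h6 hpos (fun t => om p (1 - t) ^ m)]
  have e2 : ∑ t : ZMod p, om p (1 - t) ^ m * ((qc p t : ZMod (p ^ 2)) + 1) =
      ∑ t : ZMod p, om p (1 - t) ^ m * (qc p t : ZMod (p ^ 2)) + ∑ t : ZMod p, om p (1 - t) ^ m := by
    rw [← Finset.sum_add_distrib]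
    refine Finset.sum_congr rfl ?_
    intro t _
    ring
  rw [e2]
  have e3 : ∑ t : ZMod p, om p (1 - t) ^ m = 0 := by
    rw [← sum_om_pow_of_not_dvd p hnd]
    exact Equiv.sum_comp (Equiv.subLeft (1 : ZMod p)) (fun t => om p t ^ m)
  rw [e3, add_zero, ← Equiv.sum_comp (Equiv.subLeft (1 : ZMod p))]
  refine Finset.sum_congr rfl ?_
  intro t _
  simp only [Equiv.subLeft_apply, sub_sub_cancel]

/-- Representation `p = X^2 + 3Y^2` and the value of the twisted Jacobi sum. -/
lemma rep_exists : ∃ X Y : ℤ, (p : ℤ) = X ^ 2 + 3 * Y ^ 2 ∧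
    (∑ t : ZMod p, om p t ^ (4 * h) * (qc p (1 - t) : ZMod (p ^ 2))) +
      (∑ t : ZMod p, om p t ^ (2 * h) * (qc p (1 - t) : ZMod (p ^ 2))) = 2 * (X : ZMod (p ^ 2)) ∧
    (∑ t : ZMod p, om p t ^ (4 * h) * (qc p (1 - t) : ZMod (p ^ 2))) *
      (∑ t : ZMod p, om p t ^ (2 * h) * (qc p (1 - t) : ZMod (p ^ 2))) = (p : ZMod (p ^ 2)) := by
  obtain ⟨g, hg0, hg⟩ := exists_gen p
  set w : ZMod p := g ^ (2 * h) with hw
  have hw0 : w ≠ 0 := pow_ne_zero _ hg0
  have hw3 : w ^ 3 = 1 := by
    rw [hw, ← pow_mul, show 2 * h * 3 = p - 1 by omega]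
    exact ZMod.pow_card_sub_one_eq_one hg0
  have hw1 : w ≠ 1 := by
    intro hh
    have h1 := Nat.le_of_dvd (by omega) (hg (2 * h) hh)
    omega
  clear_value w
  have hwsum : w ^ 2 + w + 1 = 0 := by
    have : (w - 1) * (w ^ 2 + w + 1) = 0 := by linear_combination hw3
    rcases mul_eq_zero.mp this with hh | hh
    · exact absurd (by linear_combination hh) hw1
    · exact hh
  have hw2 : w ^ 2 ≠ 1 := by
    intro hh
    apply hw1
    have : w ^ 3 = w := by rw [pow_succ, hh, one_mul]
    rw [← this, hw3]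
  have hww : w ^ 2 ≠ w := by
    intro hh
    apply hw1
    have : w * (w - 1) = 0 := by linear_combination hh
    rcases mul_eq_zero.mp this with h1 | h1
    · exact absurd h1 hw0
    · linear_combination h1
  have hval : ∀ y : ZMod p, y ≠ 0 → y ^ (2 * h) = 1 ∨ y ^ (2 * h) = w ∨ y ^ (2 * h) = w ^ 2 := by
    intro y hy
    have h1 : (y ^ (2 * h)) ^ 3 = 1 := by
      rw [← pow_mul, show 2 * h * 3 = p - 1 by omega]
      exact ZMod.pow_card_sub_one_eq_one hy
    have h2 : (y ^ (2 * h) - 1) * ((y ^ (2 * h) - w) * (y ^ (2 * h) - w ^ 2)) = 0 := by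
      linear_combination h1 - (y ^ (2 * h) * (y ^ (2 * h) - 1)) * hwsum + (y ^ (2 * h) - 1) * hw3
    rcases mul_eq_zero.mp h2 with hh | hh
    · left; linear_combination hh
    · rcases mul_eq_zero.mp hh with hh | hh
      · right; left; linear_combination hh
      · right; right; linear_combination hh
  set z : ZMod (p ^ 2) := om p w with hz
  have hz3 : z ^ 3 = 1 := by rw [hz, ← om_pow, hw3, om_one]
  have hzu : IsUnit (z - 1) := by
    apply isUnit_of_red
    rw [map_sub, map_one, hz, red_om, sub_ne_zero]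
    exact hw1
  have hzsum : z ^ 2 + z + 1 = 0 := by
    have : (z - 1) * (z ^ 2 + z + 1) = 0 := by linear_combination hz3
    exact (hzu.mul_right_eq_zero).mp this
  -- the classes
  set M : ZMod p → ℤ := fun a => ∑ t ∈ Finset.univ.filter (fun t : ZMod p => t ^ (2 * h) = a), qc p (1 - t) with hM
  have h2h : 2 * h ≠ 0 := by omega
  have decomp : ∀ G : ZMod p → ZMod (p ^ 2), G 0 = 0 →
      ∑ t : ZMod p, G (t ^ (2 * h)) * (qc p (1 - t) : ZMod (p ^ 2)) =
        G 1 * (M 1 : ZMod (p ^ 2)) + G w * (M w : ZMod (p ^ 2)) + G (w ^ 2) * (M (w ^ 2) : ZMod (p ^ 2)) := by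
    intro G hG0
    have key : ∀ a : ZMod p, G a * (M a : ZMod (p ^ 2)) =
        ∑ t : ZMod p, if t ^ (2 * h) = a then G (t ^ (2 * h)) * (qc p (1 - t) : ZMod (p ^ 2)) else 0 := by
      intro a
      rw [← Finset.sum_filter, hM]
      simp only [Int.cast_sum]
      rw [Finset.mul_sum]
      refine Finset.sum_congr rfl ?_
      intro t ht
      rw [Finset.mem_filter] at ht
      rw [ht.2]
    rw [key, key, key, ← Finset.sum_add_distrib, ← Finset.sum_add_distrib]
    refine Finset.sum_congr rfl ?_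
    intro t _
    by_cases ht : t = 0
    · rw [ht, zero_pow h2h, if_neg (fun hh => zero_ne_one hh), if_neg (fun hh => hw0 hh.symm),
        if_neg (fun hh => pow_ne_zero 2 hw0 hh.symm), hG0]
      ring
    · rcases hval t ht with hh | hh | hh
      · rw [hh, if_pos rfl, if_neg (fun h => hw1 h.symm), if_neg (fun h => hw2 h.symm)]; ring
      · rw [hh, if_neg hw1, if_pos rfl, if_neg (fun h => hww h.symm)]; ring
      · rw [hh, if_neg hw2, if_neg hww, if_pos rfl]; ring
  have hV : ∑ t : ZMod p, om p t ^ (2 * h) * (qc p (1 - t) : ZMod (p ^ 2)) =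
      (M 1 : ZMod (p ^ 2)) + z * (M w : ZMod (p ^ 2)) + z ^ 2 * (M (w ^ 2) : ZMod (p ^ 2)) := by
    have := decomp (fun a => om p a) (om_zero p)
    simp only [om_one, om_pow, ← hz] at this
    rw [this]; ring
  have hU : ∑ t : ZMod p, om p t ^ (4 * h) * (qc p (1 - t) : ZMod (p ^ 2)) =
      (M 1 : ZMod (p ^ 2)) + z ^ 2 * (M w : ZMod (p ^ 2)) + z * (M (w ^ 2) : ZMod (p ^ 2)) := by
    have := decomp (fun a => om p a ^ 2) (by simp only [om_zero]; ring)
    simp only [om_one, om_pow, ← hz] at this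
    have e : ∀ t : ZMod p, om p t ^ (4 * h) = (om p t ^ (2 * h)) ^ 2 := by
      intro t; rw [← pow_mul]; congr 1; ring
    simp only [e]
    rw [this]
    linear_combination (z * (M (w ^ 2) : ZMod (p ^ 2))) * hz3
  -- total mass
  have hsum : M 1 + M w + M (w ^ 2) = -1 := by
    have h0 : ∑ t : ZMod p, qc p (1 - t) = 0 := by
      have := quadraticChar_sum_zero (rc_ne p h h6 hpos)
      rw [← this]
      exact Equiv.sum_comp (Equiv.subLeft (1 : ZMod p)) (fun t => quadraticChar (ZMod p) t)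
    rw [← Finset.add_sum_erase Finset.univ _ (Finset.mem_univ (0 : ZMod p))] at h0
    have h1 : qc p (1 - 0) = 1 := by
      unfold qc; rw [sub_zero]; exact map_one _
    rw [h1] at h0
    have h2 : ∑ t ∈ Finset.univ.erase (0 : ZMod p), qc p (1 - t) = M 1 + M w + M (w ^ 2) := by
      have key : ∀ a : ZMod p, a ≠ 0 → M a = ∑ t ∈ Finset.univ.erase (0 : ZMod p), if t ^ (2 * h) = a then qc p (1 - t) else 0 := by
        intro a ha
        rw [← Finset.sum_filter, hM]
        refine Finset.sum_congr ?_ (fun _ _ => rfl)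
        ext t
        simp only [Finset.mem_filter, Finset.mem_univ, true_and, Finset.mem_erase, and_true]
        constructor
        · intro ht
          refine ⟨?_, ht⟩
          intro h0
          apply ha
          rw [← ht, h0, zero_pow h2h]
        · intro ht; exact ht.2
      rw [key 1 one_ne_zero, key w hw0, key (w ^ 2) (pow_ne_zero 2 hw0), ← Finset.sum_add_distrib,
        ← Finset.sum_add_distrib]
      refine Finset.sum_congr rfl ?_
      intro t ht
      rw [Finset.mem_erase] at ht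
      rcases hval t ht.1 with hh | hh | hh
      · rw [hh, if_pos rfl, if_neg (fun h => hw1 h.symm), if_neg (fun h => hw2 h.symm)]; ring
      · rw [hh, if_neg hw1, if_pos rfl, if_neg (fun h => hww h.symm)]; ring
      · rw [hh, if_neg hw2, if_neg hww, if_pos rfl]; ring
    rw [h2] at h0
    linarith
  -- parity
  have hpar : ∀ a : ZMod p, a ≠ 1 → a ≠ 0 → ∃ m : ℤ, M a = 2 * m := by
    intro a ha ha0
    have h1 : ((M a : ℤ) : ZMod 2) = 0 := by
      rw [hM]
      simp only [Int.cast_sum]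
      have hodd : ∀ t ∈ Finset.univ.filter (fun t : ZMod p => t ^ (2 * h) = a), ((qc p (1 - t) : ℤ) : ZMod 2) = 1 := by
        intro t ht
        rw [Finset.mem_filter] at ht
        have ht1 : (1 - t) ≠ 0 := by
          intro h0
          apply ha
          have : t = 1 := by linear_combination -h0
          rw [← ht.2, this, one_pow]
        unfold qc
        rcases quadraticChar_dichotomy ht1 with hh | hh
        · rw [hh]; rfl
        · rw [hh]; rfl
      rw [Finset.sum_congr rfl hodd]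
      apply Finset.sum_involution (fun t _ => -t)
      · intro t _
        rfl
      · intro t ht _ hh
        rw [Finset.mem_filter] at ht
        have h0 : t = 0 := by
          have h2ne : (2 : ZMod p) ≠ 0 := by
            have : ((2 : ℕ) : ZMod p) ≠ 0 := by
              rw [Ne, ZMod.natCast_eq_zero_iff]
              exact not_dvd_of_lt p (by omega) (by omega)
            push_cast at this; exact this
          have : (2 : ZMod p) * t = 0 := by linear_combination -hh
          rcases mul_eq_zero.mp this with h1 | h1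
          · exact absurd h1 h2ne
          · exact h1
        apply ha0
        rw [← ht.2, h0, zero_pow h2h]
      · intro t _
        exact neg_neg t
      · intro t ht
        rw [Finset.mem_filter] at ht ⊢
        refine ⟨Finset.mem_univ _, ?_⟩
        rw [pow_mul, neg_sq, ← pow_mul]
        exact ht.2
    rw [ZMod.intCast_zmod_eq_zero_iff_dvd] at h1
    obtain ⟨m, hm⟩ := h1
    exact ⟨m, by push_cast at hm; exact hm⟩
  obtain ⟨m1, hm1⟩ := hpar w hw1 hw0
  obtain ⟨m2, hm2⟩ := hpar (w ^ 2) hw2 (pow_ne_zero 2 hw0)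
  -- bound
  have hbd : |M 1| + |M w| + |M (w ^ 2)| ≤ (p : ℤ) - 1 := by
    have hq : ∀ t : ZMod p, |qc p t| ≤ 1 := by
      intro t
      unfold qc
      by_cases ht : t = 0
      · rw [ht, quadraticChar_zero]; norm_num
      · rcases quadraticChar_dichotomy ht with hh | hh
        · rw [hh]; norm_num
        · rw [hh]; norm_num
    have hcard : ∀ a : ZMod p, a ≠ 0 → |M a| ≤ ∑ t ∈ Finset.univ.erase (0 : ZMod p), if t ^ (2 * h) = a then (1 : ℤ) else 0 := by
      intro a ha
      rw [← Finset.sum_filter]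
      calc |M a| ≤ ∑ t ∈ Finset.univ.filter (fun t : ZMod p => t ^ (2 * h) = a), |qc p (1 - t)| :=
            Finset.abs_sum_le_sum_abs _ _
        _ ≤ ∑ t ∈ Finset.univ.filter (fun t : ZMod p => t ^ (2 * h) = a), (1 : ℤ) :=
            Finset.sum_le_sum (fun t _ => hq _)
        _ = _ := by
          refine Finset.sum_congr ?_ (fun _ _ => rfl)
          ext t
          simp only [Finset.mem_filter, Finset.mem_univ, true_and, Finset.mem_erase, and_true]
          constructor
          · intro ht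
            refine ⟨?_, ht⟩
            intro h0
            apply ha
            rw [← ht, h0, zero_pow h2h]
          · intro ht; exact ht.2
    have htot : (∑ t ∈ Finset.univ.erase (0 : ZMod p), if t ^ (2 * h) = 1 then (1 : ℤ) else 0) +
        (∑ t ∈ Finset.univ.erase (0 : ZMod p), if t ^ (2 * h) = w then (1 : ℤ) else 0) +
        (∑ t ∈ Finset.univ.erase (0 : ZMod p), if t ^ (2 * h) = w ^ 2 then (1 : ℤ) else 0) = (p : ℤ) - 1 := by
      rw [← Finset.sum_add_distrib, ← Finset.sum_add_distrib]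
      have : ∀ t ∈ Finset.univ.erase (0 : ZMod p), ((if t ^ (2 * h) = 1 then (1 : ℤ) else 0) +
          (if t ^ (2 * h) = w then (1 : ℤ) else 0) + (if t ^ (2 * h) = w ^ 2 then (1 : ℤ) else 0)) = 1 := by
        intro t ht
        rw [Finset.mem_erase] at ht
        rcases hval t ht.1 with hh | hh | hh
        · rw [hh, if_pos rfl, if_neg (fun h => hw1 h.symm), if_neg (fun h => hw2 h.symm)]; ring
        · rw [hh, if_neg hw1, if_pos rfl, if_neg (fun h => hww h.symm)]; ring
        · rw [hh, if_neg hw2, if_neg hww, if_pos rfl]; ring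
      rw [Finset.sum_congr rfl this, Finset.sum_const, Finset.card_erase_of_mem (Finset.mem_univ _),
        Finset.card_univ, ZMod.card, nsmul_eq_mul, mul_one, Nat.cast_sub hp.out.one_lt.le, Nat.cast_one]
    have h1 := hcard 1 one_ne_zero
    have h2 := hcard w hw0
    have h3 := hcard (w ^ 2) (pow_ne_zero 2 hw0)
    linarith
  -- product
  have hUe := jac_quad p h h6 hpos (4 * h) (by omega) (by
    intro hd
    have := Nat.le_of_dvd (by omega) hd
    omega)
  have hVe := jac_quad p h h6 hpos (2 * h) (by omega) (by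
    intro hd
    have := Nat.le_of_dvd (by omega) hd
    omega)
  have hnorm := jacobi_norm p (R := ZMod (p ^ 2)) (fun x => om p x ^ (2 * h))
    (by intro x y; rw [om_mul, mul_pow]) (by rw [om_zero, zero_pow h2h])
    (by rw [om_one, one_pow])
    (by
      intro x hx
      rw [← pow_mul, show 2 * h * 3 = p - 1 by omega]
      exact om_pow_card_sub_one p hx)
    (sum_om_pow_of_not_dvd p (by
      intro hd
      have := Nat.le_of_dvd (by omega) hd
      omega))
    (by
      simp only [← pow_mul]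
      apply sum_om_pow_of_not_dvd p
      intro hd
      have := Nat.le_of_dvd (by omega) hd
      omega)
  have hU' : ∑ x : ZMod p, (om p x ^ (2 * h)) ^ 2 * (om p (1 - x) ^ (2 * h)) ^ 2 =
      ∑ x : ZMod p, om p x ^ (4 * h) * om p (1 - x) ^ (4 * h) := by
    refine Finset.sum_congr rfl ?_
    intro x _
    rw [← pow_mul, ← pow_mul, show 2 * h * 2 = 4 * h by ring]
  rw [hU'] at hnorm
  have h4ne : (4 : ZMod p) ≠ 0 := by
    have : ((4 : ℕ) : ZMod p) ≠ 0 := by
      rw [Ne, ZMod.natCast_eq_zero_iff]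
      exact not_dvd_of_lt p (by omega) (by omega)
    push_cast at this; exact this
  have h46 : om p 4 ^ (4 * h) * om p 4 ^ (2 * h) = 1 := by
    rw [← pow_add, show 4 * h + 2 * h = p - 1 by omega]
    exact om_pow_card_sub_one p h4ne
  have hprod : (∑ t : ZMod p, om p t ^ (4 * h) * (qc p (1 - t) : ZMod (p ^ 2))) *
      (∑ t : ZMod p, om p t ^ (2 * h) * (qc p (1 - t) : ZMod (p ^ 2))) = (p : ZMod (p ^ 2)) := by
    rw [hUe, hVe]
    linear_combination (om p 4 ^ (4 * h) * om p 4 ^ (2 * h)) * hnorm + (p : ZMod (p ^ 2)) * h46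
  -- the form
  set Q : ℤ := (M 1) ^ 2 + (M w) ^ 2 + (M (w ^ 2)) ^ 2 - (M 1) * (M w) - (M w) * (M (w ^ 2)) - (M 1) * (M (w ^ 2)) with hQ
  have hQmod : ((Q : ℤ) : ZMod (p ^ 2)) = ((p : ℤ) : ZMod (p ^ 2)) := by
    rw [hQ]
    push_cast
    rw [← hprod, hU, hV]
    generalize (M 1 : ZMod (p ^ 2)) = N0
    generalize (M w : ZMod (p ^ 2)) = N1
    generalize (M (w ^ 2) : ZMod (p ^ 2)) = N2
    linear_combination (-N0 * N1 - N0 * N2 - (z ^ 2 - z + 1) * N1 * N2) * hzsum
      - (N1 ^ 2 + N2 ^ 2) * hz3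
  have hQ0 : 0 ≤ Q := by
    have : 2 * Q = ((M 1) - (M w)) ^ 2 + ((M w) - (M (w ^ 2))) ^ 2 + ((M 1) - (M (w ^ 2))) ^ 2 := by
      rw [hQ]; ring
    nlinarith [sq_nonneg ((M 1) - (M w)), sq_nonneg ((M w) - (M (w ^ 2))), sq_nonneg ((M 1) - (M (w ^ 2)))]
  have hp2 : 2 ≤ p := hp.out.two_le
  have hQ1 : Q ≤ ((p : ℤ) - 1) ^ 2 := by
    have a0 := abs_nonneg (M 1)
    have a1 := abs_nonneg (M w)
    have a2 := abs_nonneg (M (w ^ 2))
    have b01 : -(M 1 * M w) ≤ |M 1| * |M w| := by rw [← abs_mul]; exact neg_le_abs _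
    have b12 : -(M w * M (w ^ 2)) ≤ |M w| * |M (w ^ 2)| := by rw [← abs_mul]; exact neg_le_abs _
    have b02 : -(M 1 * M (w ^ 2)) ≤ |M 1| * |M (w ^ 2)| := by rw [← abs_mul]; exact neg_le_abs _
    have s0 := sq_abs (M 1)
    have s1 := sq_abs (M w)
    have s2 := sq_abs (M (w ^ 2))
    have h1 : Q ≤ (|M 1| + |M w| + |M (w ^ 2)|) ^ 2 := by
      rw [hQ]
      nlinarith [mul_nonneg a0 a1, mul_nonneg a1 a2, mul_nonneg a0 a2]
    have h2 : 0 ≤ |M 1| + |M w| + |M (w ^ 2)| := by positivity
    nlinarith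
  have hQp : Q = p := by
    rw [ZMod.intCast_eq_intCast_iff_dvd_sub] at hQmod
    obtain ⟨k, hk⟩ := hQmod
    push_cast at hk
    have hppos : (0 : ℤ) < p := by exact_mod_cast hp.out.pos
    have hp2' : (2 : ℤ) ≤ p := by exact_mod_cast hp2
    have h1 : k < 1 := by
      by_contra hcon
      have : (1 : ℤ) ≤ k := by omega
      nlinarith
    have h2 : -1 < k := by
      by_contra hcon
      have : k ≤ -1 := by omega
      nlinarith
    have h3 : k = 0 := by omega
    rw [h3, mul_zero] at hk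
    linarith
  refine ⟨-1 - 3 * m1 - 3 * m2, m1 - m2, ?_, ?_, hprod⟩
  · rw [← hQp, hQ]
    have : M 1 = -1 - 2 * m1 - 2 * m2 := by linarith
    rw [this, hm1, hm2]
    ring
  · rw [hU, hV]
    have h1 : (M 1 : ZMod (p ^ 2)) = -1 - 2 * m1 - 2 * m2 := by
      have : M 1 = -1 - 2 * m1 - 2 * m2 := by linarith
      rw [this]; push_cast; ring
    have h2 : (M w : ZMod (p ^ 2)) = 2 * m1 := by rw [hm1]; push_cast; ring
    have h3 : (M (w ^ 2) : ZMod (p ^ 2)) = 2 * m2 := by rw [hm2]; push_cast; ring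
    rw [h1, h2, h3]
    push_cast
    linear_combination (2 * (m1 : ZMod (p ^ 2)) + 2 * m2) * hzsum

end

end Pool.Agent.Lib.Pd4325e
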