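import Mathlib
import Pool.Agent.Lib.Pd4325e.Rho
import Pool.Agent.Lib.Pd4325e.Vals2

set_option autoImplicit false
set_option linter.unusedSectionVars false

namespace Pool.Agent.Lib.Pd4325e

open Pool.Agent.Lib.Pffaf6e

variable (p : ℕ) [hp : Fact p.Prime]

section
variable (h : ℕ) (h6 : p = 6 * h + 1) (hpos : 0 < h)
include h6 hpos

/-- value of the squared sum at `1/54` -/
theorem F_sq_val : ∃ X Y : ℤ, (p : ℤ) = X ^ 2 + 3 * Y ^ 2 ∧
    (∑ k ∈ Finset.range p, (b k : ZMod (p ^ 2)) * (j2 p * j3 p ^ 3) ^ k) ^ 2 =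
      4 * (X : ZMod (p ^ 2)) ^ 2 - 2 * (p : ZMod (p ^ 2)) := by
  obtain ⟨X, Y, hXY, hsum, hprod⟩ := rep_exists p h h6 hpos
  refine ⟨X, Y, hXY, ?_⟩
  rw [F_eq p h h6 hpos]
  obtain ⟨a, b, haa, hab, hbb, ha, hb, v0, _⟩ := Gh_vals p h h6 hpos
  have h3 := psq p
  have hU := jac_quad p h h6 hpos (4 * h) (by omega) (by
    intro hd
    have := Nat.le_of_dvd (by omega) hd
    omega)
  have hUe := U_eval p (2 * h) (by omega) (by omega) ⟨h, by ring⟩
  have hUe' : ∑ x : ZMod p, om p x ^ (4 * h) * om p (1 - x) ^ (4 * h) = - Cc p h := by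
    have e : 2 * (2 * h) = 4 * h := by ring
    rw [e] at hUe
    unfold Cc
    exact hUe
  rw [hUe'] at hU
  set U := ∑ t : ZMod p, om p t ^ (4 * h) * (qc p (1 - t) : ZMod (p ^ 2))
  set V := ∑ t : ZMod p, om p t ^ (2 * h) * (qc p (1 - t) : ZMod (p ^ 2))
  -- p b = 0
  have hpb : (p : ZMod (p ^ 2)) * b = 0 := by
    have e1 : (p : ZMod (p ^ 2)) * pH p (3 * h) = 0 := by
      unfold pH
      rw [Finset.mul_sum]
      refine Finset.sum_eq_zero ?_
      intro j _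
      have := p_mul_fp p (j + 1) 1
      rw [mul_one] at this
      exact this
    rw [hb] at e1
    have h2 := j2_spec p h h6 hpos
    have h3' := j3_spec p h h6 hpos
    linear_combination (j2 p * j3 p) * e1 - (p * b * (3 * j3 p)) * h2 - (p * b) * h3'
  have hpc := p_cast p h h6 hpos
  have p2 := pow2 p h h6 hpos b hb
  have o2 : om p 2 = 2 * (1 - 3 * b) := by
    have h1 : om p 2 = (2 : ZMod (p ^ 2)) ^ p := om_eq p (by rw [map_ofNat])
    have h2 : (2 : ZMod (p ^ 2)) ^ p = 2 ^ (6 * h + 1) := by congr 1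
    rw [h1, h2, pow_succ (2 : ZMod (p ^ 2)) (6 * h), p2]; ring
  have z1 : om p 2 ^ (2 * h) = 2 ^ (2 * h) * (1 + b) := by
    have e1 : (1 - 3 * b) = 1 + (-3 * b) := by ring
    rw [o2, mul_pow, e1, one_add_pow' p (-3 * b) (by linear_combination 9 * hbb)]
    push_cast
    rw [hpc] at hpb
    linear_combination (-(2 : ZMod (p ^ 2)) ^ (2 * h)) * hpb
  have o4 : om p 4 ^ (4 * h) = (om p 2 ^ (2 * h)) ^ 4 := by
    have e1 : (4 : ZMod p) = 2 * 2 := by norm_num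
    rw [e1, om_mul, ← pow_two, ← pow_mul, ← pow_mul]
    congr 1; ring
  have hU2 : U = - ((2 ^ (2 * h) * (1 + b)) ^ 4 * Cc p h) := by
    rw [hU, o4, z1]; ring
  -- unit
  have uC : IsUnit (Cc p h) := by
    have e := C_fc p h h6 hpos
    have u4 := Fc_unit p (4 * h) (by omega)
    rw [← e, mul_assoc] at u4
    exact isUnit_of_mul_isUnit_left u4
  have u2 : IsUnit ((2 : ZMod (p ^ 2)) ^ (2 * h)) := unit_two_pow p h h6 hpos (2 * h)
  have ub : IsUnit (1 + b) := IsUnit.of_mul_eq_one (1 - b) (by linear_combination (-1) * hbb)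
  have uU : IsUnit U := by
    rw [hU2]
    exact (((u2.mul ub).pow 4).mul uC).neg
  have hV2 : V ^ 2 = 0 := by
    have : U ^ 2 * V ^ 2 = U ^ 2 * 0 := by
      rw [← mul_pow, hprod]; linear_combination h3
    exact (uU.pow 2).mul_left_cancel this
  have hUU : U ^ 2 = 4 * (X : ZMod (p ^ 2)) ^ 2 - 2 * (p : ZMod (p ^ 2)) := by
    linear_combination (U + V + 2 * X) * hsum - 2 * hprod - hV2
  rw [← hUU]
  have u16 : IsUnit ((16 : ZMod (p ^ 2)) ^ h) := by
    have : ((16 : ZMod (p ^ 2)) ^ h) = 2 ^ (4 * h) := by rw [pow_mul]; norm_num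
    rw [this]; exact unit_two_pow p h h6 hpos (4 * h)
  apply (u16.mul u16).mul_left_cancel
  have e16 : (16 : ZMod (p ^ 2)) ^ h * 16 ^ h * (2 ^ (2 * h)) ^ 8 = (1 - 3 * b) ^ 4 := by
    rw [← p2, ← pow_mul, ← pow_mul]
    have : (16 : ZMod (p ^ 2)) ^ h = 2 ^ (4 * h) := by rw [pow_mul]; norm_num
    rw [this, ← pow_add, ← pow_add]
    congr 1; ring
  have m : (1 - 3 * b) ^ 4 * (1 + b) ^ 8 = 1 - 4 * b := by
    have e1 : (1 - 3 * b) ^ 4 = 1 - 12 * b := by
      linear_combination (54 - 108 * b + 81 * b ^ 2) * hbb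
    have e2 : (1 + b) ^ 8 = 1 + 8 * b := by
      linear_combination (28 + 56 * b + 70 * b ^ 2 + 56 * b ^ 3 + 28 * b ^ 4 + 8 * b ^ 5 + b ^ 6) * hbb
    rw [e1, e2]
    linear_combination (-96) * hbb
  have hU3 : 16 ^ h * 16 ^ h * U ^ 2 = Cc p h ^ 2 * (1 - 4 * b) := by
    rw [hU2, ← m, ← e16]; ring
  rw [hU3]
  linear_combination (16 ^ h * Gh p 0 0 0 + Cc p h * (1 - 2 * b)) * v0 + (4 * Cc p h ^ 2) * hbb

end

end Pool.Agent.Lib.Pd4325e
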