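import Mathlib
import Pool.Agent.Lib.Pd4325e.SplitVal
import Pool.Agent.Lib.Pd4325e.Special
import Pool.Agent.Lib.Pd4325e.Clausen
import Pool.Agent.Lib.Pd4325e.Inert

set_option autoImplicit false
set_option linter.unusedSectionVars false

namespace Pool.Agent.Lib.Pd4325e

open Pool.Agent.Lib.Pffaf6e

/-- uniqueness of `x^2` in `p = x^2 + 3y^2` -/
lemma rep_unique' (p : ℕ) (hp : p.Prime) (x y X Y : ℤ) (h1 : (p : ℤ) = x ^ 2 + 3 * y ^ 2)
    (h2 : (p : ℤ) = X ^ 2 + 3 * Y ^ 2) : x ^ 2 = X ^ 2 := by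
  have hppos : (0 : ℤ) < p := by exact_mod_cast hp.pos
  have key : ∀ A B : ℤ, (p : ℤ) = A ^ 2 + 3 * B ^ 2 → (p : ℤ) ∣ x * B - A * y → x * B = A * y := by
    intro A B hAB hd
    obtain ⟨k, hk⟩ := hd
    have e1 : (p : ℤ) ^ 2 = (x * A + 3 * y * B) ^ 2 + 3 * (x * B - A * y) ^ 2 := by
      calc (p : ℤ) ^ 2 = (p : ℤ) * (p : ℤ) := by ring
        _ = (x ^ 2 + 3 * y ^ 2) * (A ^ 2 + 3 * B ^ 2) := by rw [h1.symm, hAB.symm]
        _ = _ := by ring
    rw [hk] at e1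
    have e2 : 3 * k ^ 2 ≤ 1 := by
      by_contra hcon
      have h3 : 1 < 3 * k ^ 2 := by omega
      nlinarith [sq_nonneg (x * A + 3 * y * B), mul_pos hppos hppos]
    have e3 : k = 0 := by nlinarith [sq_nonneg k]
    rw [e3, mul_zero] at hk
    linarith
  have hprod : (p : ℤ) ∣ (x * Y - X * y) * (x * (-Y) - X * y) := by
    refine ⟨y ^ 2 - Y ^ 2, ?_⟩
    linear_combination (Y ^ 2) * h1 - (y ^ 2) * h2
  have hpr : Prime (p : ℤ) := Nat.prime_iff_prime_int.mp hp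
  have hsq : x ^ 2 * Y ^ 2 = X ^ 2 * y ^ 2 := by
    rcases hpr.dvd_or_dvd hprod with hd | hd
    · have := key X Y h2 hd
      calc x ^ 2 * Y ^ 2 = (x * Y) ^ 2 := by ring
        _ = (X * y) ^ 2 := by rw [this]
        _ = _ := by ring
    · have := key X (-Y) (by rw [h2]; ring) hd
      calc x ^ 2 * Y ^ 2 = (x * (-Y)) ^ 2 := by ring
        _ = (X * y) ^ 2 := by rw [this]
        _ = _ := by ring
  have hYY : (p : ℤ) * (Y ^ 2 - y ^ 2) = 0 := by
    linear_combination (Y ^ 2) * h1 - (y ^ 2) * h2 + hsq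
  rcases mul_eq_zero.mp hYY with h5 | h5
  · omega
  · linear_combination h2 - h1 + 3 * h5

variable (p : ℕ) [hp : Fact p.Prime]

lemma s_eq_sq (h7 : 7 ≤ p) {R' : Type*} [CommRing R'] (φ : ZMod (p ^ 2) →+* R') (s : R') (hs : s ^ 2 = 3) :
    φ (∑ k ∈ Finset.range p, (a k : ZMod (p ^ 2)) * (j2 p * j3 p ^ 6) ^ k) =
      (∑ k ∈ Finset.range p, ((b k : ℤ) : R') * ((9 - 5 * s) * (φ (j2 p) * φ (j3 p) ^ 5)) ^ k) ^ 2 := by
  have h2 : 2 * φ (j2 p) = 1 := by
    have := congrArg φ (two_j2 p (by omega))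
    rw [map_mul, map_ofNat, map_one] at this
    exact this
  have h3 : 3 * φ (j3 p) = 1 := by
    have := congrArg φ (three_j3 p (by omega))
    rw [map_mul, map_ofNat, map_one] at this
    exact this
  rw [← clausen p φ, map_sum]
  refine Finset.sum_congr rfl ?_
  intro k _
  rw [map_mul, map_intCast, map_pow, map_mul, map_pow]
  congr 2
  set i2 := φ (j2 p)
  set i3 := φ (j3 p)
  linear_combination ((9 - 5 * s) * i2 * i3 ^ 5 + (26 - 15 * s) * (i2 * i3 ^ 6) * (27 * i3 ^ 3 + 9 * i3 ^ 2 + 3 * i3 + 1)) * h3 +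
    ((26 - 15 * s) * 81 * i2 * i3 ^ 10) * h2 + (675 * i2 ^ 2 * i3 ^ 10) * hs

lemma F_map {R' : Type*} [CommRing R'] (φ : ZMod (p ^ 2) →+* R') (c : ℕ → ℤ) :
    φ (∑ k ∈ Finset.range p, (c k : ZMod (p ^ 2)) * (j2 p * j3 p ^ 3) ^ k) =
      ∑ k ∈ Finset.range p, ((c k : ℤ) : R') * (φ (j2 p) * φ (j3 p) ^ 3) ^ k := by
  rw [map_sum]
  refine Finset.sum_congr rfl ?_
  intro k _
  rw [map_mul, map_intCast, map_pow, map_mul, map_pow]

lemma omega_sq (R : Type*) [CommRing R] : ((⟨0, 1⟩ : QuadraticAlgebra R 3 0)) ^ 2 = 3 := by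
  rw [pow_two]
  ext
  · simp only [QuadraticAlgebra.re_mul]
    rw [show (3 : QuadraticAlgebra R 3 0).re = 3 from rfl]
    ring
  · simp only [QuadraticAlgebra.im_mul]
    rw [show (3 : QuadraticAlgebra R 3 0).im = 0 from rfl]
    ring

/-- split case -/
theorem split_case (h : ℕ) (h6 : p = 6 * h + 1) (hpos : 0 < h) : ∃ X Y : ℤ, (p : ℤ) = X ^ 2 + 3 * Y ^ 2 ∧
    ∑ k ∈ Finset.range p, (a k : ZMod (p ^ 2)) * (j2 p * j3 p ^ 6) ^ k =
      4 * (X : ZMod (p ^ 2)) ^ 2 - 2 * (p : ZMod (p ^ 2)) := by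
  have h7 : 7 ≤ p := by omega
  obtain ⟨X, Y, hXY, hF⟩ := F_sq_val p h h6 hpos
  refine ⟨X, Y, hXY, ?_⟩
  rw [← hF]
  set φ : ZMod (p ^ 2) →+* QuadraticAlgebra (ZMod (p ^ 2)) 3 0 := algebraMap _ _ with hφ
  have hinj : Function.Injective φ := QuadraticAlgebra.algebraMap_injective
  apply hinj
  set s : QuadraticAlgebra (ZMod (p ^ 2)) 3 0 := ⟨0, 1⟩ with hsd
  have hs : s ^ 2 = 3 := omega_sq _
  have h2 : 2 * φ (j2 p) = 1 := by
    have := congrArg φ (two_j2 p (by omega))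
    rw [map_mul, map_ofNat, map_one] at this
    exact this
  have h3 : 3 * φ (j3 p) = 1 := by
    have := congrArg φ (three_j3 p (by omega))
    rw [map_mul, map_ofNat, map_one] at this
    exact this
  rw [s_eq_sq p h7 φ s hs, map_pow, F_map p φ b]
  apply special_split p φ s (φ (j2 p)) (φ (j3 p)) h7 hs h2 h3
  have hK := congrArg φ (K_rel p h h6 hpos)
  rw [F_map p φ (fun k => b (p + k)), map_mul, F_map p φ b, map_mul, map_pow, map_ofNat, map_ofNat] at hK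
  exact hK

/-- inert case -/
theorem inert_case (m : ℕ) (hm : p = 6 * m + 5) (h7 : 7 ≤ p) :
    ∑ k ∈ Finset.range p, (a k : ZMod (p ^ 2)) * (j2 p * j3 p ^ 6) ^ k = 0 := by
  obtain ⟨c, hc⟩ := F_inert p m hm
  set φ : ZMod (p ^ 2) →+* QuadraticAlgebra (ZMod (p ^ 2)) 3 0 := algebraMap _ _ with hφ
  have hinj : Function.Injective φ := QuadraticAlgebra.algebraMap_injective
  apply hinj
  set s : QuadraticAlgebra (ZMod (p ^ 2)) 3 0 := ⟨0, 1⟩ with hsd
  have hs : s ^ 2 = 3 := omega_sq _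
  have h2 : 2 * φ (j2 p) = 1 := by
    have := congrArg φ (two_j2 p (by omega))
    rw [map_mul, map_ofNat, map_one] at this
    exact this
  have h3 : 3 * φ (j3 p) = 1 := by
    have := congrArg φ (three_j3 p (by omega))
    rw [map_mul, map_ofNat, map_one] at this
    exact this
  rw [s_eq_sq p h7 φ s hs, map_zero]
  apply special_inert p φ s (φ (j2 p)) (φ (j3 p)) h7 hs h2 h3 (φ c)
  have hc' := congrArg φ hc
  rw [F_map p φ b, map_mul, map_natCast] at hc'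
  exact hc'

end Pool.Agent.Lib.Pd4325e
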